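import Pool.Agent.Lib.MP_e057e5_lc.Gadget3

namespace Pool.Agent.Lib.MP_e057e5_lc

/-- adjacency in the join of `G` with `K₄`, on natural numbers -/
def adjN {n : ℕ} (G : SimpleGraph (Fin n)) (u v : ℕ) : Prop :=
  n ≤ u ∨ n ≤ v ∨ ∃ (hu : u < n) (hv : v < n), G.Adj ⟨u, hu⟩ ⟨v, hv⟩

def nV (n : ℕ) : ℕ := (n + 4) * (n + 4) - 1

theorem nV_succ (n : ℕ) : nV n + 1 = (n + 4) * (n + 4) := by
  unfold nV
  have : 0 < (n + 4) * (n + 4) := by positivity
  omega

open Classical in
noncomputable def actN {n : ℕ} (G : SimpleGraph (Fin n)) (i : ℕ) : Bool :=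
  decide (i / (n + 4) < i % (n + 4) ∧ adjN G (i / (n + 4)) (i % (n + 4)))

noncomputable def incN {n : ℕ} (G : SimpleGraph (Fin n)) (i j : ℕ) : Bool :=
  actN G i && decide (n + 4 ≤ j ∨ i / (n + 4) = j ∨ i % (n + 4) = j)

def tN (k : ℕ) : ℕ := (k + 4).choose 2 - (k + 4) - 1

theorem choose_ge (k : ℕ) : (k + 4) + 1 ≤ (k + 4).choose 2 := by
  induction k with
  | zero => decide
  | succ k ih =>
    have : (k + 1 + 4).choose 2 = (k + 4).choose 1 + (k + 4).choose 2 := Nat.choose_succ_succ _ _
    rw [Nat.choose_one_right] at this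
    omega

theorem tN_add (k : ℕ) : (k + 4) + tN k + 1 = (k + 4).choose 2 := by
  have := choose_ge k
  unfold tN
  omega

section
variable {n k : ℕ} (G : SimpleGraph (Fin n))

noncomputable def actF (i : Fin (nV n + 1)) : Bool := actN G i.1
noncomputable def incF (k : ℕ) (i : Fin (nV n + 1)) (j : Fin (n + 4 + tN k)) : Bool :=
  incN G i.1 j.1

def uF (i : Fin (nV n + 1)) : Fin (n + 4) :=
  ⟨i.1 / (n + 4), by
    rw [Nat.div_lt_iff_lt_mul (by omega)]
    have := nV_succ n
    have := i.2
    omega⟩

def vF (i : Fin (nV n + 1)) : Fin (n + 4) := ⟨i.1 % (n + 4), Nat.mod_lt _ (by omega)⟩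

def mkI (u v : Fin (n + 4)) : Fin (nV n + 1) :=
  ⟨u.1 * (n + 4) + v.1, by
    rw [nV_succ]
    have h1 : (u.1 + 1) * (n + 4) ≤ (n + 4) * (n + 4) := Nat.mul_le_mul_right _ (by omega)
    have h2 : (u.1 + 1) * (n + 4) = u.1 * (n + 4) + (n + 4) := by ring
    omega⟩

theorem uF_mkI (u v : Fin (n + 4)) : uF (mkI u v) = u := by
  apply Fin.ext
  simp only [uF, mkI]
  rw [Nat.add_comm, Nat.add_mul_div_right _ _ (by omega), Nat.div_eq_of_lt v.2]
  omega

theorem vF_mkI (u v : Fin (n + 4)) : vF (mkI u v) = v := by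
  apply Fin.ext
  simp only [vF, mkI]
  rw [Nat.add_comm, Nat.add_mul_mod_self_right, Nat.mod_eq_of_lt v.2]

theorem ext_uv {i i' : Fin (nV n + 1)} (h1 : uF i = uF i') (h2 : vF i = vF i') : i = i' := by
  apply Fin.ext
  have h3 := congrArg Fin.val h1
  have h4 := congrArg Fin.val h2
  simp only [uF, vF] at h3 h4
  rw [← Nat.div_add_mod i.1 (n + 4), ← Nat.div_add_mod i'.1 (n + 4), h3, h4]

theorem actF_iff (i : Fin (nV n + 1)) :
    actF G i = true ↔ uF i < vF i ∧ adjN G (uF i).1 (vF i).1 := by
  simp only [actF, actN, decide_eq_true_eq]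
  exact Iff.rfl

theorem incF_iff (i : Fin (nV n + 1)) (j : Fin (n + 4 + tN k)) :
    incF G k i j = true ↔ actF G i = true ∧ (n + 4 ≤ j.1 ∨ (uF i).1 = j.1 ∨ (vF i).1 = j.1) := by
  unfold incF incN
  rw [Bool.and_eq_true, decide_eq_true_iff]
  exact Iff.rfl

/-- vertices covered by a set of variables -/
def cov (A : Finset (Fin (nV n + 1))) : Finset (Fin (n + 4)) := A.image uF ∪ A.image vF

theorem nb_card (A : Finset (Fin (nV n + 1))) (hA : ∀ i ∈ A, actF G i = true)
    (hne : A.Nonempty) : (nb (incF G k) A).card = (cov A).card + tN k := by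
  classical
  have h : nb (incF G k) A = (cov A).map (Fin.castAddEmb (tN k)) ∪
      (Finset.univ : Finset (Fin (tN k))).map (Fin.natAddEmb (n + 4)) := by
    ext j
    rw [nb, Finset.mem_filter, Finset.mem_union, Finset.mem_map, Finset.mem_map]
    constructor
    · rintro ⟨_, i, hi, hij⟩
      rw [incF_iff] at hij
      rcases hij.2 with h | h | h
      · right
        refine ⟨⟨j.1 - (n + 4), by omega⟩, Finset.mem_univ _, ?_⟩
        apply Fin.ext
        simp
        omega
      · left
        exact ⟨uF i, Finset.mem_union_left _ (Finset.mem_image_of_mem _ hi), Fin.ext h⟩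
      · left
        exact ⟨vF i, Finset.mem_union_right _ (Finset.mem_image_of_mem _ hi), Fin.ext h⟩
    · rintro (⟨x, hx, rfl⟩ | ⟨x, _, rfl⟩)
      · rcases Finset.mem_union.mp hx with hx | hx
        · obtain ⟨i, hi, rfl⟩ := Finset.mem_image.mp hx
          exact ⟨Finset.mem_univ _, i, hi, by rw [incF_iff]; exact ⟨hA i hi, Or.inr (Or.inl rfl)⟩⟩
        · obtain ⟨i, hi, rfl⟩ := Finset.mem_image.mp hx
          exact ⟨Finset.mem_univ _, i, hi, by rw [incF_iff]; exact ⟨hA i hi, Or.inr (Or.inr rfl)⟩⟩
      · obtain ⟨i, hi⟩ := hne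
        refine ⟨Finset.mem_univ _, i, hi, ?_⟩
        rw [incF_iff]
        exact ⟨hA i hi, Or.inl (by simp)⟩
  rw [h, Finset.card_union_of_disjoint, Finset.card_map, Finset.card_map, Finset.card_univ,
    Fintype.card_fin]
  rw [Finset.disjoint_left]
  intro j hj hj'
  obtain ⟨x, _, rfl⟩ := Finset.mem_map.mp hj
  obtain ⟨y, _, h⟩ := Finset.mem_map.mp hj'
  have := congrArg Fin.val h
  simp at this
  omega

def prs (i : Fin (nV n + 1)) : Finset (Fin (n + 4)) := {uF i, vF i}

theorem prs_inj {A : Finset (Fin (nV n + 1))} (hA : ∀ i ∈ A, uF i < vF i) :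
    Set.InjOn (prs (n := n)) A := by
  intro i hi i' hi' h
  have h1 := hA i hi
  have h2 := hA i' hi'
  have m1 : uF i ∈ prs i' := by rw [← h]; simp [prs]
  have m2 : vF i ∈ prs i' := by rw [← h]; simp [prs]
  have m3 : uF i' ∈ prs i := by rw [h]; simp [prs]
  simp only [prs, Finset.mem_insert, Finset.mem_singleton] at m1 m2 m3
  apply ext_uv
  · rcases m1 with m1 | m1
    · exact m1
    · rcases m2 with m2 | m2
      · rw [m1, m2] at h1; exact absurd h1 (lt_asymm h2)
      · rw [m1, m2] at h1; exact absurd h1 (lt_irrefl _)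
  · rcases m2 with m2 | m2
    · rcases m1 with m1 | m1
      · rw [m1, m2] at h1; exact absurd h1 (lt_irrefl _)
      · rw [m1, m2] at h1; exact absurd h1 (lt_asymm h2)
    · exact m2

theorem prs_mem {A : Finset (Fin (nV n + 1))} (hA : ∀ i ∈ A, uF i < vF i) :
    A.image prs ⊆ (cov A).powersetCard 2 := by
  intro s hs
  obtain ⟨i, hi, rfl⟩ := Finset.mem_image.mp hs
  rw [Finset.mem_powersetCard]
  constructor
  · intro x hx
    simp only [prs, Finset.mem_insert, Finset.mem_singleton] at hx
    rcases hx with rfl | rfl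
    · exact Finset.mem_union_left _ (Finset.mem_image_of_mem _ hi)
    · exact Finset.mem_union_right _ (Finset.mem_image_of_mem _ hi)
  · exact Finset.card_pair (hA i hi).ne

theorem arith {v k' : ℕ} (h4 : 4 ≤ k') (h : v + k'.choose 2 ≤ k' + v.choose 2) : k' ≤ v := by
  by_contra hlt
  push Not at hlt
  have h1 := Nat.choose_two_right k'
  have h2 := Nat.choose_two_right v
  have e1 : 2 * k'.choose 2 = k' * (k' - 1) := by
    rw [h1]; exact Nat.mul_div_cancel' (Nat.even_mul_pred_self k').two_dvd
  have e2 : 2 * v.choose 2 = v * (v - 1) := by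
    rw [h2]; exact Nat.mul_div_cancel' (Nat.even_mul_pred_self v).two_dvd
  obtain ⟨d, rfl⟩ : ∃ d, k' = v + d + 1 := ⟨k' - v - 1, by omega⟩
  rcases v with _ | v
  · simp at e1 e2 h
    nlinarith
  · simp only [Nat.add_sub_cancel] at e1 e2
    nlinarith

/-- Hall violators of the incidence structure correspond to cliques in the join. -/
theorem violator_iff :
    (∃ A : Finset (Fin (nV n + 1)), (∀ i ∈ A, actF G i = true) ∧
      (nb (incF G k) A).card < A.card ∧ A.card ≤ (k + 4) + tN k + 1) ↔
    ∃ S : Finset (Fin (n + 4)), S.card = k + 4 ∧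
      ∀ x ∈ S, ∀ y ∈ S, x < y → adjN G x.1 y.1 := by
  classical
  constructor
  · rintro ⟨A, hact, hlt, hle⟩
    have hne : A.Nonempty := by
      rw [← Finset.card_pos]; omega
    rw [nb_card G A hact hne] at hlt
    have hord : ∀ i ∈ A, uF i < vF i := fun i hi => ((actF_iff G i).mp (hact i hi)).1
    have h1 : (A.image prs).card = A.card := Finset.card_image_of_injOn (prs_inj hord)
    have h2 := Finset.card_le_card (prs_mem hord)
    rw [h1, Finset.card_powersetCard] at h2
    have h3 := tN_add k
    have h4 : k + 4 ≤ (cov A).card := by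
      apply arith (by omega)
      omega
    have h5 : (cov A).card = k + 4 := by omega
    refine ⟨cov A, h5, ?_⟩
    have h6 : A.image prs = (cov A).powersetCard 2 := by
      apply Finset.eq_of_subset_of_card_le (prs_mem hord)
      rw [h1, Finset.card_powersetCard, h5]
      omega
    intro x hx y hy hxy
    have h7 : ({x, y} : Finset (Fin (n + 4))) ∈ A.image prs := by
      rw [h6, Finset.mem_powersetCard]
      refine ⟨?_, Finset.card_pair hxy.ne⟩
      intro z hz
      simp only [Finset.mem_insert, Finset.mem_singleton] at hz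
      rcases hz with rfl | rfl
      · exact hx
      · exact hy
    obtain ⟨i, hi, hi'⟩ := Finset.mem_image.mp h7
    have h8 := (actF_iff G i).mp (hact i hi)
    have hu : uF i = x ∧ vF i = y := by
      have m1 : uF i ∈ ({x, y} : Finset (Fin (n + 4))) := by rw [← hi']; simp [prs]
      have m2 : vF i ∈ ({x, y} : Finset (Fin (n + 4))) := by rw [← hi']; simp [prs]
      simp only [Finset.mem_insert, Finset.mem_singleton] at m1 m2
      rcases m1 with m1 | m1 <;> rcases m2 with m2 | m2
      · rw [m1, m2] at h8; exact absurd h8.1 (lt_irrefl _)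
      · exact ⟨m1, m2⟩
      · rw [m1, m2] at h8; exact absurd h8.1 (lt_asymm hxy)
      · rw [m1, m2] at h8; exact absurd h8.1 (lt_irrefl _)
    rw [← hu.1, ← hu.2]
    exact h8.2
  · rintro ⟨S, hS, hadj⟩
    set A : Finset (Fin (nV n + 1)) :=
      Finset.univ.filter fun i => uF i < vF i ∧ uF i ∈ S ∧ vF i ∈ S with hA
    have hact : ∀ i ∈ A, actF G i = true := by
      intro i hi
      obtain ⟨_, h1, h2, h3⟩ := Finset.mem_filter.mp hi
      rw [actF_iff]
      exact ⟨h1, hadj _ h2 _ h3 h1⟩
    have hord : ∀ i ∈ A, uF i < vF i := fun i hi => (Finset.mem_filter.mp hi).2.1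
    have hcov : cov A ⊆ S := by
      intro x hx
      rcases Finset.mem_union.mp hx with hx | hx
      · obtain ⟨i, hi, rfl⟩ := Finset.mem_image.mp hx
        exact (Finset.mem_filter.mp hi).2.2.1
      · obtain ⟨i, hi, rfl⟩ := Finset.mem_image.mp hx
        exact (Finset.mem_filter.mp hi).2.2.2
    have h1 : (A.image prs).card = A.card := Finset.card_image_of_injOn (prs_inj hord)
    have h2 : A.image prs = S.powersetCard 2 := by
      apply Finset.Subset.antisymm
      · exact (prs_mem hord).trans (Finset.powersetCard_mono hcov)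
      · intro s hs
        rw [Finset.mem_powersetCard] at hs
        obtain ⟨x, y, hxy, rfl⟩ := Finset.card_eq_two.mp hs.2
        have hx : x ∈ S := hs.1 (by simp)
        have hy : y ∈ S := hs.1 (by simp)
        rcases lt_or_gt_of_ne hxy with h | h
        · refine Finset.mem_image.mpr ⟨mkI x y, ?_, ?_⟩
          · rw [hA, Finset.mem_filter, uF_mkI, vF_mkI]
            exact ⟨Finset.mem_univ _, h, hx, hy⟩
          · simp only [prs, uF_mkI, vF_mkI]
        · refine Finset.mem_image.mpr ⟨mkI y x, ?_, ?_⟩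
          · rw [hA, Finset.mem_filter, uF_mkI, vF_mkI]
            exact ⟨Finset.mem_univ _, h, hy, hx⟩
          · simp only [prs, uF_mkI, vF_mkI]
            exact Finset.pair_comm _ _
    rw [h2, Finset.card_powersetCard, hS, ← tN_add k] at h1
    have hne : A.Nonempty := by
      rw [← Finset.card_pos]; omega
    refine ⟨A, hact, ?_, by omega⟩
    rw [nb_card G A hact hne]
    have := Finset.card_le_card hcov
    omega

theorem join_iff :
    (∃ S : Finset (Fin (n + 4)), S.card = k + 4 ∧
      ∀ x ∈ S, ∀ y ∈ S, x < y → adjN G x.1 y.1) ↔ ∃ S, G.IsNClique k S := by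
  classical
  constructor
  · rintro ⟨S, hS, hadj⟩
    set T : Finset (Fin n) := Finset.univ.filter fun x => Fin.castAdd 4 x ∈ S with hT
    have hT' : k ≤ T.card := by
      have hsub : S ⊆ T.map (Fin.castAddEmb 4) ∪
          (Finset.univ : Finset (Fin 4)).map (Fin.natAddEmb n) := by
        intro x hx
        rw [Finset.mem_union, Finset.mem_map, Finset.mem_map]
        by_cases h : x.1 < n
        · left
          refine ⟨⟨x.1, h⟩, ?_, Fin.ext rfl⟩
          rw [hT, Finset.mem_filter]
          exact ⟨Finset.mem_univ _, hx⟩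
        · right
          refine ⟨⟨x.1 - n, by omega⟩, Finset.mem_univ _, ?_⟩
          apply Fin.ext
          simp
          omega
      have h1 := (Finset.card_le_card hsub).trans (Finset.card_union_le _ _)
      rw [Finset.card_map, Finset.card_map, Finset.card_univ, Fintype.card_fin, hS] at h1
      omega
    obtain ⟨T', hT'1, hT'2⟩ := Finset.exists_subset_card_eq hT'
    refine ⟨T', ?_, hT'2⟩
    intro x hx y hy hxy
    have hx' := (Finset.mem_filter.mp (hT'1 hx)).2
    have hy' := (Finset.mem_filter.mp (hT'1 hy)).2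
    have key : ∀ x y : Fin n, Fin.castAdd 4 x ∈ S → Fin.castAdd 4 y ∈ S → x < y → G.Adj x y := by
      intro x y hx hy hxy
      rcases hadj _ hx _ hy (show Fin.castAdd 4 x < Fin.castAdd 4 y from hxy) with
        h | h | ⟨_, _, h⟩
      · have : (Fin.castAdd 4 x).1 = x.1 := rfl
        omega
      · have : (Fin.castAdd 4 y).1 = y.1 := rfl
        omega
      · exact h
    rcases lt_or_gt_of_ne hxy with h | h
    · exact key x y hx' hy' h
    · exact (key y x hy' hx' h).symm
  · rintro ⟨S, hS, hScard⟩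
    refine ⟨S.map (Fin.castAddEmb 4) ∪ (Finset.univ : Finset (Fin 4)).map (Fin.natAddEmb n), ?_, ?_⟩
    · rw [Finset.card_union_of_disjoint, Finset.card_map, Finset.card_map, Finset.card_univ,
        Fintype.card_fin, hScard]
      rw [Finset.disjoint_left]
      intro j hj hj'
      obtain ⟨x, _, rfl⟩ := Finset.mem_map.mp hj
      obtain ⟨y, _, h⟩ := Finset.mem_map.mp hj'
      have := congrArg Fin.val h
      simp at this
      omega
    · intro x hx y hy hxy
      rw [Finset.mem_union, Finset.mem_map, Finset.mem_map] at hx hy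
      rcases hx with ⟨x', hx', rfl⟩ | ⟨x', _, rfl⟩
      · rcases hy with ⟨y', hy', rfl⟩ | ⟨y', _, rfl⟩
        · right; right
          refine ⟨x'.2, y'.2, ?_⟩
          apply hS hx' hy'
          rintro rfl
          exact lt_irrefl _ hxy
        · right; left
          simp
      · left
        simp

end

end Pool.Agent.Lib.MP_e057e5_lc
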