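import Pool.Agent.Lib.Ram.Defs

namespace Pool.Agent.Lib.MP_e057e5_lc

/-- A finite loopless multigraph with vertices `0, …, n-1` and edges `0, …, m-1`; parallel edges
are allowed. -/
structure MGraph where
  n : ℕ
  m : ℕ
  ends : Fin m → Fin n × Fin n
  loopless : ∀ e, (ends e).1 ≠ (ends e).2

/-- The set of endpoints of the edges in `F`. -/
def MGraph.verts (G : MGraph) (F : Finset (Fin G.m)) : Finset (Fin G.n) :=
  F.image (fun e => (G.ends e).1) ∪ F.image (fun e => (G.ends e).2)

/-- Independence in the 2-dimensional rigidity matroid. -/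
def MGraph.Indep (G : MGraph) (F : Finset (Fin G.m)) : Prop :=
  ∀ F' ⊆ F, F'.Nonempty → F'.card + 3 ≤ 2 * (G.verts F').card

/-- `G - F` is rigid in the plane: some independent set of `2n-3` edges avoids `F`. -/
def MGraph.RigidWithout (G : MGraph) (F : Finset (Fin G.m)) : Prop :=
  ∃ I : Finset (Fin G.m), Disjoint I F ∧ G.Indep I ∧ I.card + 3 = 2 * G.n

/-- `G` is rigid in the plane. -/
def MGraph.Rigid (G : MGraph) : Prop := G.RigidWithout ∅

/-- `c(G)`: the minimum number of edges whose removal destroys rigidity. -/
noncomputable def MGraph.cut (G : MGraph) : ℕ :=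
  sInf {c | ∃ F : Finset (Fin G.m), F.card = c ∧ ¬ G.RigidWithout F}

/-- The list of numbers describing a multigraph: number of vertices, number of edges, and the two
ends of each edge. -/
def MGraph.code (G : MGraph) : List ℕ :=
  G.n :: G.m :: (List.finRange G.m).flatMap fun e => [((G.ends e).1 : ℕ), ((G.ends e).2 : ℕ)]

open Classical in
/-- The list of numbers describing an instance of CLIQUE: `n`, `k` and the adjacency matrix. -/
noncomputable def cliqueCode (n k : ℕ) (G : SimpleGraph (Fin n)) : List ℕ :=
  n :: k :: (List.finRange n).flatMap fun u => (List.finRange n).map fun v =>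
    if G.Adj u v then 1 else 0

end Pool.Agent.Lib.MP_e057e5_lc
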