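import Pool.Agent.Lib.MP_e057e5_lc.Clique

namespace Pool.Agent.Lib.MP_e057e5_lc

structure IsEnum {α : Type} (l : List α) : Prop where
  nodup : l.Nodup
  complete : ∀ x, x ∈ l

theorem IsEnum.finRange (n : ℕ) : IsEnum (List.finRange n) :=
  ⟨List.nodup_finRange n, List.mem_finRange⟩

theorem IsEnum.unit : IsEnum [()] := ⟨by simp, by simp⟩

theorem IsEnum.prod {α β : Type} {la : List α} {lb : List β} (ha : IsEnum la) (hb : IsEnum lb) :
    IsEnum (la.product lb) :=
  ⟨ha.nodup.product hb.nodup, fun _ => List.mem_product.mpr ⟨ha.complete _, hb.complete _⟩⟩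

theorem IsEnum.sum {α β : Type} {la : List α} {lb : List β} (ha : IsEnum la) (hb : IsEnum lb) :
    IsEnum (la.map Sum.inl ++ lb.map Sum.inr) := by
  constructor
  · rw [List.nodup_append]
    refine ⟨ha.nodup.map Sum.inl_injective, hb.nodup.map Sum.inr_injective, ?_⟩
    intro x hx y hy h
    obtain ⟨x', _, rfl⟩ := List.mem_map.mp hx
    obtain ⟨y', _, rfl⟩ := List.mem_map.mp hy
    cases h
  · rintro (x | y)
    · exact List.mem_append_left _ (List.mem_map_of_mem (ha.complete x))
    · exact List.mem_append_right _ (List.mem_map_of_mem (hb.complete y))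

def enumE (a b M : ℕ) : List (Et a b M) :=
  (List.finRange M).map Sum.inl ++
    ((List.finRange (a + 1)).product
      (((((List.finRange 8).product (List.finRange M)).map Sum.inl ++
          [()].map Sum.inr).map Sum.inl) ++
        (((List.finRange b).product ((List.finRange 9).product (List.finRange M))).map
          Sum.inr))).map Sum.inr

theorem enumE_isEnum (a b M : ℕ) : IsEnum (enumE a b M) :=
  (IsEnum.finRange M).sum ((IsEnum.finRange (a + 1)).prod
    ((((IsEnum.finRange 8).prod (IsEnum.finRange M)).sum IsEnum.unit).sum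
      ((IsEnum.finRange b).prod ((IsEnum.finRange 9).prod (IsEnum.finRange M)))))

section num
variable {a b : ℕ}

def wN : Wt a b → ℕ
  | .inl i => i.1 * (b + 1) + b
  | .inr (i, j) => i.1 * (b + 1) + j.1

theorem wN_lt (w : Wt a b) : wN w < (a + 1) * (b + 1) := by
  rcases w with i | ⟨i, j⟩
  · have h1 : (i.1 + 1) * (b + 1) ≤ (a + 1) * (b + 1) := Nat.mul_le_mul_right _ (by omega)
    have h2 : (i.1 + 1) * (b + 1) = i.1 * (b + 1) + (b + 1) := by ring
    simp only [wN]; omega
  · have h1 : (i.1 + 1) * (b + 1) ≤ (a + 1) * (b + 1) := Nat.mul_le_mul_right _ (by omega)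
    have h2 : (i.1 + 1) * (b + 1) = i.1 * (b + 1) + (b + 1) := by ring
    simp only [wN]; omega

theorem wN_inj : Function.Injective (wN (a := a) (b := b)) := by
  have key : ∀ (i i' r r' : ℕ), r < b + 1 → r' < b + 1 → i * (b + 1) + r = i' * (b + 1) + r' →
      i = i' ∧ r = r' := by
    intro i i' r r' hr hr' h
    have h1 := congrArg (· / (b + 1)) h
    have h2 := congrArg (· % (b + 1)) h
    simp only [Nat.mul_comm _ (b + 1), Nat.mul_add_div (Nat.succ_pos b), Nat.mul_add_mod,
      Nat.div_eq_of_lt hr, Nat.div_eq_of_lt hr', Nat.mod_eq_of_lt hr, Nat.mod_eq_of_lt hr',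
      Nat.add_zero] at h1 h2
    exact ⟨h1, h2⟩
  rintro (i | ⟨i, j⟩) (i' | ⟨i', j'⟩) h
  · simp only [wN] at h
    have := (key _ _ _ _ (by omega) (by omega) h).1
    rw [Fin.ext this]
  · simp only [wN] at h
    have := (key _ _ _ _ (by omega) (by omega) h).2
    omega
  · simp only [wN] at h
    have := (key _ _ _ _ (by omega) (by omega) h).2
    omega
  · simp only [wN] at h
    obtain ⟨h1, h2⟩ := key _ _ _ _ (by omega) (by omega) h
    rw [Fin.ext h1, Fin.ext h2]

def num : Vt a b → ℕ
  | .inl w => 2 + 4 * wN w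
  | .inr (.inl β) => if β then 1 else 0
  | .inr (.inr (w, s)) => 2 + 4 * wN w + 1 + s.1

theorem num_lt (v : Vt a b) : num v < 2 + 4 * ((a + 1) * (b + 1)) := by
  rcases v with w | β | ⟨w, s⟩
  · have := wN_lt w
    simp only [num]; omega
  · simp only [num]; split_ifs <;> omega
  · have := wN_lt w
    simp only [num]; omega

theorem num_inj : Function.Injective (num (a := a) (b := b)) := by
  rintro (w | β | ⟨w, s⟩) (w' | β' | ⟨w', s'⟩) h
  · simp only [num] at h
    rw [wN_inj (by omega : wN w = wN w')]
  · simp only [num] at h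
    split_ifs at h <;> omega
  · simp only [num] at h
    omega
  · simp only [num] at h
    split_ifs at h <;> omega
  · simp only [num] at h
    cases β <;> cases β' <;> simp at h ⊢
  · simp only [num] at h
    split_ifs at h <;> omega
  · simp only [num] at h
    omega
  · simp only [num] at h
    split_ifs at h <;> omega
  · simp only [num] at h
    have h1 : wN w = wN w' := by omega
    have h2 : s = s' := Fin.ext (by omega)
    rw [wN_inj h1, h2]

noncomputable def eV : Vt a b ≃ Fin (2 + 4 * ((a + 1) * (b + 1))) :=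
  Equiv.ofBijective (fun v => ⟨num v, num_lt v⟩) (by
    rw [Fintype.bijective_iff_injective_and_card]
    refine ⟨fun v v' h => num_inj (congrArg Fin.val h), ?_⟩
    rw [card_Vt, Fintype.card_fin]
    simp only [Fintype.card_sum, Fintype.card_prod, Fintype.card_fin]
    ring)

theorem eV_val (v : Vt a b) : (eV v : ℕ) = num v := rfl

end num

section graph
variable {a b M : ℕ} (inc : Fin (a + 1) → Fin b → Bool) (act : Fin (a + 1) → Bool)

theorem pr_ne (κ : Cls a b) : (pr inc κ).1 ≠ (pr inc κ).2 := by
  rcases κ with ⟨p, j⟩ | ⟨i, j⟩ | ⟨i, s⟩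
  · simp only [pr, pathPr]
    split_ifs
    · simp [cv, bs]
    · simp [cv, bs]
    · simp [cv]
      omega
  · simp only [pr, slotPr]
    split_ifs <;> simp [cv, bs, xv]
  · simp [pr, barPr, bs, xv]

theorem endsE_ne (e : Et a b M) : (endsE inc act e).1 ≠ (endsE inc act e).2 := by
  rcases e with m | ⟨i, (⟨κ, m⟩ | ⟨⟩) | ⟨j, κ, m⟩⟩
  · simp [endsE, hb]
  · simp only [endsE]
    split_ifs
    · simp [hb, bs]
    · exact pr_ne inc (.inr (.inr (i, 0)))
    · exact pr_ne inc (.inr (.inr (i, 0)))
    · exact pr_ne inc (.inr (.inr (i, 2)))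
  · exact pr_ne inc (.inr (.inr (i, 1)))
  · simp only [endsE]
    split_ifs
    · simp [hb, bs]
    · exact pr_ne inc (.inl (i.castSucc, j))
    · exact pr_ne inc (.inl (i.succ, j))
    · exact pr_ne inc (.inr (.inl (i, j)))

/-- the concrete multigraph -/
noncomputable def gadget (M : ℕ) : MGraph where
  n := 2 + 4 * ((a + 1) * (b + 1))
  m := (enumE a b M).length
  ends e := (eV (endsE inc act ((enumE a b M).get e)).1, eV (endsE inc act ((enumE a b M).get e)).2)
  loopless e := by
    intro h
    exact endsE_ne inc act _ (eV.injective h)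

noncomputable def eE (a b M : ℕ) : Et a b M ≃ Fin (enumE a b M).length :=
  ((enumE_isEnum a b M).nodup.getEquivOfForallMemList _ (enumE_isEnum a b M).complete).symm

theorem gadget_ends (e : Et a b M) :
    (gadget inc act M).ends (eE a b M e) = (eV (endsE inc act e).1, eV (endsE inc act e).2) := by
  have h : (enumE a b M).get (eE a b M e) = e :=
    ((enumE_isEnum a b M).nodup.getEquivOfForallMemList _
      (enumE_isEnum a b M).complete).apply_symm_apply e
  show (eV (endsE inc act ((enumE a b M).get (eE a b M e))).1,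
    eV (endsE inc act ((enumE a b M).get (eE a b M e))).2) = _
  rw [h]

/-- pairs of numbers in the order of the edge list -/
def pairsL (M : ℕ) : List (ℕ × ℕ) :=
  (enumE a b M).map fun e => (num (endsE inc act e).1, num (endsE inc act e).2)

theorem gadget_code : (gadget inc act M).code =
    (2 + 4 * ((a + 1) * (b + 1))) :: (pairsL inc act M).length ::
      (pairsL inc act M).flatMap fun p => [p.1, p.2] := by
  unfold MGraph.code
  have h1 : (gadget inc act M).m = (pairsL inc act M).length := by
    unfold pairsL; rw [List.length_map]; rfl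
  have h2 : ((List.finRange (gadget inc act M).m).flatMap fun e =>
      [(((gadget inc act M).ends e).1 : ℕ), (((gadget inc act M).ends e).2 : ℕ)]) =
      (pairsL inc act M).flatMap fun p => [p.1, p.2] := by
    unfold pairsL
    rw [List.flatMap_map]
    conv_rhs => rw [← List.map_get_finRange (enumE a b M)]
    rw [List.flatMap_map]
    rfl
  rw [h2, ← h1]
  rfl

end graph

/-! ### the edge list in terms of numbers -/

def rep (M : ℕ) (x y : ℕ) : List (ℕ × ℕ) := List.replicate M (x, y)

/-- the edges joining the three private base vertices of an inner vertex to the hubs -/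
def baseL (M w : ℕ) : List (ℕ × ℕ) :=
  rep M 0 (2 + 4 * w + 1) ++ rep M 1 (2 + 4 * w + 1) ++ rep M 0 (2 + 4 * w + 2) ++
    rep M 1 (2 + 4 * w + 2) ++ rep M 0 (2 + 4 * w + 3) ++ rep M 1 (2 + 4 * w + 3)

def xL (b M : ℕ) (actn : ℕ → Bool) (i : ℕ) : List (ℕ × ℕ) :=
  baseL M (i * (b + 1) + b) ++
    rep M (2 + 4 * (i * (b + 1) + b)) (2 + 4 * (i * (b + 1) + b) + 1) ++
    rep M (2 + 4 * (i * (b + 1) + b))
      (if actn i then 2 + 4 * (i * (b + 1) + b) + 1 else 2 + 4 * (i * (b + 1) + b) + 3) ++
    rep 1 (2 + 4 * (i * (b + 1) + b)) (2 + 4 * (i * (b + 1) + b) + 2)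

def cL (a b M : ℕ) (incn : ℕ → ℕ → Bool) (i j : ℕ) : List (ℕ × ℕ) :=
  baseL M (i * (b + 1) + j) ++
    (if i = 0 then rep M (2 + 4 * (i * (b + 1) + j)) (2 + 4 * (i * (b + 1) + j) + 1)
      else rep M (2 + 4 * (i * (b + 1) + j) - 4 * (b + 1)) (2 + 4 * (i * (b + 1) + j))) ++
    (if i = a then rep M (2 + 4 * (i * (b + 1) + j)) (2 + 4 * (i * (b + 1) + j) + 2)
      else rep M (2 + 4 * (i * (b + 1) + j)) (2 + 4 * (i * (b + 1) + j) + 4 * (b + 1))) ++
    (if incn i j then rep M (2 + 4 * (i * (b + 1) + b)) (2 + 4 * (i * (b + 1) + j))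
      else rep M (2 + 4 * (i * (b + 1) + j)) (2 + 4 * (i * (b + 1) + j) + 3))

def allL (a b M : ℕ) (actn : ℕ → Bool) (incn : ℕ → ℕ → Bool) : List (ℕ × ℕ) :=
  rep M 0 1 ++ (List.range (a + 1)).flatMap fun i =>
    xL b M actn i ++ (List.range b).flatMap fun j => cL a b M incn i j

theorem flatMap_finRange {β : Type} (n : ℕ) (g : ℕ → List β) :
    (List.finRange n).flatMap (fun i => g i.1) = (List.range n).flatMap g := by
  rw [← List.map_coe_finRange_eq_range, List.flatMap_map]

theorem map_const_finRange {β : Type} (n : ℕ) (x : β) :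
    (List.finRange n).map (fun _ => x) = List.replicate n x := by
  rw [List.map_const', List.length_finRange]

theorem map_product {α β γ : Type} (la : List α) (lb : List β) (f : α × β → γ) :
    (la.product lb).map f = la.flatMap fun x => lb.map fun y => f (x, y) := by
  show (la.flatMap fun a => lb.map (Prod.mk a)).map f = _
  rw [List.map_flatMap]
  simp [List.map_map, Function.comp_def]

/-- numbers of the ends of the heavy edges of kind `κ` at `x_i` -/
def kX (b : ℕ) (actn : ℕ → Bool) (i κ : ℕ) : ℕ × ℕ :=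
  if κ < 6 then (κ % 2, 2 + 4 * (i * (b + 1) + b) + 1 + κ / 2 % 3) else
    if κ = 6 then (2 + 4 * (i * (b + 1) + b), 2 + 4 * (i * (b + 1) + b) + 1) else
      (2 + 4 * (i * (b + 1) + b),
        if actn i then 2 + 4 * (i * (b + 1) + b) + 1 else 2 + 4 * (i * (b + 1) + b) + 3)

def kC (a b : ℕ) (incn : ℕ → ℕ → Bool) (i j κ : ℕ) : ℕ × ℕ :=
  if κ < 6 then (κ % 2, 2 + 4 * (i * (b + 1) + j) + 1 + κ / 2 % 3) else
    if κ = 6 then (if i = 0 then (2 + 4 * (i * (b + 1) + j), 2 + 4 * (i * (b + 1) + j) + 1)
      else (2 + 4 * (i * (b + 1) + j) - 4 * (b + 1), 2 + 4 * (i * (b + 1) + j))) else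
    if κ = 7 then (if i = a then (2 + 4 * (i * (b + 1) + j), 2 + 4 * (i * (b + 1) + j) + 2)
      else (2 + 4 * (i * (b + 1) + j), 2 + 4 * (i * (b + 1) + j) + 4 * (b + 1))) else
    (if incn i j then (2 + 4 * (i * (b + 1) + b), 2 + 4 * (i * (b + 1) + j))
      else (2 + 4 * (i * (b + 1) + j), 2 + 4 * (i * (b + 1) + j) + 3))

theorem num_hb (a b : ℕ) (κ : ℕ) : num (hb (decide (κ % 2 = 1)) : Vt a b) = κ % 2 := by
  simp only [hb, num, decide_eq_true_eq]
  split_ifs <;> omega

theorem endsX_num (a b M : ℕ) (actn : ℕ → Bool) (incn : ℕ → ℕ → Bool) (i : Fin (a + 1))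
    (κ : Fin 8) (m : Fin M) :
    (num (endsE (a := a) (b := b) (fun i j => incn i.1 j.1) (fun i => actn i.1)
        (.inr (i, .inl (.inl (κ, m))))).1,
      num (endsE (a := a) (b := b) (fun i j => incn i.1 j.1) (fun i => actn i.1)
        (.inr (i, .inl (.inl (κ, m))))).2) = kX b actn i.1 κ.1 := by
  simp only [endsE, kX]
  split_ifs with h1 h2 h3
  · simp only [num_hb]
    rfl
  · rfl
  · rfl
  · rfl

theorem endsC_num (a b M : ℕ) (actn : ℕ → Bool) (incn : ℕ → ℕ → Bool) (i : Fin (a + 1))
    (j : Fin b) (κ : Fin 9) (m : Fin M) :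
    (num (endsE (a := a) (b := b) (fun i j => incn i.1 j.1) (fun i => actn i.1)
        (.inr (i, .inr (j, (κ, m))))).1,
      num (endsE (a := a) (b := b) (fun i j => incn i.1 j.1) (fun i => actn i.1)
        (.inr (i, .inr (j, (κ, m))))).2) = kC a b incn i.1 j.1 κ.1 := by
  have hmul : ∀ x : ℕ, 1 ≤ x → (x - 1) * (b + 1) + (b + 1) = x * (b + 1) := by
    intro x hx
    obtain ⟨y, rfl⟩ : ∃ y, x = y + 1 := ⟨x - 1, by omega⟩
    simp only [Nat.add_sub_cancel]; ring
  simp only [endsE, kC]
  split_ifs with h1 h2 h3 h4 h5 h6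
  · simp only [num_hb]
    rfl
  · -- left, i = 0
    have : i.castSucc.1 = 0 := h3
    simp only [pathPr, dif_pos this, cv, bs, num, wN, h3]
    simp
  · -- left, i > 0
    have h0 : i.castSucc.1 ≠ 0 := h3
    have hl : i.castSucc.1 ≠ a + 1 := by have := i.2; simp; omega
    simp only [pathPr, dif_neg h0, dif_neg hl, cv, num, wN]
    have := hmul i.1 (by omega)
    simp only [Fin.val_castSucc, Prod.mk.injEq]
    constructor
    · omega
    · trivial
  · -- right, i = a
    have h0 : i.succ.1 ≠ 0 := by simp
    have hl : i.succ.1 = a + 1 := by simp [h5]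
    simp only [pathPr, dif_neg h0, dif_pos hl, cv, bs, num, wN, Fin.val_last, h5]
    simp
  · have h0 : i.succ.1 ≠ 0 := by simp
    have hl : i.succ.1 ≠ a + 1 := by simp; omega
    simp only [pathPr, dif_neg h0, dif_neg hl, cv, num, wN]
    simp only [Fin.val_succ, Nat.add_sub_cancel, Prod.mk.injEq]
    constructor
    · trivial
    · ring
  · simp only [slotPr, h6, if_true, xv, cv, num, wN]
  · simp only [slotPr, h6, cv, bs, num, wN]
    simp

theorem pairsL_eq (a b M : ℕ) (actn : ℕ → Bool) (incn : ℕ → ℕ → Bool) :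
    pairsL (a := a) (b := b) (fun i j => incn i.1 j.1) (fun i => actn i.1) M =
      allL a b M actn incn := by
  unfold pairsL enumE allL
  rw [List.map_append, List.map_map, List.map_map, map_product]
  congr 1
  · show (List.finRange M).map (fun _ => (0, 1)) = _
    rw [map_const_finRange]; rfl
  · rw [← flatMap_finRange]
    apply List.flatMap_congr
    intro i _
    rw [List.map_append]
    congr 1
    · simp only [List.map_append, List.map_map, map_product, List.map_cons, List.map_nil,
        Function.comp_def]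
      have h8 : List.finRange 8 = [0, 1, 2, 3, 4, 5, 6, 7] := by decide
      rw [h8]
      simp only [List.flatMap_cons, List.flatMap_nil, List.map_append, List.map_map,
        Function.comp_def, endsX_num, map_const_finRange, List.append_nil, List.map_nil]
      simp only [xL, baseL, rep, kX, List.append_assoc]
      rfl
    · rw [← flatMap_finRange]
      simp only [List.map_map, map_product, List.map_flatMap, Function.comp_def]
      apply List.flatMap_congr
      intro j _
      have h9 : List.finRange 9 = [0, 1, 2, 3, 4, 5, 6, 7, 8] := by decide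
      rw [h9]
      simp only [List.flatMap_cons, List.flatMap_nil, endsC_num, map_const_finRange,
        List.append_nil]
      have e : ∀ (c : Prop) [Decidable c] (p q : ℕ × ℕ),
          List.replicate M (if c then p else q) =
            if c then List.replicate M p else List.replicate M q := by
        intro c _ p q; split_ifs <;> rfl
      simp only [cL, baseL, rep, kC, List.append_assoc, ← e]
      rfl

end Pool.Agent.Lib.MP_e057e5_lc
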