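import Pool.Agent.Lib.Ram.Rules
import Pool.Agent.Lib.MP_e057e5_lc.Enum

namespace Pool.Agent.Lib.Ram

theorem Expr.congr {K : ℕ} {σ σ' : St} (hm : σ'.mem = σ.mem) : ∀ (e : Expr), e.vars K →
    (∀ r < K, σ'.reg r = σ.reg r) → e.eval σ' = e.eval σ
  | .lit _, _, _ => rfl
  | .var r, h, hr => hr r h
  | .add a b, h, hr => by simp only [Expr.eval, a.congr hm h.1 hr, b.congr hm h.2 hr]
  | .sub a b, h, hr => by simp only [Expr.eval, a.congr hm h.1 hr, b.congr hm h.2 hr]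
  | .mul a b, h, hr => by simp only [Expr.eval, a.congr hm h.1 hr, b.congr hm h.2 hr]
  | .div a b, h, hr => by simp only [Expr.eval, a.congr hm h.1 hr, b.congr hm h.2 hr]
  | .load a, h, hr => by simp only [Expr.eval, a.congr hm h hr, hm]

theorem Expr.ok_congr {K W : ℕ} {σ σ' : St} (hm : σ'.mem = σ.mem) : ∀ (e : Expr), e.vars K →
    (∀ r < K, σ'.reg r = σ.reg r) → e.ok W σ → e.ok W σ'
  | .lit _, _, _, h => h
  | .var _, _, _, _ => trivial
  | .add a b, h, hr, ho => ⟨a.ok_congr hm h.1 hr ho.1, b.ok_congr hm h.2 hr ho.2.1, by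
      rw [a.congr hm h.1 hr, b.congr hm h.2 hr]; exact ho.2.2⟩
  | .sub a b, h, hr, ho => ⟨a.ok_congr hm h.1 hr ho.1, b.ok_congr hm h.2 hr ho.2⟩
  | .mul a b, h, hr, ho => ⟨a.ok_congr hm h.1 hr ho.1, b.ok_congr hm h.2 hr ho.2.1, by
      rw [a.congr hm h.1 hr, b.congr hm h.2 hr]; exact ho.2.2⟩
  | .div a b, h, hr, ho => ⟨a.ok_congr hm h.1 hr ho.1, b.ok_congr hm h.2 hr ho.2⟩
  | .load a, h, hr, ho => a.ok_congr hm h hr ho

end Pool.Agent.Lib.Ram

namespace Pool.Agent.Lib.MP_e057e5_lc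

open Pool.Agent.Lib.Ram

/-- frame condition: registers below `ℓ` (except the output pointer `1`) and memory below `base`
are unchanged -/
def Fr (ℓ base : ℕ) (σ σ' : St) : Prop :=
  (∀ r < ℓ, r ≠ 1 → σ'.reg r = σ.reg r) ∧ ∀ a < base, σ'.mem a = σ.mem a

theorem Fr.refl {ℓ base : ℕ} (σ : St) : Fr ℓ base σ σ := ⟨fun _ _ _ => rfl, fun _ _ => rfl⟩

theorem Fr.trans {ℓ base : ℕ} {σ σ₁ σ₂ : St} (h₁ : Fr ℓ base σ σ₁) (h₂ : Fr ℓ base σ₁ σ₂) :
    Fr ℓ base σ σ₂ :=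
  ⟨fun r h h1 => (h₂.1 r h h1).trans (h₁.1 r h h1), fun a h => (h₂.2 a h).trans (h₁.2 a h)⟩

theorem Fr.mono {ℓ ℓ' base : ℕ} {σ σ' : St} (h : Fr ℓ base σ σ') (hl : ℓ' ≤ ℓ) : Fr ℓ' base σ σ' :=
  ⟨fun r hr h1 => h.1 r (by omega) h1, h.2⟩

/-- the list `L` of pairs is stored from `base` on, and register `1` points behind it -/
def Em (base : ℕ) (L : List (ℕ × ℕ)) (σ : St) : Prop :=
  σ.reg 1 = base + 2 * L.length ∧
    ∀ q (h : q < L.length), σ.mem (base + 2 * q) = (L[q]).1 ∧ σ.mem (base + 2 * q + 1) = (L[q]).2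

/-- `c` appends `l` to the output -/
def Emits (W base ℓ : ℕ) (c : Cmd) (σ : St) (T : ℕ) (l : List (ℕ × ℕ)) : Prop :=
  ∀ L, Em base L σ → base + 2 * (L.length + l.length) ≤ W →
    Run W c σ T (fun σ' => Fr ℓ base σ σ' ∧ Em base (L ++ l) σ')

variable {W base ℓ : ℕ} {σ : St}

theorem Emits.level {ℓ' : ℕ} {c : Cmd} {T : ℕ} {l : List (ℕ × ℕ)} (h : Emits W base ℓ' c σ T l)
    (hl : ℓ ≤ ℓ') : Emits W base ℓ c σ T l := fun L hL hW =>
  (h L hL hW).mono le_rfl fun _ ⟨h1, h2⟩ => ⟨h1.mono hl, h2⟩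

theorem Emits.time {c : Cmd} {T T' : ℕ} {l : List (ℕ × ℕ)} (h : Emits W base ℓ c σ T l)
    (hl : T ≤ T') : Emits W base ℓ c σ T' l := fun L hL hW =>
  (h L hL hW).mono hl fun _ h => h

theorem Emits.seq {c₁ c₂ : Cmd} {T₁ T₂ : ℕ} {l₁ l₂ : List (ℕ × ℕ)}
    (h₁ : Emits W base ℓ c₁ σ T₁ l₁) (h₂ : ∀ σ', Fr ℓ base σ σ' → Emits W base ℓ c₂ σ' T₂ l₂) :
    Emits W base ℓ (.seq c₁ c₂) σ (T₁ + T₂) (l₁ ++ l₂) := by
  intro L hL hW
  rw [List.length_append] at hW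
  refine Run.seq ((h₁ L hL (by omega)).mono le_rfl ?_) le_rfl
  rintro σ₁ ⟨f₁, e₁⟩
  refine (h₂ σ₁ f₁ (L ++ l₁) e₁ (by rw [List.length_append]; omega)).mono le_rfl ?_
  rintro σ₂ ⟨f₂, e₂⟩
  exact ⟨f₁.trans f₂, by rwa [← List.append_assoc]⟩

/-- a silent first command -/
theorem Emits.pre {c₁ c₂ : Cmd} {T₁ T₂ : ℕ} {l : List (ℕ × ℕ)} {P : St → Prop}
    (h₁ : Run W c₁ σ T₁ (fun σ' => Fr ℓ base σ σ' ∧ σ'.reg 1 = σ.reg 1 ∧ σ'.mem = σ.mem ∧ P σ'))
    (h₂ : ∀ σ', Fr ℓ base σ σ' → σ'.mem = σ.mem → P σ' → Emits W base ℓ c₂ σ' T₂ l) :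
    Emits W base ℓ (.seq c₁ c₂) σ (T₁ + T₂) l := by
  intro L hL hW
  refine Run.seq (h₁.mono le_rfl ?_) le_rfl
  rintro σ₁ ⟨f₁, e1, e2, p⟩
  have hL' : Em base L σ₁ := ⟨by rw [e1]; exact hL.1, by rw [e2]; exact hL.2⟩
  refine (h₂ σ₁ f₁ e2 p L hL' hW).mono le_rfl ?_
  rintro σ₂ ⟨f₂, e₂⟩
  exact ⟨f₁.trans f₂, e₂⟩

theorem Emits.assign {d : ℕ} {e : Expr} {c : Cmd} {T : ℕ} {l : List (ℕ × ℕ)} (hd : ℓ ≤ d)
    (hd1 : d ≠ 1) (ho : e.ok W σ) (h : Emits W base ℓ c (σ.set d (e.eval σ)) T l) :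
    Emits W base ℓ (.seq (.assign d e) c) σ (e.size + 2 + T) l := by
  refine Emits.pre (P := fun σ' => σ' = σ.set d (e.eval σ)) (Term.run (Term.assign ho ?_) trivial)
    (fun σ' _ _ h' => by rw [h']; exact h)
  refine ⟨⟨fun r hr _ => ?_, fun _ _ => rfl⟩, ?_, rfl, rfl⟩
  · simp only [St.set_reg]; rw [if_neg (by omega)]
  · simp only [St.set_reg]; rw [if_neg (by omega)]

theorem Emits.ite {e : Expr} {p q : Cmd} {T : ℕ} {l : List (ℕ × ℕ)} (ho : e.ok W σ)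
    (hp : e.eval σ ≠ 0 → Emits W base ℓ p σ T l) (hq : e.eval σ = 0 → Emits W base ℓ q σ T l) :
    Emits W base ℓ (.ite e p q) σ (e.size + 2 + T) l := fun L hL hW =>
  Run.ite ho (fun h => hp h L hL hW) (fun h => hq h L hL hW) le_rfl

/-- write one pair -/
def emit1 : Cmd :=
  .seq (.store (.var 1) (.var 19)) (.seq (.store (.add (.var 1) (.lit 1)) (.var 20))
    (.assign 1 (.add (.var 1) (.lit 2))))

theorem emit1_term {L : List (ℕ × ℕ)} (hL : Em base L σ) (hW : base + 2 * (L.length + 1) ≤ W) :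
    Term W emit1 σ (fun σ' => (∀ r, r ≠ 1 → σ'.reg r = σ.reg r) ∧
      (∀ a < base, σ'.mem a = σ.mem a) ∧ Em base (L ++ [(σ.reg 19, σ.reg 20)]) σ') := by
  obtain ⟨h1, hm⟩ := hL
  have ok1 : ∀ c : ℕ, c ≤ 2 → ∀ σ' : St, σ'.reg 1 = σ.reg 1 →
      (Expr.add (.var 1) (.lit c)).ok W σ' := by
    intro c hc σ' h
    refine ⟨trivial, ?_, ?_⟩
    · show c ≤ W; omega
    · simp only [Expr.eval, h, h1]; omega
  refine Term.seq (Term.store trivial trivial (Term.seq (Term.store (ok1 1 (by omega) _ rfl)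
    trivial (Term.assign (ok1 2 le_rfl _ rfl) ⟨?_, ?_, ?_, ?_⟩))))
  · intro r hr
    simp [hr]
  · intro a ha
    simp only [St.set_mem, St.put_mem, Expr.eval, St.put_reg, h1]
    rw [if_neg (by omega), if_neg (by omega)]
  · simp only [St.set_reg, if_true, Expr.eval, St.put_reg, h1, List.length_append,
      List.length_singleton]
    omega
  · intro q hq
    rw [List.length_append, List.length_singleton] at hq
    simp only [St.set_mem, St.put_mem, Expr.eval, St.put_reg, h1]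
    by_cases hql : q < L.length
    · rw [if_neg (by omega), if_neg (by omega), if_neg (by omega), if_neg (by omega),
        List.getElem_append_left hql]
      exact hm q hql
    · obtain rfl : q = L.length := by omega
      rw [if_neg (by omega), if_pos rfl, if_pos rfl, List.getElem_concat_length]
      · exact ⟨rfl, rfl⟩
      · rfl

/-- write the pair of values of `e₁, e₂` as often as the value of `cnt` says -/
def emitN (cnt e₁ e₂ : Expr) : Cmd :=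
  .seq (.assign 19 e₁) (.seq (.assign 20 e₂) (.seq (.assign 21 cnt)
    (.loop (.var 21) (.seq emit1 (.assign 21 (.sub (.var 21) (.lit 1)))))))

def emitNCost (cnt e₁ e₂ : Expr) (m : ℕ) : ℕ :=
  e₁.size + 2 + (e₂.size + 2 + (cnt.size + 2 + (m * (4 + (emit1.cost + 6)) + 3)))

theorem emitN_emits {cnt e₁ e₂ : Expr} (hv₂ : e₂.vars 19) (hv₃ : cnt.vars 19)
    (ho₁ : e₁.ok W σ) (ho₂ : e₂.ok W σ) (ho₃ : cnt.ok W σ) (hW1 : 1 ≤ W) :
    Emits W base 19 (emitN cnt e₁ e₂) σ (emitNCost cnt e₁ e₂ (cnt.eval σ))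
      (rep (cnt.eval σ) (e₁.eval σ) (e₂.eval σ)) := by
  obtain ⟨x, hx⟩ : ∃ x, e₁.eval σ = x := ⟨_, rfl⟩
  obtain ⟨y, hy⟩ : ∃ y, e₂.eval σ = y := ⟨_, rfl⟩
  obtain ⟨m, hm⟩ : ∃ m, cnt.eval σ = m := ⟨_, rfl⟩
  rw [hx, hy, hm]
  refine Emits.assign le_rfl (by omega) ho₁ ?_
  rw [hx]
  have m1 : (σ.set 19 x).mem = σ.mem := rfl
  have m2 : ((σ.set 19 x).set 20 y).mem = σ.mem := rfl
  have c1 : ∀ r < 19, (σ.set 19 x).reg r = σ.reg r := by
    intro r hr; simp only [St.set_reg]; rw [if_neg (by omega)]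
  refine Emits.assign (by omega) (by omega) (e₂.ok_congr m1 hv₂ c1 ho₂) ?_
  rw [e₂.congr m1 hv₂ c1, hy]
  have c2 : ∀ r < 19, ((σ.set 19 x).set 20 y).reg r = σ.reg r := by
    intro r hr; simp only [St.set_reg]; rw [if_neg (by omega), if_neg (by omega)]
  refine Emits.assign (by omega) (by omega) (cnt.ok_congr m2 hv₃ c2 ho₃) ?_
  rw [cnt.congr m2 hv₃ c2, hm]
  set σ₁ := ((σ.set 19 x).set 20 y).set 21 m with hσ₁
  intro L hL hW
  rw [rep, List.length_replicate] at hW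
  refine (Run.loop (fun i σ' => i ≤ m ∧ σ'.reg 21 = i ∧ (∀ r, r ≠ 1 → r ≠ 21 →
    σ'.reg r = σ₁.reg r) ∧ (∀ a < base, σ'.mem a = σ₁.mem a) ∧
    Em base (L ++ List.replicate (m - i) (x, y)) σ') (emit1.cost + 6) m ?_ ?_ ?_).mono ?_ ?_
  · refine ⟨le_rfl, by simp [hσ₁], fun _ _ _ => rfl, fun _ _ => rfl, ?_⟩
    simpa using hL
  · intro _ _ _; trivial
  · rintro i σ' ⟨him, h21, hreg, hlow, hEm⟩ hne
    have hne : σ'.reg 21 ≠ 0 := hne
    obtain ⟨i, rfl⟩ : ∃ i', i = i' + 1 := ⟨i - 1, by omega⟩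
    refine ⟨i, rfl, ?_⟩
    have r19 : σ'.reg 19 = x := by rw [hreg 19 (by omega) (by omega)]; simp [hσ₁]
    have r20 : σ'.reg 20 = y := by rw [hreg 20 (by omega) (by omega)]; simp [hσ₁]
    refine Run.seq (T₁ := emit1.cost) (T₂ := 6) (((emit1_term hEm ?_).run
      ⟨trivial, trivial, trivial⟩).mono le_rfl ?_) le_rfl
    · rw [List.length_append, List.length_replicate]; omega
    · rintro σ₂ ⟨hreg₂, hlow₂, hEm₂⟩
      refine Term.run (Term.assign ⟨trivial, hW1⟩ ⟨?_, ?_, ?_, ?_, ?_⟩) trivial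
      · omega
      · simp only [St.set_reg, if_true, Expr.eval]
        rw [hreg₂ 21 (by omega), h21]; omega
      · intro r h1 h21'
        simp only [St.set_reg, if_neg h21']
        rw [hreg₂ r h1, hreg r h1 h21']
      · intro a ha
        simp only [St.set_mem]
        rw [hlow₂ a ha, hlow a ha]
      · rw [r19, r20, List.append_assoc] at hEm₂
        have e : List.replicate (m - (i + 1)) (x, y) ++ [(x, y)] =
            List.replicate (m - i) (x, y) := by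
          rw [← List.replicate_succ']
          congr 1
          omega
        rw [e] at hEm₂
        refine ⟨?_, hEm₂.2⟩
        simp only [St.set_reg]
        rw [if_neg (by omega)]
        exact hEm₂.1
  · show m * (2 + 2 + (emit1.cost + 6)) + (2 + 1) ≤ _
    exact le_rfl
  · rintro σ' ⟨h0, i, him, h21, hreg, hlow, hEm⟩
    have h0 : σ'.reg 21 = 0 := h0
    obtain rfl : i = 0 := by omega
    refine ⟨⟨fun r hr h1 => hreg r h1 (by omega), hlow⟩, ?_⟩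
    simpa [rep] using hEm

/-- `for r = 0, …, eB - 1 do body` -/
def forL (r : ℕ) (eB : Expr) (body : Cmd) : Cmd :=
  .seq (.assign r (.lit 0)) (.loop (.sub eB (.var r)) (.seq body
    (.assign r (.add (.var r) (.lit 1)))))

theorem flatMap_range_le {β : Type} (g : ℕ → List β) {i B : ℕ} (h : i ≤ B) :
    ((List.range i).flatMap g).length ≤ ((List.range B).flatMap g).length := by
  obtain ⟨d, rfl⟩ := Nat.exists_eq_add_of_le h
  rw [List.range_add, List.flatMap_append, List.length_append]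
  omega

theorem forL_emits {r B T : ℕ} {eB : Expr} {body : Cmd} {g : ℕ → List (ℕ × ℕ)} (hr1 : 1 < r)
    (hvar : eB = .var ℓ) (hℓr : ℓ < r) (hℓ1 : ℓ ≠ 1) (hB : σ.reg ℓ = B) (hBW : B ≤ W) (hW1 : 1 ≤ W)
    (hbody : ∀ i < B, ∀ σ', Fr r base σ σ' → σ'.reg r = i →
      Emits W base (r + 1) body σ' T (g i)) :
    Emits W base r (forL r eB body) σ (3 + (B * (7 + (T + 6)) + 6))
      ((List.range B).flatMap g) := by
  subst hvar
  refine Emits.assign (e := .lit 0) le_rfl (by omega) (Nat.zero_le _) ?_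
  have e0 : (Expr.lit 0).eval σ = 0 := rfl
  rw [e0]
  intro L hL hW
  refine (Run.loop (fun k σ' => ∃ i, i + k = B ∧ σ'.reg r = i ∧ Fr r base σ σ' ∧
    Em base (L ++ (List.range i).flatMap g) σ') (T + 6) B ?_ ?_ ?_).mono ?_ ?_
  · refine ⟨0, by omega, by simp, ⟨fun r' hr' _ => ?_, fun _ _ => rfl⟩, ?_⟩
    · simp only [St.set_reg]; rw [if_neg (by omega)]
    · simpa using hL
  · intro _ _ _; exact ⟨trivial, trivial⟩
  · rintro k σ' ⟨i, hik, hri, hfr, hEm⟩ hne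
    have hne : σ'.reg ℓ - σ'.reg r ≠ 0 := hne
    rw [hfr.1 ℓ hℓr hℓ1, hB, hri] at hne
    obtain ⟨k, rfl⟩ : ∃ k', k = k' + 1 := ⟨k - 1, by omega⟩
    refine ⟨k, rfl, ?_⟩
    have hlen := flatMap_range_le g (show i + 1 ≤ B by omega)
    have hsucc : (List.range (i + 1)).flatMap g = (List.range i).flatMap g ++ g i := by
      rw [List.range_succ, List.flatMap_append]; simp
    rw [hsucc, List.length_append] at hlen
    refine Run.seq (T₁ := T) (T₂ := 6) ((hbody i (by omega) σ' hfr hri _ hEm ?_).mono le_rfl ?_)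
      le_rfl
    · rw [List.length_append]; omega
    · rintro σ₂ ⟨hfr₂, hEm₂⟩
      have hr₂ : σ₂.reg r = i := (hfr₂.1 r (by omega) (by omega)).trans hri
      refine Term.run (Term.assign ⟨trivial, hW1, ?_⟩ ⟨i + 1, by omega, ?_, ?_, ?_⟩) trivial
      · simp only [Expr.eval, hr₂]; omega
      · simp only [St.set_reg, if_true, Expr.eval, hr₂]
      · have := hfr.trans (hfr₂.mono (by omega : r ≤ r + 1))
        refine ⟨fun r' hr' h1 => ?_, this.2⟩
        simp only [St.set_reg]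
        rw [if_neg (by omega)]; exact this.1 r' hr' h1
      · rw [hsucc, ← List.append_assoc]
        refine ⟨?_, hEm₂.2⟩
        simp only [St.set_reg]
        rw [if_neg (by omega)]
        exact hEm₂.1
  · show B * (2 + 2 + 1 + 2 + (T + 6)) + (2 + 2 + 1 + 1) ≤ _
    have : 2 + 2 + 1 + 2 + (T + 6) = 7 + (T + 6) := by omega
    rw [this]
  · rintro σ' ⟨h0, k, i, hik, hri, hfr, hEm⟩
    have h0 : σ'.reg ℓ - σ'.reg r = 0 := h0
    rw [hfr.1 ℓ hℓr hℓ1, hB, hri] at h0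
    obtain rfl : i = B := by omega
    refine ⟨?_, hEm⟩
    refine ⟨fun r' hr' h1 => ?_, hfr.2⟩
    rw [hfr.1 r' hr' h1]
    simp only [St.set_reg]
    rw [if_neg (by omega)]

end Pool.Agent.Lib.MP_e057e5_lc
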