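import Pool.Agent.Lib.MP_e057e5_lc.Main2

namespace Pool.Agent.Lib.MP_e057e5_lc

open Pool.Agent.Lib.Ram

theorem mainC_vars : mainC.vars 22 := by
  simp [mainC, hdrC, emitC, footC, emitN, emit1, forL, bodyI, bodyJ, actC, xC, cC, baseC, pl, wE,
    incE, dist, kE, tE, Cmd.vars, Expr.vars]

theorem emitT_eq (m : ℕ) : emitT m = 28 * m + 60 := by
  simp only [emitT, emit1, Cmd.cost, Expr.size]; ring

section bounds
variable {n k : ℕ}

theorem t_bound (hk : k ≤ n + 1) : k + 5 + tN k ≤ (n + 5) * (n + 5) := by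
  have h1 := tN_add k
  rw [Nat.choose_two_right] at h1
  have h2 : (k + 4) * (k + 4 - 1) ≤ (n + 5) * (n + 5) :=
    Nat.mul_le_mul (by omega) (by omega)
  have h3 := Nat.div_le_self ((k + 4) * (k + 4 - 1)) 2
  omega

theorem basics (hk : k ≤ n + 1) : ∃ Y : ℕ, Y = (n + 5) * (n + 5) ∧ 25 ≤ Y ∧
    n + 4 + tN k + 1 ≤ 2 * Y ∧ k + 4 + tN k + 2 ≤ 2 * Y ∧ nV n + 1 ≤ Y ∧ n * n + 5 ≤ Y ∧
    Y ≤ Y * Y ∧ Y * Y ≤ Y * Y * Y := by
  refine ⟨(n + 5) * (n + 5), rfl, ?_, ?_, ?_, ?_, ?_, ?_, ?_⟩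
  · exact Nat.mul_le_mul (show 5 ≤ n + 5 by omega) (show 5 ≤ n + 5 by omega)
  · have := t_bound hk
    have : n + 5 ≤ (n + 5) * (n + 5) := Nat.le_mul_self _
    omega
  · have := t_bound hk
    have : n + 5 ≤ (n + 5) * (n + 5) := Nat.le_mul_self _
    omega
  · rw [nV_succ]
    exact Nat.mul_le_mul (by omega) (by omega)
  · nlinarith
  · exact Nat.le_mul_self _
  · exact Nat.le_mul_of_pos_right _ (by positivity)

theorem mainN_bound {Y : ℕ} (_hY : 25 ≤ Y) (hb : n + 4 + tN k + 1 ≤ 2 * Y)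
    (hM : k + 4 + tN k + 2 ≤ 2 * Y) (hA : nV n + 1 ≤ Y) (h1 : Y ≤ Y * Y) (h2 : Y * Y ≤ Y * Y * Y) :
    mainN n k ≤ 60 * (Y * Y * Y) := by
  unfold mainN
  have e1 : (n + 4 + tN k) * (9 * (k + 4 + tN k + 2)) ≤ (2 * Y) * (9 * (2 * Y)) :=
    Nat.mul_le_mul (by omega) (by omega)
  have e2 : (nV n + 1) * (8 * (k + 4 + tN k + 2) + 1 + (n + 4 + tN k) *
      (9 * (k + 4 + tN k + 2))) ≤ Y * (8 * (2 * Y) + 1 + (2 * Y) * (9 * (2 * Y))) :=
    Nat.mul_le_mul hA (by omega)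
  have e3 : Y * (8 * (2 * Y) + 1 + (2 * Y) * (9 * (2 * Y))) =
      16 * (Y * Y) + Y + 36 * (Y * Y * Y) := by ring
  omega

theorem mainT_bound {Y : ℕ} (hY : 25 ≤ Y) (hb : n + 4 + tN k + 1 ≤ 2 * Y)
    (hM : k + 4 + tN k + 2 ≤ 2 * Y) (hA : nV n + 1 ≤ Y) (h1 : Y ≤ Y * Y) (h2 : Y * Y ≤ Y * Y * Y) :
    mainT (k + 4 + tN k + 2) (nV n + 1) (n + 4 + tN k) ≤ 5000 * (Y * Y * Y) := by
  obtain ⟨M, hM'⟩ : ∃ M, k + 4 + tN k + 2 = M := ⟨_, rfl⟩
  obtain ⟨b, hb'⟩ : ∃ b, n + 4 + tN k = b := ⟨_, rfl⟩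
  obtain ⟨A, hA'⟩ : ∃ A, nV n + 1 = A := ⟨_, rfl⟩
  rw [hM', hb', hA']
  rw [hM'] at hM
  rw [hb'] at hb
  rw [hA'] at hA
  unfold mainT emitCT bodyIT bodyJT
  simp only [emitT_eq]
  have e1 : b * (7 + (50 + (9 * (28 * M + 60) + 30) + 6)) ≤
      (2 * Y) * (7 + (50 + (9 * (28 * (2 * Y) + 60) + 30) + 6)) :=
    Nat.mul_le_mul (by omega) (by omega)
  have e2 : A * (7 + (100 + (8 * (28 * M + 60) + (28 * 1 + 60) + 4 +
      (3 + (b * (7 + (50 + (9 * (28 * M + 60) + 30) + 6)) + 6))) + 6)) ≤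
      Y * (7 + (100 + (8 * (28 * (2 * Y) + 60) + (28 * 1 + 60) + 4 +
      (3 + ((2 * Y) * (7 + (50 + (9 * (28 * (2 * Y) + 60) + 30) + 6)) + 6))) + 6)) :=
    Nat.mul_le_mul hA (by omega)
  have e3 : Y * (7 + (100 + (8 * (28 * (2 * Y) + 60) + (28 * 1 + 60) + 4 +
      (3 + ((2 * Y) * (7 + (50 + (9 * (28 * (2 * Y) + 60) + 30) + 6)) + 6))) + 6)) =
      1008 * (Y * Y * Y) + 1714 * (Y * Y) + 694 * Y := by ring
  omega

theorem W_bounds {Y : ℕ} (hY : 25 ≤ Y) (hb : n + 4 + tN k + 1 ≤ 2 * Y)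
    (hM : k + 4 + tN k + 2 ≤ 2 * Y) (hA : nV n + 1 ≤ Y) (hn : n * n + 5 ≤ Y)
    (h1 : Y ≤ Y * Y) (h2 : Y * Y ≤ Y * Y * Y) :
    n * n + 5 + 2 * mainN n k ≤ 5000 * (Y * Y * Y) ∧
    2 + 4 * ((nV n + 1) * (n + 4 + tN k + 1)) + 4 * (n + 4 + tN k + 1) + 3 ≤
      5000 * (Y * Y * Y) ∧
    (n + 4 + tN k) * ((n + 4 + tN k) * (n + 4 + tN k)) ≤ 5000 * (Y * Y * Y) := by
  refine ⟨?_, ?_, ?_⟩
  · have := mainN_bound (n := n) (k := k) hY hb hM hA h1 h2
    omega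
  · have e1 : (nV n + 1) * (n + 4 + tN k + 1) ≤ Y * (2 * Y) := Nat.mul_le_mul hA hb
    have e2 : Y * (2 * Y) = 2 * (Y * Y) := by ring
    omega
  · have e1 : (n + 4 + tN k) * ((n + 4 + tN k) * (n + 4 + tN k)) ≤ (2 * Y) * ((2 * Y) * (2 * Y)) :=
      Nat.mul_le_mul (by omega) (Nat.mul_le_mul (by omega) (by omega))
    have e2 : (2 * Y) * ((2 * Y) * (2 * Y)) = 8 * (Y * Y * Y) := by ring
    omega

end bounds

theorem pow_bound (n C : ℕ) (hC : 5000 * 5 ^ 6 ≤ C) :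
    5000 * ((n + 5) * (n + 5) * ((n + 5) * (n + 5)) * ((n + 5) * (n + 5))) ≤ C * (n + 1) ^ C := by
  have h1 : n + 5 ≤ 5 * (n + 1) := by omega
  have h2 : (n + 5) * (n + 5) * ((n + 5) * (n + 5)) * ((n + 5) * (n + 5)) = (n + 5) ^ 6 := by ring
  rw [h2]
  calc 5000 * (n + 5) ^ 6 ≤ 5000 * (5 * (n + 1)) ^ 6 := by gcongr
    _ = 5000 * 5 ^ 6 * (n + 1) ^ 6 := by rw [mul_pow]; ring
    _ ≤ C * (n + 1) ^ C := Nat.mul_le_mul hC (Nat.pow_le_pow_right (by omega) (by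
        have : 6 ≤ 5000 * 5 ^ 6 := by norm_num
        omega))

/-! ### the graph side -/

theorem hne_cut {a b M : ℕ} (inc : Fin (a + 1) → Fin b → Bool) (act : Fin (a + 1) → Bool) :
    ∃ F : Finset (Et a b M), ¬ RW (endsE inc act) F := by
  classical
  refine ⟨Finset.univ, ?_⟩
  rintro ⟨I, hdis, hind, hcard⟩
  have hI : I = ∅ := by
    apply Finset.eq_empty_of_forall_notMem
    intro x hx
    exact (Finset.disjoint_left.mp hdis hx) (Finset.mem_univ _)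
  rw [hI, card_Vt] at hcard
  simp at hcard
  omega

theorem clique_min {n k : ℕ} (G : SimpleGraph (Fin n)) :
    (∃ S, G.IsNClique (min k (n + 1)) S) ↔ ∃ S, G.IsNClique k S := by
  by_cases h : k ≤ n + 1
  · rw [min_eq_left h]
  · rw [min_eq_right (by omega)]
    constructor
    · rintro ⟨S, hS⟩
      have h1 := hS.card_eq
      have h2 := Finset.card_le_univ S
      rw [Fintype.card_fin] at h2
      omega
    · rintro ⟨S, hS⟩
      have h1 := hS.card_eq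
      have h2 := Finset.card_le_univ S
      rw [Fintype.card_fin] at h2
      omega

theorem graph_side {n k : ℕ} (G : SimpleGraph (Fin n)) :
    (gadget (a := nV n) (b := n + 4 + tN k) (incF G k) (actF G) (k + 4 + tN k + 2)).Rigid ∧
    ((∃ S, G.IsNClique k S) ↔
      (gadget (a := nV n) (b := n + 4 + tN k) (incF G k) (actF G) (k + 4 + tN k + 2)).cut ≤
        k + 4 + tN k + 1) := by
  classical
  set H := gadget (a := nV n) (b := n + 4 + tN k) (incF G k) (actF G) (k + 4 + tN k + 2) with hH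
  have hends := gadget_ends (a := nV n) (b := n + 4 + tN k) (M := k + 4 + tN k + 2) (incF G k)
    (actF G)
  constructor
  · have h := rigidWithout_iff (endsE (incF G k) (actF G)) H eV (eE (nV n) (n + 4 + tN k) (k + 4 + tN k + 2)) hends ∅
    rw [Finset.map_empty] at h
    show H.RigidWithout ∅
    rw [h]
    refine rigid_of_hall _ _ (by simp) ?_
    intro A hA _
    have : A = ∅ := by
      have hl : lightDel (∅ : Finset (Et (nV n) (n + 4 + tN k) (k + 4 + tN k + 2))) = ∅ := by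
        simp [lightDel]
      rw [hl] at hA
      exact Finset.subset_empty.mp hA
    rw [this]
    simp
  · rw [cut_le_iff (endsE (incF G k) (actF G)) H eV (eE (nV n) (n + 4 + tN k) (k + 4 + tN k + 2)) hends _
      (hne_cut (incF G k) (actF G)), exists_cut_iff (incF G k) (actF G) (k + 4 + tN k + 1)
      (by omega), violator_iff, join_iff]

/-! ### the reduction -/

theorem code_mem {N m c : ℕ} {L : List (ℕ × ℕ)} {mem : ℕ → ℕ} {L0 : ℕ} (h0 : mem L0 = c)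
    (h1 : mem (L0 + 1) = N) (h2 : mem (L0 + 2) = m)
    (h3 : ∀ q (h : q < L.length), mem (L0 + 3 + 2 * q) = (L[q]).1 ∧
      mem (L0 + 3 + 2 * q + 1) = (L[q]).2) (i : ℕ)
    (hi : i < (c :: N :: m :: L.flatMap fun p => [p.1, p.2]).length) :
    mem (L0 + i) = (c :: N :: m :: L.flatMap fun p => [p.1, p.2])[i] := by
  rw [← List.getD_eq_getElem _ 0 hi]
  match i, hi with
  | 0, _ => simpa using h0
  | 1, _ => simpa using h1
  | 2, _ => simpa using h2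
  | i + 3, hi =>
    rw [List.getD_cons_succ, List.getD_cons_succ, List.getD_cons_succ]
    simp only [List.length_cons] at hi
    rw [flatMap_const_length 2 _ L (fun _ _ => rfl)] at hi
    have hq : i / 2 < L.length := by omega
    have h4 : i = i / 2 * 2 + i % 2 := by omega
    have h5 := getD_flatMap_const 2 0 (fun p : ℕ × ℕ => [p.1, p.2]) L (fun _ _ => rfl) (i / 2) hq
      (i % 2) (Nat.mod_lt _ (by omega))
    rw [← h4] at h5
    rw [h5]
    have h6 := h3 (i / 2) hq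
    rcases Nat.mod_two_eq_zero_or_one i with h7 | h7
    · rw [h7, show L0 + (i + 3) = L0 + 3 + 2 * (i / 2) by omega, h6.1]
      rfl
    · rw [h7, show L0 + (i + 3) = L0 + 3 + 2 * (i / 2) + 1 by omega, h6.2]
      rfl

theorem reduction : ∃ (P : List Instr) (C : ℕ), ∀ (n k : ℕ) (G : SimpleGraph (Fin n)),
    ∃ (H : MGraph) (c : ℕ) (s : Config),
      HaltsWithin P (initial (cliqueCode n k G)) (C * (n + 1) ^ C) (C * (n + k + 1) ^ C) s ∧
      (∀ (i : ℕ) (h : i < (c :: H.code).length),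
        s.mem ((cliqueCode n k G).length + i) = (c :: H.code)[i]) ∧
      2 ≤ H.n ∧ H.Rigid ∧ ((∃ S, G.IsNClique k S) ↔ H.cut ≤ c) := by
  refine ⟨compC 22 0 mainC, 5000 * 5 ^ 6, fun n k G => ?_⟩
  obtain ⟨k', hk'⟩ : ∃ k', min k (n + 1) = k' := ⟨_, rfl⟩
  obtain ⟨Y, hYe, hY, hb, hM, hA, hn, h1, h2⟩ := basics (n := n) (k := k') (by omega)
  obtain ⟨w1, w2, w3⟩ := W_bounds (n := n) (k := k') hY hb hM hA hn h1 h2
  have hT := mainT_bound (n := n) (k := k') hY hb hM hA h1 h2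
  have hpow := pow_bound n (5000 * 5 ^ 6) le_rfl
  rw [← hYe] at hpow
  set C := 5000 * 5 ^ 6 with hC
  have hpow2 : C * (n + 1) ^ C ≤ C * (n + k + 1) ^ C :=
    Nat.mul_le_mul_left _ (Nat.pow_le_pow_left (by omega) _)
  have hnk : n + k + 1 ≤ C * (n + k + 1) ^ C := by
    have a1 : (n + k + 1) ^ 1 ≤ (n + k + 1) ^ C := Nat.pow_le_pow_right (by omega) (by
      rw [hC]; norm_num)
    have a2 : 1 * (n + k + 1) ^ C ≤ C * (n + k + 1) ^ C := Nat.mul_le_mul_right _ (by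
      rw [hC]; norm_num)
    rw [pow_one] at a1
    omega
  have hrun := mainC_run (W := C * (n + k + 1) ^ C) G hk' (by rw [← hYe]; omega) (by omega)
    (by omega) (by omega)
  obtain ⟨s', σ', hh, -, hmem, hq0, hq1, hq2, hq3⟩ := hrun.halts (K := 22) (by omega) mainC_vars
    (by rw [cliqueCode_length]; omega) (fun a ha => (cliqueCode_le n k G a ha).trans hnk)
  obtain ⟨hR, hcut⟩ := graph_side (k := k') G
  refine ⟨gadget (a := nV n) (b := n + 4 + tN k') (incF G k') (actF G) (k' + 4 + tN k' + 2),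
    k' + 4 + tN k' + 1, s', ?_, ?_, ?_, hR, ?_⟩
  · obtain ⟨t, ht, h⟩ := hh
    exact ⟨t, ht.trans (hT.trans hpow), h⟩
  · have hcode := gadget_code (a := nV n) (b := n + 4 + tN k') (M := k' + 4 + tN k' + 2)
      (incF G k') (actF G)
    have hpairs : pairsL (a := nV n) (b := n + 4 + tN k') (incF G k') (actF G)
        (k' + 4 + tN k' + 2) = allL (nV n) (n + 4 + tN k') (k' + 4 + tN k' + 2) (actN G)
        (incN G) := pairsL_eq _ _ _ _ _
    rw [hpairs] at hcode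
    rw [hcode, cliqueCode_length, hmem]
    have hlen := allL_length (nV n) (n + 4 + tN k') (k' + 4 + tN k' + 2) (actN G) (incN G)
    exact code_mem hq0 hq1 (hq2.trans hlen.symm) hq3
  · show 2 ≤ 2 + 4 * ((nV n + 1) * (n + 4 + tN k' + 1))
    omega
  · rw [← hcut, ← hk', clique_min]

end Pool.Agent.Lib.MP_e057e5_lc
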