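import Pool.Agent.Lib.MP_e057e5_lc.Rigid

namespace Pool.Agent.Lib.MP_e057e5_lc

/-- inner vertices -/
abbrev Wt (a b : ℕ) := Fin (a + 1) ⊕ (Fin (a + 1) × Fin b)
/-- all vertices -/
abbrev Vt (a b : ℕ) := Wt a b ⊕ (Bool ⊕ (Wt a b × Fin 3))
/-- classes of non-base edges -/
abbrev Cls (a b : ℕ) := (Fin (a + 2) × Fin b) ⊕ ((Fin (a + 1) × Fin b) ⊕ (Fin (a + 1) × Fin 3))

instance (a b : ℕ) : DecidableEq (Wt a b) := inferInstance
instance (a b : ℕ) : DecidableEq (Vt a b) := inferInstance

variable {a b : ℕ}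

def xv (i : Fin (a + 1)) : Vt a b := .inl (.inl i)
def cv (i : Fin (a + 1)) (j : Fin b) : Vt a b := .inl (.inr (i, j))
def hb (β : Bool) : Vt a b := .inr (.inl β)
def bs (w : Wt a b) (s : Fin 3) : Vt a b := .inr (.inr (w, s))

def pathPr (p : Fin (a + 2)) (j : Fin b) : Vt a b × Vt a b :=
  if _h0 : p.1 = 0 then (cv 0 j, bs (.inr (0, j)) 0)
  else if hl : p.1 = a + 1 then (cv (Fin.last a) j, bs (.inr (Fin.last a, j)) 1)
  else (cv ⟨p.1 - 1, by omega⟩ j, cv ⟨p.1, by omega⟩ j)

def slotPr (inc : Fin (a + 1) → Fin b → Bool) (i : Fin (a + 1)) (j : Fin b) : Vt a b × Vt a b :=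
  if inc i j then (xv i, cv i j) else (cv i j, bs (.inr (i, j)) 2)

def barPr (i : Fin (a + 1)) (s : Fin 3) : Vt a b × Vt a b := (xv i, bs (.inl i) s)

def pr (inc : Fin (a + 1) → Fin b → Bool) : Cls a b → Vt a b × Vt a b
  | .inl (p, j) => pathPr p j
  | .inr (.inl (i, j)) => slotPr inc i j
  | .inr (.inr (i, s)) => barPr i s

variable (inc : Fin (a + 1) → Fin b → Bool)

theorem pr_injective : Function.Injective (pr inc) := by
  rintro (⟨p, j⟩ | ⟨i, j⟩ | ⟨i, s⟩) (⟨p', j'⟩ | ⟨i', j'⟩ | ⟨i', s'⟩) h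
  · simp only [pr, pathPr] at h
    split_ifs at h with h1 h2 h3 h4 h5 h6 h7 h8 <;>
      simp [cv, bs, Fin.ext_iff] at h ⊢ <;> omega
  · exfalso
    simp only [pr, pathPr, slotPr] at h
    split_ifs at h <;> simp [cv, bs, xv] at h
  · exfalso
    simp only [pr, pathPr, barPr] at h
    split_ifs at h <;> simp [cv, bs, xv] at h
  · exfalso
    simp only [pr, pathPr, slotPr] at h
    split_ifs at h <;> simp [cv, bs, xv] at h
  · simp only [pr, slotPr] at h
    split_ifs at h <;> simp [cv, bs, xv] at h ⊢ <;> tauto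
  · exfalso
    simp only [pr, slotPr, barPr] at h
    split_ifs at h <;> simp [cv, bs, xv] at h
  · exfalso
    simp only [pr, pathPr, barPr] at h
    split_ifs at h <;> simp [cv, bs, xv] at h
  · exfalso
    simp only [pr, slotPr, barPr] at h
    split_ifs at h <;> simp [cv, bs, xv] at h
  · simp only [pr, barPr] at h
    simp [bs, xv] at h ⊢
    tauto

def touch (κ : Cls a b) (w : Wt a b) : Prop := (pr inc κ).1 = .inl w ∨ (pr inc κ).2 = .inl w

instance : DecidableRel (touch inc) := fun _ _ => instDecidableOr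

theorem touch_path_c (p : Fin (a + 2)) (j j' : Fin b) (i : Fin (a + 1)) :
    touch inc (.inl (p, j)) (.inr (i, j')) ↔ j' = j ∧ (p = i.castSucc ∨ p = i.succ) := by
  simp only [touch, pr, pathPr]
  split_ifs with h1 h2
  · simp [cv, bs, Fin.ext_iff]
    omega
  · simp [cv, bs, Fin.ext_iff]
    omega
  · simp [cv, Fin.ext_iff]
    omega

theorem touch_path_x (p : Fin (a + 2)) (j : Fin b) (i : Fin (a + 1)) :
    ¬ touch inc (.inl (p, j)) (.inl i) := by
  simp only [touch, pr, pathPr]
  split_ifs with h1 h2 <;> simp [cv, bs]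

theorem touch_slot_c (i i' : Fin (a + 1)) (j j' : Fin b) :
    touch inc (.inr (.inl (i, j))) (.inr (i', j')) ↔ i' = i ∧ j' = j := by
  simp only [touch, pr, slotPr]
  split_ifs with h1 <;> (simp [cv, bs, xv]; tauto)

theorem touch_slot_x (i i' : Fin (a + 1)) (j : Fin b) :
    touch inc (.inr (.inl (i, j))) (.inl i') ↔ i' = i ∧ inc i j = true := by
  simp only [touch, pr, slotPr]
  split_ifs with h1 <;> simp [cv, bs, xv, h1] <;> tauto

theorem touch_bar_x (i i' : Fin (a + 1)) (s : Fin 3) :
    touch inc (.inr (.inr (i, s))) (.inl i') ↔ i' = i := by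
  simp only [touch, pr, barPr]
  simp [bs, xv]
  tauto

theorem touch_bar_c (i i' : Fin (a + 1)) (s : Fin 3) (j : Fin b) :
    ¬ touch inc (.inr (.inr (i, s))) (.inr (i', j)) := by
  simp only [touch, pr, barPr]
  simp [bs, xv]

/-- which classes survive when the light bars in `D` are deleted -/
def alive (act : Fin (a + 1) → Bool) (D : Finset (Fin (a + 1))) : Cls a b → Prop
  | .inl _ => True
  | .inr (.inl _) => True
  | .inr (.inr (i, s)) => s = 0 ∨ (s = 1 ∧ i ∉ D) ∨ (s = 2 ∧ act i = false)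

instance (act : Fin (a + 1) → Bool) (D : Finset (Fin (a + 1))) :
    DecidablePred (alive (a := a) (b := b) act D)
  | .inl _ => .isTrue trivial
  | .inr (.inl _) => .isTrue trivial
  | .inr (.inr (i, s)) =>
    inferInstanceAs (Decidable (s = 0 ∨ (s = 1 ∧ i ∉ D) ∨ (s = 2 ∧ act i = false)))

/-- the constraints met by a set of variables -/
def nb (A : Finset (Fin (a + 1))) : Finset (Fin b) := Finset.univ.filter fun j => ∃ i ∈ A, inc i j

theorem path_part (Uc : Finset (Fin (a + 1) × Fin b)) (K : Finset (Fin (a + 2) × Fin b))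
    (hK : ∀ q ∈ Uc, (q.1.castSucc, q.2) ∈ K ∧ (q.1.succ, q.2) ∈ K) :
    Uc.card + (Uc.image Prod.snd).card ≤ K.card := by
  classical
  have hmax : ∀ j ∈ Uc.image Prod.snd, ∃ i, (i, j) ∈ Uc ∧ ∀ i', (i', j) ∈ Uc → i' ≤ i := by
    intro j hj
    obtain ⟨q, hq, rfl⟩ := Finset.mem_image.mp hj
    have hne : ((Uc.filter fun r => r.2 = q.2).image Prod.fst).Nonempty :=
      ⟨q.1, Finset.mem_image.mpr ⟨q, by simp [hq], rfl⟩⟩
    refine ⟨((Uc.filter fun r => r.2 = q.2).image Prod.fst).max' hne, ?_, ?_⟩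
    · have := Finset.max'_mem _ hne
      obtain ⟨r, hr, hr'⟩ := Finset.mem_image.mp this
      rw [Finset.mem_filter] at hr
      rw [← hr', ← hr.2]
      exact hr.1
    · intro i' hi'
      exact Finset.le_max' ((Uc.filter fun r => r.2 = q.2).image Prod.fst) i'
        (Finset.mem_image.mpr ⟨(i', q.2), Finset.mem_filter.mpr ⟨hi', rfl⟩, rfl⟩)
  rcases isEmpty_or_nonempty (Fin (a + 1)) with he | hne
  · exact (he.false (0 : Fin (a + 1))).elim
  choose! g hg using hmax
  have hdisj : Disjoint (Uc.image fun q => (q.1.castSucc, q.2))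
      ((Uc.image Prod.snd).image fun j => ((g j).succ, j)) := by
    rw [Finset.disjoint_left]
    intro x hx hx'
    obtain ⟨q, hq, rfl⟩ := Finset.mem_image.mp hx
    obtain ⟨j, hj, h⟩ := Finset.mem_image.mp hx'
    simp only [Prod.mk.injEq] at h
    obtain ⟨h1, h2⟩ := h
    subst h2
    have := (hg _ hj).2 q.1 hq
    have h3 : (g q.2).succ.1 = q.1.castSucc.1 := by rw [h1]
    simp at h3
    have h4 : q.1.1 ≤ (g q.2).1 := this
    omega
  have hsub : (Uc.image fun q => (q.1.castSucc, q.2)) ∪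
      ((Uc.image Prod.snd).image fun j => ((g j).succ, j)) ⊆ K := by
    intro x hx
    rcases Finset.mem_union.mp hx with hx | hx
    · obtain ⟨q, hq, rfl⟩ := Finset.mem_image.mp hx
      exact (hK q hq).1
    · obtain ⟨j, hj, rfl⟩ := Finset.mem_image.mp hx
      exact (hK _ (hg j hj).1).2
  have h1 := Finset.card_le_card hsub
  rw [Finset.card_union_of_disjoint hdisj, Finset.card_image_of_injective, 
    Finset.card_image_of_injective _ (fun j j' h => by simpa using (Prod.mk.inj h).2)] at h1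
  · exact h1
  · intro q q' h
    simp only [Prod.mk.injEq, Fin.castSucc_inj] at h
    exact Prod.ext h.1 h.2

theorem hall_count (act : Fin (a + 1) → Bool) (D : Finset (Fin (a + 1)))
    (hD : ∀ A ⊆ D, (∀ i ∈ A, act i = true) → A.card ≤ (nb inc A).card) (U : Finset (Wt a b)) :
    2 * U.card ≤ (Finset.univ.filter fun κ : Cls a b =>
      alive act D κ ∧ ∃ w ∈ U, touch inc κ w).card := by
  classical
  set K := Finset.univ.filter fun κ : Cls a b => alive act D κ ∧ ∃ w ∈ U, touch inc κ w with hK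
  set A := U.toLeft with hA
  set Uc := U.toRight with hUc
  have hUcard : U.card = A.card + Uc.card := (Finset.card_toLeft_add_card_toRight).symm
  have hKcard : K.card = K.toLeft.card + (K.toRight.toLeft.card + K.toRight.toRight.card) := by
    rw [Finset.card_toLeft_add_card_toRight, Finset.card_toLeft_add_card_toRight]
  have h1 : Uc.card + (Uc.image Prod.snd).card ≤ K.toLeft.card := by
    apply path_part
    rintro ⟨i, j⟩ hq
    rw [hUc, Finset.mem_toRight] at hq
    simp only [Finset.mem_toLeft, hK, Finset.mem_filter, Finset.mem_univ, true_and]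
    exact ⟨⟨trivial, _, hq, by rw [touch_path_c]; simp⟩,
      ⟨trivial, _, hq, by rw [touch_path_c]; simp⟩⟩
  -- slots
  have h2 : Uc.card + (nb inc A \ Uc.image Prod.snd).card ≤ K.toRight.toLeft.card := by
    have hch : ∀ j ∈ nb inc A \ Uc.image Prod.snd, ∃ i ∈ A, inc i j = true := by
      intro j hj
      rw [Finset.mem_sdiff, nb, Finset.mem_filter] at hj
      exact hj.1.2
    have : Nonempty (Fin (a + 1)) := ⟨0⟩
    choose! g hg using hch
    have hdisj : Disjoint Uc ((nb inc A \ Uc.image Prod.snd).image fun j => (g j, j)) := by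
      rw [Finset.disjoint_left]
      intro x hx hx'
      obtain ⟨j, hj, rfl⟩ := Finset.mem_image.mp hx'
      rw [Finset.mem_sdiff] at hj
      exact hj.2 (Finset.mem_image.mpr ⟨_, hx, rfl⟩)
    have hsub : Uc ∪ ((nb inc A \ Uc.image Prod.snd).image fun j => (g j, j)) ⊆
        K.toRight.toLeft := by
      intro x hx
      rcases Finset.mem_union.mp hx with hx | hx
      · rw [hUc, Finset.mem_toRight] at hx
        simp only [Finset.mem_toLeft, Finset.mem_toRight, hK, Finset.mem_filter, Finset.mem_univ,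
          true_and]
        exact ⟨trivial, _, hx, by rw [touch_slot_c]; simp⟩
      · obtain ⟨j, hj, rfl⟩ := Finset.mem_image.mp hx
        have hgj := hg j hj
        rw [hA, Finset.mem_toLeft] at hgj
        simp only [Finset.mem_toLeft, Finset.mem_toRight, hK, Finset.mem_filter, Finset.mem_univ,
          true_and]
        exact ⟨trivial, _, hgj.1, by rw [touch_slot_x]; exact ⟨rfl, hgj.2⟩⟩
    have h3 := Finset.card_le_card hsub
    rw [Finset.card_union_of_disjoint hdisj,
      Finset.card_image_of_injective _ (fun j j' h => by simpa using (Prod.mk.inj h).2)] at h3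
    exact h3
  -- bars
  have h3 : A.card + ((A.filter fun i => act i = true) \ D).card +
      (A.filter fun i => act i = false).card ≤ K.toRight.toRight.card := by
    have hsub : (A.image fun i => (i, (0 : Fin 3))) ∪
        (((A.filter fun i => act i = true) \ D).image fun i => (i, (1 : Fin 3))) ∪
        ((A.filter fun i => act i = false).image fun i => (i, (2 : Fin 3))) ⊆
        K.toRight.toRight := by
      intro x hx
      simp only [Finset.mem_toRight, hK, Finset.mem_filter, Finset.mem_univ, true_and]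
      rcases Finset.mem_union.mp hx with hx | hx
      · rcases Finset.mem_union.mp hx with hx | hx
        · obtain ⟨i, hi, rfl⟩ := Finset.mem_image.mp hx
          rw [hA, Finset.mem_toLeft] at hi
          exact ⟨Or.inl rfl, _, hi, by rw [touch_bar_x]⟩
        · obtain ⟨i, hi, rfl⟩ := Finset.mem_image.mp hx
          rw [Finset.mem_sdiff, Finset.mem_filter, hA, Finset.mem_toLeft] at hi
          exact ⟨Or.inr (Or.inl ⟨rfl, hi.2⟩), _, hi.1.1, by rw [touch_bar_x]⟩
      · obtain ⟨i, hi, rfl⟩ := Finset.mem_image.mp hx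
        rw [Finset.mem_filter, hA, Finset.mem_toLeft] at hi
        exact ⟨Or.inr (Or.inr ⟨rfl, hi.2⟩), _, hi.1, by rw [touch_bar_x]⟩
    have h4 := Finset.card_le_card hsub
    have inj : ∀ s : Fin 3, Function.Injective fun i : Fin (a + 1) => (i, s) :=
      fun s i i' h => (Prod.mk.inj h).1
    rw [Finset.card_union_of_disjoint, Finset.card_union_of_disjoint,
      Finset.card_image_of_injective _ (inj 0), Finset.card_image_of_injective _ (inj 1),
      Finset.card_image_of_injective _ (inj 2)] at h4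
    · exact h4
    · rw [Finset.disjoint_left]
      intro x hx hx'
      obtain ⟨i, _, rfl⟩ := Finset.mem_image.mp hx
      obtain ⟨i', _, h⟩ := Finset.mem_image.mp hx'
      exact absurd (Prod.mk.inj h).2 (by decide)
    · rw [Finset.disjoint_left]
      intro x hx hx'
      obtain ⟨i', _, rfl⟩ := Finset.mem_image.mp hx'
      rcases Finset.mem_union.mp hx with hx | hx
      · obtain ⟨i, _, h⟩ := Finset.mem_image.mp hx
        exact absurd (Prod.mk.inj h).2 (by decide)
      · obtain ⟨i, _, h⟩ := Finset.mem_image.mp hx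
        exact absurd (Prod.mk.inj h).2 (by decide)
  -- the hypothesis
  have h4 : ((A.filter fun i => act i = true) ∩ D).card ≤ (nb inc A).card := by
    refine (hD _ Finset.inter_subset_right ?_).trans (Finset.card_le_card ?_)
    · intro i hi
      rw [Finset.mem_inter, Finset.mem_filter] at hi
      exact hi.1.2
    · intro j hj
      rw [nb, Finset.mem_filter] at hj ⊢
      obtain ⟨_, i, hi, hij⟩ := hj
      rw [Finset.mem_inter, Finset.mem_filter] at hi
      exact ⟨Finset.mem_univ _, i, hi.1.1, hij⟩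
  have h5 : (nb inc A).card ≤ (nb inc A \ Uc.image Prod.snd).card + (Uc.image Prod.snd).card := by
    rw [← Finset.card_sdiff_add_card_inter (nb inc A) (Uc.image Prod.snd)]
    exact Nat.add_le_add_left (Finset.card_le_card Finset.inter_subset_right) _
  have h6 := Finset.card_sdiff_add_card_inter (A.filter fun i => act i = true) D
  have h7 : A.card = (A.filter fun i => act i = true).card +
      (A.filter fun i => act i = false).card := by
    have := Finset.card_filter_add_card_filter_not (s := A) (fun i => act i = true)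
    rw [← this]
    congr 2
    ext i
    simp
  rw [hKcard, hUcard]
  omega

/-- Hall's theorem: every inner vertex gets two private surviving classes. -/
theorem hall (act : Fin (a + 1) → Bool) (D : Finset (Fin (a + 1)))
    (hD : ∀ A ⊆ D, (∀ i ∈ A, act i = true) → A.card ≤ (nb inc A).card) :
    ∃ f : Wt a b × Bool → Cls a b, Function.Injective f ∧
      ∀ x, alive act D (f x) ∧ touch inc (f x) x.1 := by
  classical
  have hH := (Finset.all_card_le_biUnion_card_iff_exists_injective (ι := Wt a b × Bool)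
    (fun x => Finset.univ.filter fun κ : Cls a b => alive act D κ ∧ touch inc κ x.1)).mp ?_
  · obtain ⟨f, hf, h⟩ := hH
    refine ⟨f, hf, fun x => ?_⟩
    have := h x
    rw [Finset.mem_filter] at this
    exact this.2
  · intro s
    have h1 : s.card ≤ 2 * (s.image Prod.fst).card := by
      have : s ⊆ (s.image Prod.fst) ×ˢ (Finset.univ : Finset Bool) := by
        intro x hx
        rw [Finset.mem_product]
        exact ⟨Finset.mem_image_of_mem _ hx, Finset.mem_univ _⟩
      have h2 := Finset.card_le_card this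
      rw [Finset.card_product] at h2
      simp only [Finset.card_univ, Fintype.card_bool] at h2
      omega
    refine h1.trans ((hall_count inc act D hD _).trans (Finset.card_le_card ?_))
    intro κ hκ
    rw [Finset.mem_filter] at hκ
    obtain ⟨_, hal, w, hw, ht⟩ := hκ
    obtain ⟨x, hx, rfl⟩ := Finset.mem_image.mp hw
    rw [Finset.mem_biUnion]
    exact ⟨x, hx, by rw [Finset.mem_filter]; exact ⟨Finset.mem_univ _, hal, ht⟩⟩

/-- pairs of the base body -/
def baseT (a b : ℕ) : Finset (Vt a b × Vt a b) :=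
  insert (hb false, hb true)
    ((Finset.univ : Finset (Bool × (Wt a b × Fin 3))).image fun q => (hb q.1, bs q.2.1 q.2.2))

theorem pr_fst (κ : Cls a b) : ∃ w, (pr inc κ).1 = .inl w := by
  rcases κ with ⟨p, j⟩ | ⟨i, j⟩ | ⟨i, s⟩
  · simp only [pr, pathPr]
    split_ifs <;> exact ⟨_, rfl⟩
  · simp only [pr, slotPr]
    split_ifs <;> exact ⟨_, rfl⟩
  · exact ⟨_, rfl⟩

theorem pr_snd_base (κ : Cls a b) (w : Wt a b) (s : Fin 3) (h : (pr inc κ).2 = bs w s) :
    pr inc κ = (.inl w, bs w s) := by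
  rcases κ with ⟨p, j⟩ | ⟨i, j⟩ | ⟨i, s'⟩
  · simp only [pr, pathPr] at h ⊢
    split_ifs at h ⊢ <;> simp [cv, bs] at h ⊢ <;> (obtain ⟨rfl, rfl⟩ := h; simp)
  · simp only [pr, slotPr] at h ⊢
    split_ifs at h ⊢ <;> simp [cv, bs] at h ⊢
    obtain ⟨rfl, rfl⟩ := h; simp
  · simp only [pr, barPr] at h ⊢
    simp [bs, xv] at h ⊢
    obtain ⟨rfl, rfl⟩ := h; simp

theorem pr_snd_hub (κ : Cls a b) (β : Bool) : (pr inc κ).2 ≠ hb β := by
  rcases κ with ⟨p, j⟩ | ⟨i, j⟩ | ⟨i, s'⟩
  · simp only [pr, pathPr]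
    split_ifs <;> simp [cv, bs, hb]
  · simp only [pr, slotPr]
    split_ifs <;> simp [cv, bs, hb]
  · simp [pr, barPr, bs, hb]

/-- shape of the pairs inside the inner part -/
theorem pr_snd_inner (κ : Cls a b) (w : Wt a b) (h : (pr inc κ).2 = .inl w) :
    ∃ q : Fin (a + 1) × Fin b, w = .inr q ∧
      ((∃ h0 : q.1.1 ≠ 0, pr inc κ = (cv ⟨q.1.1 - 1, by omega⟩ q.2, cv q.1 q.2)) ∨
        pr inc κ = (xv q.1, cv q.1 q.2)) := by
  rcases κ with ⟨p, j⟩ | ⟨i, j⟩ | ⟨i, s'⟩
  · simp only [pr, pathPr] at h ⊢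
    split_ifs at h ⊢ with h1 h2
    · simp [bs] at h
    · simp [bs] at h
    · simp only [cv, Sum.inl.injEq] at h
      refine ⟨(⟨p.1, by omega⟩, j), h.symm, Or.inl ⟨h1, ?_⟩⟩
      rfl
  · simp only [pr, slotPr] at h ⊢
    split_ifs at h ⊢ with h1
    · simp only [cv, Sum.inl.injEq] at h
      exact ⟨(i, j), h.symm, Or.inr rfl⟩
    · simp [bs] at h
  · simp [pr, barPr, bs] at h

theorem inner_sparse (T' : Finset (Vt a b × Vt a b)) (X : Finset (Wt a b))
    (hT : ∀ p ∈ T', ∃ κ, p = pr inc κ) (h1 : ∀ p ∈ T', ∃ w ∈ X, p.1 = .inl w)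
    (h2 : ∀ p ∈ T', ∃ w ∈ X, p.2 = .inl w) (hne : T'.Nonempty) :
    T'.card + 3 ≤ 2 * X.card := by
  classical
  set Xx := X.toLeft with hXx
  set Xc := X.toRight with hXc
  have hX : X.card = Xx.card + Xc.card := (Finset.card_toLeft_add_card_toRight).symm
  set D1 := T'.filter fun p => ∃ q, p.1 = .inl (.inr q) with hD1
  set D2 := T'.filter fun p => ¬ ∃ q, p.1 = .inl (.inr q) with hD2
  have hT'card : T'.card = D1.card + D2.card :=
    (Finset.card_filter_add_card_filter_not (s := T') _).symm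
  have shape : ∀ p ∈ T', ∃ q ∈ Xc,
      ((∃ h0 : q.1.1 ≠ 0, (⟨q.1.1 - 1, by omega⟩, q.2) ∈ Xc ∧
        p = (cv ⟨q.1.1 - 1, by omega⟩ q.2, cv q.1 q.2)) ∨
        (q.1 ∈ Xx ∧ p = (xv q.1, cv q.1 q.2))) := by
    intro p hp
    obtain ⟨κ, rfl⟩ := hT p hp
    obtain ⟨w, hw, hpw⟩ := h2 _ hp
    obtain ⟨w', hw', hpw'⟩ := h1 _ hp
    obtain ⟨q, rfl, hor⟩ := pr_snd_inner inc κ w hpw
    refine ⟨q, by rw [hXc, Finset.mem_toRight]; exact hw, ?_⟩
    rcases hor with ⟨h0, he⟩ | he
    · left
      refine ⟨h0, ?_, he⟩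
      rw [he] at hpw'
      simp only [cv, Sum.inl.injEq] at hpw'
      rw [hXc, Finset.mem_toRight, hpw']
      exact hw'
    · right
      refine ⟨?_, he⟩
      rw [he] at hpw'
      simp only [xv, Sum.inl.injEq] at hpw'
      rw [hXx, Finset.mem_toLeft, hpw']
      exact hw'
  have hXcne : Xc.Nonempty := by
    obtain ⟨p, hp⟩ := hne
    obtain ⟨q, hq, _⟩ := shape p hp
    exact ⟨q, hq⟩
  obtain ⟨q₀, hq₀, hmin⟩ := Finset.exists_min_image Xc (fun q => q.1) hXcne
  have hc1 : D1.card + 1 ≤ Xc.card := by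
    have hsub : D1 ⊆ (Xc.erase q₀).image fun q =>
        ((cv ⟨q.1.1 - 1, by omega⟩ q.2, cv q.1 q.2) : Vt a b × Vt a b) := by
      intro p hp
      rw [hD1, Finset.mem_filter] at hp
      obtain ⟨q, hq, hor⟩ := shape p hp.1
      rcases hor with ⟨h0, hq', rfl⟩ | ⟨_, rfl⟩
      · refine Finset.mem_image.mpr ⟨q, ?_, rfl⟩
        rw [Finset.mem_erase]
        refine ⟨?_, hq⟩
        rintro rfl
        have := hmin _ hq'
        have h3 : q.1.1 ≤ q.1.1 - 1 := this
        omega
      · obtain ⟨_, q', hq'⟩ := hp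
        simp [xv] at hq'
    have h3 := (Finset.card_le_card hsub).trans Finset.card_image_le
    have h4 := Finset.card_erase_add_one hq₀
    omega
  have hc2 : D2.card ≤ Xc.card := by
    have hsub : D2 ⊆ Xc.image fun q => ((xv q.1, cv q.1 q.2) : Vt a b × Vt a b) := by
      intro p hp
      rw [hD2, Finset.mem_filter] at hp
      obtain ⟨q, hq, hor⟩ := shape p hp.1
      rcases hor with ⟨h0, hq', rfl⟩ | ⟨_, rfl⟩
      · exact absurd ⟨_, rfl⟩ hp.2
      · exact Finset.mem_image.mpr ⟨q, hq, rfl⟩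
    exact (Finset.card_le_card hsub).trans Finset.card_image_le
  by_cases hXxne : Xx.Nonempty
  · have := hXxne.card_pos
    omega
  · rw [Finset.not_nonempty_iff_eq_empty] at hXxne
    have hD2e : D2 = ∅ := by
      rw [Finset.eq_empty_iff_forall_notMem]
      intro p hp
      rw [hD2, Finset.mem_filter] at hp
      obtain ⟨q, hq, hor⟩ := shape p hp.1
      rcases hor with ⟨h0, hq', rfl⟩ | ⟨hx, rfl⟩
      · exact absurd ⟨_, rfl⟩ hp.2
      · rw [hXxne] at hx; simp at hx
    rw [hD2e, Finset.card_empty] at hT'card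
    have hpos := hne.card_pos
    rw [hXxne, Finset.card_empty] at hX
    omega

end Pool.Agent.Lib.MP_e057e5_lc
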