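import Pool.Agent.Lib.MP_e057e5_lc.Gadget

namespace Pool.Agent.Lib.MP_e057e5_lc

variable {a b : ℕ} (inc : Fin (a + 1) → Fin b → Bool)

theorem card_Vt : Fintype.card (Vt a b) = 4 * Fintype.card (Wt a b) + 2 := by
  simp only [Fintype.card_sum, Fintype.card_prod, Fintype.card_fin, Fintype.card_bool]
  ring

theorem baseT_card : (baseT a b).card = 1 + 6 * Fintype.card (Wt a b) := by
  unfold baseT
  rw [Finset.card_insert_of_notMem, Finset.card_image_of_injective]
  · simp only [Finset.card_univ, Fintype.card_prod, Fintype.card_bool, Fintype.card_fin]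
    ring
  · rintro ⟨β, w, s⟩ ⟨β', w', s'⟩ h
    simp [hb, bs] at h
    obtain ⟨rfl, rfl, rfl⟩ := h
    rfl
  · intro h
    obtain ⟨q, _, hq⟩ := Finset.mem_image.mp h
    simp [hb, bs] at hq

theorem baseT_shape {p : Vt a b × Vt a b} (hp : p ∈ baseT a b) :
    (∃ β, p.1 = hb β) ∧ (p = (hb false, hb true) ∨ ∃ β w s, p = (hb β, bs w s)) := by
  unfold baseT at hp
  rcases Finset.mem_insert.mp hp with rfl | hp
  · exact ⟨⟨_, rfl⟩, Or.inl rfl⟩
  · obtain ⟨q, _, rfl⟩ := Finset.mem_image.mp hp
    exact ⟨⟨_, rfl⟩, Or.inr ⟨_, _, _, rfl⟩⟩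

/-- base pairs spanned by a set of at least two base vertices -/
theorem base_sparse (T' : Finset (Vt a b × Vt a b)) (X : Finset (Bool ⊕ (Wt a b × Fin 3)))
    (hT : T' ⊆ baseT a b) (h1 : ∀ p ∈ T', ∃ w ∈ X, p.1 = .inr w)
    (h2 : ∀ p ∈ T', ∃ w ∈ X, p.2 = .inr w) (hX : 2 ≤ X.card) : T'.card + 3 ≤ 2 * X.card := by
  classical
  set H := X.toLeft with hH
  set P := X.toRight with hP
  have hXc : X.card = H.card + P.card := (Finset.card_toLeft_add_card_toRight).symm
  have hH2 : H.card ≤ 2 := by
    have := Finset.card_le_univ H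
    simpa using this
  have hsub : T' ⊆ (if H.card = 2 then {((hb false, hb true) : Vt a b × Vt a b)} else ∅) ∪
      (H ×ˢ P).image fun q => (hb q.1, bs q.2.1 q.2.2) := by
    intro p hp
    obtain ⟨w, hw, e1⟩ := h1 p hp
    obtain ⟨w', hw', e2⟩ := h2 p hp
    rcases (baseT_shape (hT hp)).2 with rfl | ⟨β, w₀, s, rfl⟩
    · apply Finset.mem_union_left
      have hf : false ∈ H := by
        rw [hH, Finset.mem_toLeft]
        simp only [hb, Sum.inr.injEq] at e1
        rw [e1]; exact hw
      have ht : true ∈ H := by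
        rw [hH, Finset.mem_toLeft]
        simp only [hb, Sum.inr.injEq] at e2
        rw [e2]; exact hw'
      have : H.card = 2 := by
        have h3 : ({false, true} : Finset Bool) ⊆ H := by
          intro x hx
          rcases Finset.mem_insert.mp hx with rfl | hx
          · exact hf
          · rw [Finset.mem_singleton.mp hx]; exact ht
        have := Finset.card_le_card h3
        simp at this
        omega
      rw [if_pos this]
      exact Finset.mem_singleton_self _
    · apply Finset.mem_union_right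
      refine Finset.mem_image.mpr ⟨(β, (w₀, s)), ?_, rfl⟩
      rw [Finset.mem_product, hH, hP, Finset.mem_toLeft, Finset.mem_toRight]
      simp only [hb, bs, Sum.inr.injEq] at e1 e2
      rw [e1, e2]
      exact ⟨hw, hw'⟩
  have hcard := Finset.card_le_card hsub
  have h3 := Finset.card_union_le
    (if H.card = 2 then {((hb false, hb true) : Vt a b × Vt a b)} else ∅)
    ((H ×ˢ P).image fun q => ((hb q.1, bs q.2.1 q.2.2) : Vt a b × Vt a b))
  have h4 : ((H ×ˢ P).image fun q => ((hb q.1, bs q.2.1 q.2.2) : Vt a b × Vt a b)).card ≤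
      H.card * P.card := by
    rw [← Finset.card_product]; exact Finset.card_image_le
  have h5 : H.card = 0 ∨ H.card = 1 ∨ H.card = 2 := by omega
  rcases h5 with h | h | h
  · rw [h, Nat.zero_mul] at h4
    rw [h] at hXc hcard h3
    rw [if_neg (by omega)] at hcard h3
    rw [Finset.card_empty] at h3
    omega
  · rw [h, Nat.one_mul] at h4
    rw [h] at hXc hcard h3
    rw [if_neg (by omega)] at hcard h3
    rw [Finset.card_empty] at h3
    omega
  · rw [h] at h4 hXc hcard h3
    rw [if_pos rfl] at hcard h3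
    rw [Finset.card_singleton] at h3
    omega

/-- the set of `2|V|-3` pairs obtained from a Hall assignment -/
def hallT (f : Wt a b × Bool → Cls a b) : Finset (Vt a b × Vt a b) :=
  (Finset.univ.image fun x => pr inc (f x)) ∪ baseT a b

theorem hallT_card (f : Wt a b × Bool → Cls a b) (hf : Function.Injective f) :
    (hallT inc f).card + 3 = 2 * Fintype.card (Vt a b) := by
  unfold hallT
  rw [Finset.card_union_of_disjoint, Finset.card_image_of_injective, baseT_card, card_Vt]
  · simp only [Finset.card_univ, Fintype.card_prod, Fintype.card_bool]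
    ring
  · exact (pr_injective inc).comp hf
  · rw [Finset.disjoint_left]
    intro p hp hp'
    obtain ⟨x, _, rfl⟩ := Finset.mem_image.mp hp
    obtain ⟨⟨β, hβ⟩, _⟩ := baseT_shape hp'
    obtain ⟨w, hw⟩ := pr_fst inc (f x)
    rw [hw] at hβ
    simp [hb] at hβ

theorem hallT_ind (f : Wt a b × Bool → Cls a b) (ht : ∀ x, touch inc (f x) x.1) :
    Ind (id : Vt a b × Vt a b → Vt a b × Vt a b) (hallT inc f) := by
  classical
  intro T' hT' hne
  set X := vts (id : Vt a b × Vt a b → Vt a b × Vt a b) T' with hX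
  set Xi := X.toLeft with hXi
  set Xb := X.toRight with hXb
  have hXc : X.card = Xi.card + Xb.card := (Finset.card_toLeft_add_card_toRight).symm
  have m1 : ∀ p ∈ T', p.1 ∈ X := fun p hp => mem_vts.mpr ⟨p, hp, Or.inl rfl⟩
  have m2 : ∀ p ∈ T', p.2 ∈ X := fun p hp => mem_vts.mpr ⟨p, hp, Or.inr rfl⟩
  set Tf := T'.filter fun p => ∃ w, p.1 = .inl w with hTf
  set Tb := T'.filter fun p => ¬ ∃ w, p.1 = .inl w with hTb
  have hTc : T'.card = Tf.card + Tb.card :=
    (Finset.card_filter_add_card_filter_not (s := T') _).symm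
  have hTf' : ∀ p ∈ Tf, ∃ x, p = pr inc (f x) := by
    intro p hp
    rw [hTf, Finset.mem_filter] at hp
    rcases Finset.mem_union.mp (hT' hp.1) with h | h
    · obtain ⟨x, _, rfl⟩ := Finset.mem_image.mp h
      exact ⟨x, rfl⟩
    · obtain ⟨⟨β, hβ⟩, _⟩ := baseT_shape h
      obtain ⟨w, hw⟩ := hp.2
      rw [hw] at hβ; simp [hb] at hβ
  have hTb' : Tb ⊆ baseT a b := by
    intro p hp
    rw [hTb, Finset.mem_filter] at hp
    rcases Finset.mem_union.mp (hT' hp.1) with h | h
    · obtain ⟨x, _, rfl⟩ := Finset.mem_image.mp h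
      exact absurd (pr_fst inc (f x)) hp.2
    · exact h
  have hTbin : ∀ p ∈ Tb, (∃ w ∈ Xb, p.1 = .inr w) ∧ ∃ w ∈ Xb, p.2 = .inr w := by
    intro p hp
    have hpT : p ∈ T' := (Finset.mem_filter.mp hp).1
    have h1 := m1 p hpT
    have h2 := m2 p hpT
    rcases (baseT_shape (hTb' hp)).2 with rfl | ⟨β, w₀, s, rfl⟩
    · exact ⟨⟨_, by rw [hXb, Finset.mem_toRight]; exact h1, rfl⟩,
        ⟨_, by rw [hXb, Finset.mem_toRight]; exact h2, rfl⟩⟩
    · exact ⟨⟨_, by rw [hXb, Finset.mem_toRight]; exact h1, rfl⟩,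
        ⟨_, by rw [hXb, Finset.mem_toRight]; exact h2, rfl⟩⟩
  have hf2 : Tf.card ≤ 2 * Xi.card := by
    have hsub : Tf ⊆ (Xi ×ˢ (Finset.univ : Finset Bool)).image fun x => pr inc (f x) := by
      intro p hp
      obtain ⟨x, rfl⟩ := hTf' p hp
      refine Finset.mem_image.mpr ⟨x, ?_, rfl⟩
      rw [Finset.mem_product]
      refine ⟨?_, Finset.mem_univ _⟩
      have hpT := (Finset.mem_filter.mp hp).1
      rw [hXi, Finset.mem_toLeft]
      rcases ht x with h | h
      · rw [← h]; exact m1 _ hpT
      · rw [← h]; exact m2 _ hpT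
    have := (Finset.card_le_card hsub).trans Finset.card_image_le
    rw [Finset.card_product] at this
    simp only [Finset.card_univ, Fintype.card_bool] at this
    omega
  by_cases hb2 : 2 ≤ Xb.card
  · have := base_sparse Tb Xb hTb' (fun p hp => (hTbin p hp).1) (fun p hp => (hTbin p hp).2) hb2
    omega
  · -- no base pair
    have hTbe : Tb = ∅ := by
      rw [Finset.eq_empty_iff_forall_notMem]
      intro p hp
      obtain ⟨⟨w, hw, e1⟩, w', hw', e2⟩ := hTbin p hp
      have hww : w = w' := by
        by_contra hne'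
        exact hb2 (Finset.one_lt_card.mpr ⟨w, hw, w', hw', hne'⟩)
      subst hww
      rcases (baseT_shape (hTb' hp)).2 with rfl | ⟨β, w₀, s, rfl⟩
      · rw [← e2] at e1; simp [hb] at e1
      · rw [← e2] at e1; simp [hb, bs] at e1
    have hTall : ∀ p ∈ T', p ∈ Tf := by
      intro p hp
      rw [hTf, Finset.mem_filter]
      refine ⟨hp, ?_⟩
      by_contra hcon
      have : p ∈ Tb := by rw [hTb, Finset.mem_filter]; exact ⟨hp, hcon⟩
      rw [hTbe] at this; simp at this
    set Di := T'.filter fun p => ∃ w, p.2 = .inl w with hDi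
    set Db := T'.filter fun p => ¬ ∃ w, p.2 = .inl w with hDb
    have hDc : T'.card = Di.card + Db.card :=
      (Finset.card_filter_add_card_filter_not (s := T') _).symm
    have hDb1 : Db.card ≤ Xb.card := by
      by_cases hDbe : Db = ∅
      · rw [hDbe]; simp
      · obtain ⟨p₀, hp₀⟩ := Finset.nonempty_iff_ne_empty.mpr hDbe
        have key : ∀ p ∈ Db, ∃ w s, .inr (w, s) ∈ Xb ∧ p = (.inl w, bs w s) := by
          intro p hp
          rw [hDb, Finset.mem_filter] at hp
          obtain ⟨x, rfl⟩ := hTf' _ (hTall _ hp.1)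
          rcases h2 : (pr inc (f x)).2 with w | (β | ⟨w, s⟩)
          · exact absurd ⟨w, h2⟩ hp.2
          · exact absurd h2 (pr_snd_hub inc _ β)
          · refine ⟨w, s, ?_, pr_snd_base inc _ w s h2⟩
            rw [hXb, Finset.mem_toRight, ← h2]; exact m2 _ hp.1
        obtain ⟨w₀, s₀, hx₀, _⟩ := key p₀ hp₀
        have hsub : Db ⊆ {(.inl w₀, bs w₀ s₀)} := by
          intro p hp
          obtain ⟨w, s, hx, rfl⟩ := key p hp
          have : (Sum.inr (w, s) : Bool ⊕ (Wt a b × Fin 3)) = .inr (w₀, s₀) := by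
            by_contra hne'
            exact hb2 (Finset.one_lt_card.mpr ⟨_, hx, _, hx₀, hne'⟩)
          simp only [Sum.inr.injEq, Prod.mk.injEq] at this
          rw [this.1, this.2]
          exact Finset.mem_singleton_self _
        have h3 := Finset.card_le_card hsub
        rw [Finset.card_singleton] at h3
        have h4 : 0 < Xb.card := Finset.card_pos.mpr ⟨_, hx₀⟩
        omega
    by_cases hDie : Di.Nonempty
    · have h3 := inner_sparse inc Di Xi (fun p hp => by
          obtain ⟨x, hx⟩ := hTf' p (hTall p (Finset.mem_filter.mp hp).1)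
          exact ⟨f x, hx⟩)
        (fun p hp => by
          have hp' := (Finset.mem_filter.mp hp).1
          obtain ⟨w, hw⟩ := (Finset.mem_filter.mp (hTall p hp')).2
          refine ⟨w, ?_, hw⟩
          rw [hXi, Finset.mem_toLeft, ← hw]; exact m1 p hp')
        (fun p hp => by
          have hp' := (Finset.mem_filter.mp hp).1
          obtain ⟨w, hw⟩ := (Finset.mem_filter.mp hp).2
          refine ⟨w, ?_, hw⟩
          rw [hXi, Finset.mem_toLeft, ← hw]; exact m2 p hp') hDie
      omega
    · rw [Finset.not_nonempty_iff_eq_empty] at hDie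
      rw [hDie, Finset.card_empty] at hDc
      obtain ⟨p, hp⟩ := hne
      obtain ⟨w, hw⟩ := (Finset.mem_filter.mp (hTall p hp)).2
      have h5 : 0 < Xi.card := Finset.card_pos.mpr
        ⟨w, by rw [hXi, Finset.mem_toLeft, ← hw]; exact m1 p hp⟩
      have h6 : 0 < T'.card := Finset.card_pos.mpr ⟨p, hp⟩
      omega

end Pool.Agent.Lib.MP_e057e5_lc
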