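import Pool.Agent.Lib.MP_e057e5_lc.Gadget2

namespace Pool.Agent.Lib.MP_e057e5_lc

/-- the edges of the multigraph -/
abbrev Et (a b M : ℕ) :=
  Fin M ⊕ (Fin (a + 1) × (((Fin 8 × Fin M) ⊕ Unit) ⊕ (Fin b × (Fin 9 × Fin M))))

instance (a b M : ℕ) : DecidableEq (Et a b M) := inferInstance

variable {a b M : ℕ} (inc : Fin (a + 1) → Fin b → Bool) (act : Fin (a + 1) → Bool)

def s3 (κ : ℕ) : Fin 3 := ⟨κ / 2 % 3, by omega⟩

def endsE : Et a b M → Vt a b × Vt a b
  | .inl _ => (hb false, hb true)
  | .inr (i, .inl (.inl (κ, _))) =>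
    if κ.1 < 6 then (hb (decide (κ.1 % 2 = 1)), bs (.inl i) (s3 κ.1)) else
      if κ.1 = 6 then barPr i 0 else barPr i (if act i then 0 else 2)
  | .inr (i, .inl (.inr ())) => barPr i 1
  | .inr (i, .inr (j, (κ, _))) =>
    if κ.1 < 6 then (hb (decide (κ.1 % 2 = 1)), bs (.inr (i, j)) (s3 κ.1)) else
      if κ.1 = 6 then pathPr i.castSucc j else
        if κ.1 = 7 then pathPr i.succ j else slotPr inc i j

theorem exists_copy {F : Finset (Et a b M)} (hF : F.card < M) (g : Fin M → Et a b M)
    (hg : Function.Injective g) : ∃ m, g m ∉ F := by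
  by_contra h
  push Not at h
  have h1 : (Finset.univ.image g) ⊆ F := by
    intro x hx
    obtain ⟨m, _, rfl⟩ := Finset.mem_image.mp hx
    exact h m
  have h2 := Finset.card_le_card h1
  rw [Finset.card_image_of_injective _ hg, Finset.card_univ, Fintype.card_fin] at h2
  omega

theorem base_realized {F : Finset (Et a b M)} (hF : F.card < M) (p : Vt a b × Vt a b)
    (hp : p ∈ baseT a b) : ∃ e, e ∉ F ∧ endsE inc act e = p := by
  rcases (baseT_shape hp).2 with rfl | ⟨β, w, s, rfl⟩
  · obtain ⟨m, hm⟩ := exists_copy hF (fun m => .inl m) (fun m m' h => by simpa using h)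
    exact ⟨_, hm, rfl⟩
  · obtain ⟨κ, hκ6, hκβ, hκs⟩ : ∃ κ : ℕ, κ < 6 ∧ decide (κ % 2 = 1) = β ∧ s3 κ = s := by
      refine ⟨2 * s.1 + (if β then 1 else 0), ?_, ?_, ?_⟩
      · split_ifs <;> omega
      · cases β <;> simp
      · apply Fin.ext
        simp only [s3]
        split_ifs <;> omega
    rcases w with i | ⟨i, j⟩
    · obtain ⟨m, hm⟩ := exists_copy hF (fun m => .inr (i, .inl (.inl (⟨κ, by omega⟩, m))))
        (fun m m' h => by simpa using h)
      refine ⟨_, hm, ?_⟩
      simp only [endsE, if_pos hκ6, hκβ, hκs]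
    · obtain ⟨m, hm⟩ := exists_copy hF (fun m => .inr (i, .inr (j, (⟨κ, by omega⟩, m))))
        (fun m m' h => by simpa using h)
      refine ⟨_, hm, ?_⟩
      simp only [endsE, if_pos hκ6, hκβ, hκs]

/-- variables whose light bar is deleted -/
def lightDel (F : Finset (Et a b M)) : Finset (Fin (a + 1)) :=
  Finset.univ.filter fun i => .inr (i, .inl (.inr ())) ∈ F

theorem lightDel_card (F : Finset (Et a b M)) : (lightDel F).card ≤ F.card := by
  rw [← Finset.card_image_of_injective (lightDel F)
    (f := fun i => (.inr (i, .inl (.inr ())) : Et a b M)) (fun i i' h => by simpa using h)]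
  apply Finset.card_le_card
  intro x hx
  obtain ⟨i, hi, rfl⟩ := Finset.mem_image.mp hx
  exact (Finset.mem_filter.mp hi).2

theorem class_realized {F : Finset (Et a b M)} (hF : F.card < M) (κ : Cls a b)
    (hκ : alive act (lightDel F) κ) : ∃ e, e ∉ F ∧ endsE inc act e = pr inc κ := by
  rcases κ with ⟨p, j⟩ | ⟨i, j⟩ | ⟨i, s⟩
  · by_cases hp : p.1 = a + 1
    · obtain ⟨m, hm⟩ := exists_copy hF (fun m => .inr (Fin.last a, .inr (j, (7, m))))
        (fun m m' h => by simpa using h)
      refine ⟨_, hm, ?_⟩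
      have : (Fin.last a).succ = p := Fin.ext (by simp [hp])
      show pathPr (Fin.last a).succ j = pathPr p j
      rw [this]
    · obtain ⟨m, hm⟩ := exists_copy hF
        (fun m => .inr ((⟨p.1, by omega⟩ : Fin (a + 1)), .inr (j, (6, m))))
        (fun m m' h => by simpa using h)
      refine ⟨_, hm, ?_⟩
      have : (⟨p.1, by omega⟩ : Fin (a + 1)).castSucc = p := Fin.ext (by simp)
      show pathPr (⟨p.1, by omega⟩ : Fin (a + 1)).castSucc j = pathPr p j
      rw [this]
  · obtain ⟨m, hm⟩ := exists_copy hF (fun m => .inr (i, .inr (j, (8, m))))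
      (fun m m' h => by simpa using h)
    exact ⟨_, hm, rfl⟩
  · rcases hκ with rfl | ⟨rfl, hi⟩ | ⟨rfl, hi⟩
    · obtain ⟨m, hm⟩ := exists_copy hF (fun m => .inr (i, .inl (.inl (6, m))))
        (fun m m' h => by simpa using h)
      exact ⟨_, hm, rfl⟩
    · refine ⟨.inr (i, .inl (.inr ())), ?_, rfl⟩
      intro h
      exact hi (Finset.mem_filter.mpr ⟨Finset.mem_univ _, h⟩)
    · obtain ⟨m, hm⟩ := exists_copy hF (fun m => .inr (i, .inl (.inl (7, m))))
        (fun m m' h => by simpa using h)
      refine ⟨_, hm, ?_⟩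
      simp only [endsE, pr]
      rw [hi]
      rfl

/-- Rigidity after deleting few edges. -/
theorem rigid_of_hall {F : Finset (Et a b M)} (hF : F.card < M)
    (hD : ∀ A ⊆ lightDel F, (∀ i ∈ A, act i = true) → A.card ≤ (nb inc A).card) :
    RW (endsE inc act) F := by
  obtain ⟨f, hf, h⟩ := hall inc act (lightDel F) hD
  refine rw_of_pairs _ F (hallT inc f) (hallT_ind inc f fun x => (h x).2)
    (hallT_card inc f hf) ?_
  intro p hp
  rcases Finset.mem_union.mp hp with hp | hp
  · obtain ⟨x, _, rfl⟩ := Finset.mem_image.mp hp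
    exact class_realized inc act hF (f x) (h x).1
  · exact base_realized inc act hF p hp

/-- light bars of a set of variables -/
def lightBars (A : Finset (Fin (a + 1))) : Finset (Et a b M) :=
  A.image fun i => .inr (i, .inl (.inr ()))

theorem lightBars_card (A : Finset (Fin (a + 1))) : (lightBars (b := b) (M := M) A).card = A.card :=
  Finset.card_image_of_injective _ fun i i' h => by simpa using h

/-- Deleting the light bars of a Hall violator destroys rigidity. -/
theorem not_rigid (A : Finset (Fin (a + 1))) (hact : ∀ i ∈ A, act i = true)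
    (hA : (nb inc A).card < A.card) : ¬ RW (endsE inc act) (lightBars (b := b) (M := M) A) := by
  classical
  rintro ⟨I, hdis, hind, hcard⟩
  set U : Finset (Wt a b) := A.disjSum (Finset.univ ×ˢ nb inc A) with hU
  have hUc : U.card = A.card + (a + 1) * (nb inc A).card := by
    rw [hU, Finset.card_disjSum, Finset.card_product, Finset.card_univ, Fintype.card_fin]
  set I1 := I.filter fun e => ∃ w ∈ U, (endsE inc act e).1 = .inl w ∨ (endsE inc act e).2 = .inl w
    with hI1
  set I2 := I.filter fun e =>
    ¬ ∃ w ∈ U, (endsE inc act e).1 = .inl w ∨ (endsE inc act e).2 = .inl w with hI2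
  have hIc : I.card = I1.card + I2.card :=
    (Finset.card_filter_add_card_filter_not (s := I) _).symm
  set KT : Finset (Cls a b) := (Finset.univ ×ˢ nb inc A).disjSum
    ((Finset.univ ×ˢ nb inc A).disjSum (A ×ˢ {0})) with hKT
  have hKTc : KT.card = (a + 2) * (nb inc A).card + ((a + 1) * (nb inc A).card + A.card) := by
    rw [hKT, Finset.card_disjSum, Finset.card_disjSum, Finset.card_product, Finset.card_product,
      Finset.card_product, Finset.card_univ, Finset.card_univ, Fintype.card_fin, Fintype.card_fin,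
      Finset.card_singleton, Nat.mul_one]
  -- touched classes lie in KT
  have htouch : ∀ κ : Cls a b, (∀ i s, κ = .inr (.inr (i, s)) → i ∈ A → s = 0) →
      (∃ w ∈ U, touch inc κ w) → κ ∈ KT := by
    intro κ hs ⟨w, hw, ht⟩
    rw [hU, Finset.mem_disjSum] at hw
    rcases κ with ⟨p, j⟩ | ⟨i, j⟩ | ⟨i, s⟩
    · rcases hw with ⟨i', _, rfl⟩ | ⟨⟨i', j'⟩, hw, rfl⟩
      · exact absurd ht (touch_path_x inc p j i')
      · rw [touch_path_c] at ht
        rw [Finset.mem_product] at hw
        rw [hKT, Finset.inl_mem_disjSum, Finset.mem_product]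
        exact ⟨Finset.mem_univ _, by rw [← ht.1]; exact hw.2⟩
    · rcases hw with ⟨i', hi', rfl⟩ | ⟨⟨i', j'⟩, hw, rfl⟩
      · rw [touch_slot_x] at ht
        rw [hKT, Finset.inr_mem_disjSum, Finset.inl_mem_disjSum, Finset.mem_product, nb,
          Finset.mem_filter]
        exact ⟨Finset.mem_univ _, Finset.mem_univ _, i', hi', by rw [ht.1]; exact ht.2⟩
      · rw [touch_slot_c] at ht
        rw [Finset.mem_product] at hw
        rw [hKT, Finset.inr_mem_disjSum, Finset.inl_mem_disjSum, Finset.mem_product]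
        exact ⟨Finset.mem_univ _, by rw [← ht.2]; exact hw.2⟩
    · rcases hw with ⟨i', hi', rfl⟩ | ⟨⟨i', j'⟩, hw, rfl⟩
      · rw [touch_bar_x] at ht
        subst ht
        rw [hKT, Finset.inr_mem_disjSum, Finset.inr_mem_disjSum, Finset.mem_product]
        exact ⟨hi', by rw [hs _ _ rfl hi']; exact Finset.mem_singleton_self _⟩
      · exact absurd ht (touch_bar_c inc i i' s j')
  have hI1c : I1.card ≤ KT.card := by
    have hinj : Set.InjOn (endsE inc act) I1 :=
      (ends_injOn _ hind).mono (by
        intro e he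
        exact (Finset.mem_filter.mp he).1)
    rw [← Finset.card_image_of_injOn hinj]
    have hsub : I1.image (endsE inc act) ⊆ KT.image (pr inc) := by
      intro p hp
      obtain ⟨e, he, rfl⟩ := Finset.mem_image.mp hp
      obtain ⟨heI, w, hw, ht⟩ := Finset.mem_filter.mp he
      rcases e with m | ⟨i, (⟨κ, m⟩ | ⟨⟩) | ⟨j, κ, m⟩⟩
      · simp [endsE, hb] at ht
      · simp only [endsE] at ht ⊢
        split_ifs at ht ⊢ with h1 h2 h3
        · simp [hb, bs] at ht
        · refine Finset.mem_image.mpr ⟨.inr (.inr (i, 0)), htouch _ ?_ ⟨w, hw, ht⟩, rfl⟩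
          intro i' s h _; simp at h; exact h.2.symm
        · refine Finset.mem_image.mpr ⟨.inr (.inr (i, 0)), htouch _ ?_ ⟨w, hw, ht⟩, rfl⟩
          intro i' s h _; simp at h; exact h.2.symm
        · refine Finset.mem_image.mpr ⟨.inr (.inr (i, 2)), htouch _ ?_ ⟨w, hw, ht⟩, rfl⟩
          intro i' s h hi'
          simp at h
          rw [h.1] at h3
          exact absurd (hact i' hi') h3
      · refine Finset.mem_image.mpr ⟨.inr (.inr (i, 1)), htouch _ ?_ ⟨w, hw, ht⟩, rfl⟩
        intro i' s h hi'
        simp at h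
        rw [← h.1] at hi'
        exact absurd (Finset.mem_image.mpr ⟨i, hi', rfl⟩) (Finset.disjoint_left.mp hdis heI)
      · simp only [endsE] at ht ⊢
        split_ifs at ht ⊢ with h1 h2 h3
        · simp [hb, bs] at ht
        · exact Finset.mem_image.mpr ⟨.inl (i.castSucc, j),
            htouch _ (fun _ _ h => by simp at h) ⟨w, hw, ht⟩, rfl⟩
        · exact Finset.mem_image.mpr ⟨.inl (i.succ, j),
            htouch _ (fun _ _ h => by simp at h) ⟨w, hw, ht⟩, rfl⟩
        · exact Finset.mem_image.mpr ⟨.inr (.inl (i, j)),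
            htouch _ (fun _ _ h => by simp at h) ⟨w, hw, ht⟩, rfl⟩
    exact (Finset.card_le_card hsub).trans Finset.card_image_le
  have hV := card_Vt (a := a) (b := b)
  have hUW : U.card ≤ Fintype.card (Wt a b) := by
    have := Finset.card_le_univ U
    simpa using this
  have hI2c : I2.card + 3 ≤ 2 * (Fintype.card (Vt a b) - U.card) := by
    by_cases hne : I2.Nonempty
    · have h1 := hind I2 (Finset.filter_subset _ _) hne
      have h2 : vts (endsE inc act) I2 ⊆ Finset.univ \ (U.map ⟨Sum.inl, Sum.inl_injective⟩) := by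
        intro v hv
        obtain ⟨e, he, hv⟩ := mem_vts.mp hv
        rw [Finset.mem_sdiff]
        refine ⟨Finset.mem_univ _, ?_⟩
        intro hvU
        obtain ⟨w, hw, rfl⟩ := Finset.mem_map.mp hvU
        refine (Finset.mem_filter.mp he).2 ⟨w, hw, ?_⟩
        rcases hv with hv | hv
        · exact Or.inl hv.symm
        · exact Or.inr hv.symm
      have h3 := Finset.card_le_card h2
      rw [Finset.card_sdiff_of_subset (Finset.subset_univ _), Finset.card_map,
        Finset.card_univ] at h3
      omega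
    · rw [Finset.not_nonempty_iff_eq_empty] at hne
      rw [hne, Finset.card_empty]
      omega
  have e1 : (a + 2) * (nb inc A).card = (a + 1) * (nb inc A).card + (nb inc A).card := by ring
  omega

/-- The minimum cut of the gadget in terms of Hall violators. -/
theorem exists_cut_iff (c : ℕ) (hc : c < M) :
    (∃ F : Finset (Et a b M), F.card ≤ c ∧ ¬ RW (endsE inc act) F) ↔
      ∃ A : Finset (Fin (a + 1)), (∀ i ∈ A, act i = true) ∧ (nb inc A).card < A.card ∧
        A.card ≤ c := by
  constructor
  · rintro ⟨F, hF, hR⟩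
    by_contra hcon
    push Not at hcon
    apply hR
    apply rigid_of_hall inc act (by omega)
    intro A hA hact
    by_contra hlt
    have h1 := hcon A hact (by omega)
    have h2 := (Finset.card_le_card hA).trans (lightDel_card F)
    omega
  · rintro ⟨A, hact, hlt, hle⟩
    exact ⟨lightBars A, by rw [lightBars_card]; exact hle, not_rigid inc act A hact hlt⟩

end Pool.Agent.Lib.MP_e057e5_lc
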