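import Pool.Agent.Lib.MP_e057e5_lc.Prog

namespace Pool.Agent.Lib.MP_e057e5_lc

open Pool.Agent.Lib.Ram

variable {W base : ℕ} {σ : St}

/-- the register contents during the main part of the computation -/
structure Hdr (n k M A1 b W base : ℕ) (σ : St) : Prop where
  h0 : σ.reg 0 + 3 = base
  h2 : σ.reg 2 = n
  h4 : σ.reg 4 = n + 4
  h5 : σ.reg 5 = M
  h6 : σ.reg 6 = A1
  h7 : σ.reg 7 = b
  h8 : σ.reg 8 = b + 1

/-- the memory holds the adjacency matrix -/
def Adjs {n : ℕ} (G : SimpleGraph (Fin n)) (mem : ℕ → ℕ) : Prop :=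
  ∀ (u v : ℕ) (hu : u < n) (hv : v < n),
    (G.Adj ⟨u, hu⟩ ⟨v, hv⟩ → mem (2 + (u * n + v)) = 1) ∧
      (¬ G.Adj ⟨u, hu⟩ ⟨v, hv⟩ → mem (2 + (u * n + v)) = 0)

def actC : Cmd :=
  .ite (.sub (.var 12) (.var 11)) (.ite (.sub (.var 2) (.var 12))
    (.assign 13 (.load (.add (.lit 2) (.add (.mul (.var 11) (.var 2)) (.var 12)))))
    (.assign 13 (.lit 1))) (.assign 13 (.lit 0))

theorem actC_term {n i : ℕ} (G : SimpleGraph (Fin n)) (h2 : σ.reg 2 = n)
    (h11 : σ.reg 11 = i / (n + 4)) (h12 : σ.reg 12 = i % (n + 4)) (hm : Adjs G σ.mem)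
    (hW : 2 + n * n + n ≤ W) :
    Term W actC σ (fun σ' => σ' = σ.set 13 (if actN G i then 1 else 0)) := by
  set u := i / (n + 4) with hu
  set v := i % (n + 4) with hv
  refine Term.ite ⟨trivial, trivial⟩ (fun h => ?_) (fun h => ?_)
  · have h : σ.reg 12 - σ.reg 11 ≠ 0 := h
    rw [h11, h12] at h
    refine Term.ite ⟨trivial, trivial⟩ (fun h' => ?_) (fun h' => ?_)
    · have h' : σ.reg 2 - σ.reg 12 ≠ 0 := h'
      rw [h2, h12] at h'
      have hvn : v < n := by omega
      have hun : u < n := by omega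
      have hb : u * n + v ≤ n * n + n := by
        have := Nat.mul_le_mul_right n hun.le
        omega
      refine Term.assign ?_ ?_
      · refine ⟨?_, ⟨⟨trivial, trivial, ?_⟩, trivial, ?_⟩, ?_⟩
        · show 2 ≤ W; omega
        · simp only [Expr.eval, h11, h2]; omega
        · simp only [Expr.eval, h11, h2, h12]; omega
        · simp only [Expr.eval, h11, h2, h12]; omega
      · simp only [Expr.eval, h11, h2, h12]
        by_cases hadj : G.Adj ⟨u, hun⟩ ⟨v, hvn⟩
        · rw [(hm u v hun hvn).1 hadj]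
          have : actN G i = true := by
            simp only [actN, decide_eq_true_eq]
            exact ⟨by omega, Or.inr (Or.inr ⟨hun, hvn, hadj⟩)⟩
          rw [if_pos this]
        · rw [(hm u v hun hvn).2 hadj]
          have : ¬ actN G i = true := by
            simp only [actN, decide_eq_true_eq]
            rintro ⟨_, h | h | ⟨_, _, h⟩⟩
            · omega
            · omega
            · exact hadj h
          rw [if_neg this]
    · have h' : σ.reg 2 - σ.reg 12 = 0 := h'
      rw [h2, h12] at h'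
      refine Term.assign (by show 1 ≤ W; omega) ?_
      have : actN G i = true := by
        simp only [actN, decide_eq_true_eq]
        exact ⟨by omega, Or.inr (Or.inl (by omega))⟩
      rw [if_pos this]
      rfl
  · have h : σ.reg 12 - σ.reg 11 = 0 := h
    rw [h11, h12] at h
    refine Term.assign (Nat.zero_le _) ?_
    have : ¬ actN G i = true := by
      simp only [actN, decide_eq_true_eq]
      rintro ⟨h, _⟩
      omega
    rw [if_neg this]
    rfl

/-- `|x - y|` -/
def dist (x y : Expr) : Expr := .add (.sub x y) (.sub y x)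

def incE : Expr :=
  .mul (.var 13) (.sub (.lit 1) (.mul (.sub (.var 4) (.var 16))
    (.mul (dist (.var 11) (.var 16)) (dist (.var 12) (.var 16)))))

theorem incE_eval {n i j : ℕ} (G : SimpleGraph (Fin n)) (h4 : σ.reg 4 = n + 4)
    (h11 : σ.reg 11 = i / (n + 4)) (h12 : σ.reg 12 = i % (n + 4))
    (h13 : σ.reg 13 = if actN G i then 1 else 0) (h16 : σ.reg 16 = j) :
    incE.eval σ = if incN G i j then 1 else 0 := by
  simp only [incE, dist, Expr.eval, h4, h11, h12, h13, h16]
  set u := i / (n + 4)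
  set v := i % (n + 4)
  by_cases ha : actN G i = true
  · rw [if_pos ha, one_mul]
    by_cases hj : n + 4 ≤ j ∨ u = j ∨ v = j
    · have : incN G i j = true := by
        simp only [incN, ha, Bool.true_and, decide_eq_true_eq]; exact hj
      rw [if_pos this]
      have : (n + 4 - j) * ((u - j + (j - u)) * (v - j + (j - v))) = 0 := by
        rcases hj with h | h | h
        · rw [show n + 4 - j = 0 by omega, zero_mul]
        · rw [show u - j + (j - u) = 0 by omega, zero_mul, mul_zero]
        · rw [show v - j + (j - v) = 0 by omega, mul_zero, mul_zero]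
      rw [this]
    · have : ¬ incN G i j = true := by
        simp only [incN, ha, Bool.true_and, decide_eq_true_eq]; exact hj
      rw [if_neg this]
      have : 0 < (n + 4 - j) * ((u - j + (j - u)) * (v - j + (j - v))) := by
        apply Nat.mul_pos (by omega) (Nat.mul_pos (by omega) (by omega))
      omega
  · have : ¬ incN G i j = true := by
      simp only [incN, Bool.and_eq_true]
      rintro ⟨h, _⟩
      exact ha h
    rw [if_neg ha, if_neg this, zero_mul]

def wE (r : ℕ) : Expr := .add (.lit 2) (.mul (.lit 4) (.add (.mul (.var 10) (.var 8)) (.var r)))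

def bodyJ : Cmd := .seq (.assign 17 incE) (.seq (.assign 18 (wE 16)) cC)

def bodyJT (M : ℕ) : ℕ := 50 + (9 * emitT M + 30)

theorem bodyJ_emits {n k a b M i j : ℕ} (G : SimpleGraph (Fin n))
    (hd : Hdr n k M (a + 1) b W base σ) (h10 : σ.reg 10 = i) (hia : i ≤ a)
    (h11 : σ.reg 11 = i / (n + 4)) (h12 : σ.reg 12 = i % (n + 4))
    (h13 : σ.reg 13 = if actN G i then 1 else 0) (h14 : σ.reg 14 = 2 + 4 * (i * (b + 1) + b))
    (h16 : σ.reg 16 = j) (hj : j < b)
    (hia' : i < (n + 4) * (n + 4)) (hnb : n + 4 ≤ b)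
    (hW : 2 + 4 * (i * (b + 1) + b) + 4 * (b + 1) + 3 ≤ W) (hiW : i + 1 ≤ W)
    (hW3 : b * (b * b) ≤ W) :
    Emits W base 17 bodyJ σ (bodyJT M) (cL a b M (incN G) i j) := by
  have hu : i / (n + 4) ≤ b := by
    have : i / (n + 4) < n + 4 := by rw [Nat.div_lt_iff_lt_mul (by omega)]; exact hia'
    omega
  have hv : i % (n + 4) ≤ b := by
    have : i % (n + 4) < n + 4 := Nat.mod_lt _ (by omega)
    omega
  have hP : ∀ x y z : ℕ, x ≤ b → y ≤ b → z ≤ b → x * (y * z) ≤ W := by
    intro x y z hx hy hz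
    exact (Nat.mul_le_mul hx (Nat.mul_le_mul hy hz)).trans hW3
  have hbW : b ≤ W := by omega
  have hbb : b * b ≤ W := by
    have : 1 * (b * b) ≤ b * (b * b) := Nat.mul_le_mul_right _ (by omega)
    omega
  have hij : i * (b + 1) + j ≤ i * (b + 1) + b := by omega
  have hinc := incE_eval (σ := σ) (j := j) G hd.h4 h11 h12 h13 h16
  refine Emits.time (T := incE.size + 2 + ((wE 16).size + 2 + (9 * emitT M + 30))) ?_
    (by simp only [bodyJT, incE, wE, dist, Expr.size]; omega)
  refine Emits.assign (by omega) (by omega) ?_ ?_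
  · refine ⟨trivial, ⟨?_, ⟨⟨trivial, trivial⟩, ⟨⟨⟨trivial, trivial⟩, ⟨trivial, trivial⟩, ?_⟩,
      ⟨⟨trivial, trivial⟩, ⟨trivial, trivial⟩, ?_⟩, ?_⟩, ?_⟩⟩, ?_⟩
    · show 1 ≤ W; omega
    · simp only [Expr.eval, h11, h16]; omega
    · simp only [Expr.eval, h12, h16]; omega
    · simp only [dist, Expr.eval, h11, h12, h16]
      exact (Nat.mul_le_mul (show _ ≤ b by omega) (show _ ≤ b by omega)).trans hbb
    · simp only [dist, Expr.eval, hd.h4, h11, h12, h16]
      exact hP _ _ _ (by omega) (by omega) (by omega)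
    · have : incE.eval σ ≤ W := by rw [hinc]; split_ifs <;> omega
      exact this
  · rw [hinc]
    refine Emits.assign (by omega) (by omega) ?_ ?_
    · refine ⟨?_, ⟨?_, ⟨⟨trivial, trivial, ?_⟩, trivial, ?_⟩, ?_⟩, ?_⟩
      · show 2 ≤ W; omega
      · show 4 ≤ W; omega
      · simp only [Expr.eval, St.set_reg]
        rw [if_neg (by omega), if_neg (by omega), h10, hd.h8]; omega
      · simp only [Expr.eval, St.set_reg]
        rw [if_neg (by omega), if_neg (by omega), if_neg (by omega), h10, hd.h8, h16]; omega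
      · simp only [Expr.eval, St.set_reg]
        rw [if_neg (by omega), if_neg (by omega), if_neg (by omega), h10, hd.h8, h16]; omega
      · simp only [Expr.eval, St.set_reg]
        rw [if_neg (by omega), if_neg (by omega), if_neg (by omega), h10, hd.h8, h16]; omega
    · have hwE : (wE 16).eval (σ.set 17 (if incN G i j then 1 else 0)) =
          2 + 4 * (i * (b + 1) + j) := by
        simp only [wE, Expr.eval, St.set_reg]
        rw [if_neg (by omega), if_neg (by omega), if_neg (by omega), h10, hd.h8, h16]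
      rw [hwE]
      have key : ∀ r, r ≠ 17 → r ≠ 18 → ((σ.set 17 (if incN G i j then 1 else 0)).set 18
          (2 + 4 * (i * (b + 1) + j))).reg r = σ.reg r := by
        intro r h1 h2
        simp only [St.set_reg]
        rw [if_neg h2, if_neg h1]
      refine (cC_emits (a := a) (b := b) (i := i) (j := j) (incn := incN G)
        ((key 5 (by omega) (by omega)).trans hd.h5) ((key 6 (by omega) (by omega)).trans hd.h6)
        ((key 8 (by omega) (by omega)).trans hd.h8) ((key 10 (by omega) (by omega)).trans h10)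
        hia ?_ ((key 14 (by omega) (by omega)).trans h14) ?_ hj hW hiW).level (by omega)
      · simp
      · simp

def bodyI : Cmd :=
  .seq (.assign 11 (.div (.var 10) (.var 4)))
  (.seq (.assign 12 (.sub (.var 10) (.mul (.var 11) (.var 4))))
  (.seq actC
  (.seq (.assign 14 (wE 7))
  (.seq xC (forL 16 (.var 7) bodyJ)))))

def bodyIT (M b : ℕ) : ℕ :=
  100 + (8 * emitT M + emitT 1 + 4 + (3 + (b * (7 + (bodyJT M + 6)) + 6)))

theorem Fr.hdr {n k M A1 b W base ℓ : ℕ} {σ σ' : St} (h : Fr ℓ base σ σ') (hℓ : 9 ≤ ℓ)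
    (hd : Hdr n k M A1 b W base σ) : Hdr n k M A1 b W base σ' :=
  ⟨by rw [h.1 0 (by omega) (by omega)]; exact hd.h0,
    by rw [h.1 2 (by omega) (by omega)]; exact hd.h2,
    by rw [h.1 4 (by omega) (by omega)]; exact hd.h4,
    by rw [h.1 5 (by omega) (by omega)]; exact hd.h5,
    by rw [h.1 6 (by omega) (by omega)]; exact hd.h6,
    by rw [h.1 7 (by omega) (by omega)]; exact hd.h7,
    by rw [h.1 8 (by omega) (by omega)]; exact hd.h8⟩

theorem Hdr.set {n k M A1 b W base : ℕ} {σ : St} (hd : Hdr n k M A1 b W base σ) {d v : ℕ}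
    (hdv : 9 ≤ d) : Hdr n k M A1 b W base (σ.set d v) := by
  refine Fr.hdr (ℓ := 9) (σ := σ) ⟨fun r hr _ => ?_, fun _ _ => rfl⟩ le_rfl hd
  simp only [St.set_reg]
  rw [if_neg (by omega)]

theorem bodyI_emits {n k a b M i : ℕ} (G : SimpleGraph (Fin n))
    (hd : Hdr n k M (a + 1) b W base σ) (h10 : σ.reg 10 = i) (hia : i ≤ a)
    (ha : a + 1 = (n + 4) * (n + 4)) (hnb : n + 4 ≤ b)
    (hm : Adjs G σ.mem) (hmb : 2 + n * n + n ≤ W) (hbase : n * n + 2 + 3 = base)
    (hW : 2 + 4 * ((a + 1) * (b + 1)) + 4 * (b + 1) + 3 ≤ W)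
    (hW3 : b * (b * b) ≤ W) :
    Emits W base 11 bodyI σ (bodyIT M b)
      (xL b M (actN G) i ++ (List.range b).flatMap fun j => cL a b M (incN G) i j) := by
  have hiab : (i + 1) * (b + 1) ≤ (a + 1) * (b + 1) := Nat.mul_le_mul_right _ (by omega)
  have hi1 : (i + 1) * (b + 1) = i * (b + 1) + (b + 1) := by ring
  have hiW : i + 1 ≤ W := by
    have : (i + 1) * 1 ≤ (i + 1) * (b + 1) := Nat.mul_le_mul_left _ (by omega)
    omega
  have hdm : i / (n + 4) * (n + 4) ≤ i := Nat.div_mul_le_self _ _
  have hmod : i - i / (n + 4) * (n + 4) = i % (n + 4) := by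
    have := Nat.div_add_mod i (n + 4)
    rw [Nat.mul_comm] at this
    omega
  set u := i / (n + 4) with hu
  set v := i % (n + 4) with hv
  refine Emits.time (T := (Expr.div (.var 10) (.var 4)).size + 2 +
    ((Expr.sub (.var 10) (.mul (.var 11) (.var 4))).size + 2 + (actC.cost +
      ((wE 7).size + 2 + (8 * emitT M + emitT 1 + 4 +
        (3 + (b * (7 + (bodyJT M + 6)) + 6))))))) ?_ ?_
  · refine Emits.assign le_rfl (by omega) ⟨trivial, trivial⟩ ?_
    have e1 : (Expr.div (.var 10) (.var 4)).eval σ = u := by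
      simp only [Expr.eval, h10, hd.h4]; rfl
    rw [e1]
    have hd1 := hd.set (d := 11) (v := u) (by omega)
    have r10 : (σ.set 11 u).reg 10 = i := by simp [h10]
    have r11 : (σ.set 11 u).reg 11 = u := by simp
    refine Emits.assign (by omega) (by omega) ⟨trivial, trivial, trivial, ?_⟩ ?_
    · simp only [Expr.eval, r11, hd1.h4]; omega
    have e2 : (Expr.sub (.var 10) (.mul (.var 11) (.var 4))).eval (σ.set 11 u) = v := by
      simp only [Expr.eval, r10, r11, hd1.h4]; exact hmod
    rw [e2]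
    have hd2 := hd1.set (d := 12) (v := v) (by omega)
    have s10 : ((σ.set 11 u).set 12 v).reg 10 = i := by simp [h10]
    have s11 : ((σ.set 11 u).set 12 v).reg 11 = u := by simp
    have s12 : ((σ.set 11 u).set 12 v).reg 12 = v := by simp
    refine Emits.pre (P := fun σ' => σ' = ((σ.set 11 u).set 12 v).set 13
      (if actN G i then 1 else 0)) (Run.mono (Term.run (actC_term G hd2.h2 s11 s12 hm hmb)
        ⟨⟨trivial, trivial⟩, trivial⟩) le_rfl ?_) ?_
    · rintro σ' rfl
      refine ⟨⟨fun r hr _ => ?_, fun _ _ => rfl⟩, ?_, rfl, rfl⟩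
      · simp only [St.set_reg]; rw [if_neg (by omega)]
      · simp
    · rintro σ₂ _ _ rfl
      set σ₃ := ((σ.set 11 u).set 12 v).set 13 (if actN G i then 1 else 0) with hσ₃
      have hd3 : Hdr n k M (a + 1) b W base σ₃ := hd2.set (by omega)
      have t10 : σ₃.reg 10 = i := by simp [hσ₃, h10]
      have t11 : σ₃.reg 11 = u := by simp [hσ₃]
      have t12 : σ₃.reg 12 = v := by simp [hσ₃]
      have t13 : σ₃.reg 13 = if actN G i then 1 else 0 := by simp [hσ₃]
      refine Emits.assign (by omega) (by omega) ?_ ?_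
      · refine ⟨?_, ⟨?_, ⟨⟨trivial, trivial, ?_⟩, trivial, ?_⟩, ?_⟩, ?_⟩
        · show 2 ≤ W; omega
        · show 4 ≤ W; omega
        · simp only [Expr.eval, t10, hd3.h8]; omega
        · simp only [Expr.eval, t10, hd3.h8, hd3.h7]; omega
        · simp only [Expr.eval, t10, hd3.h8, hd3.h7]; omega
        · simp only [Expr.eval, t10, hd3.h8, hd3.h7]; omega
      have e3 : (wE 7).eval σ₃ = 2 + 4 * (i * (b + 1) + b) := by
        simp only [wE, Expr.eval, t10, hd3.h8, hd3.h7]
      rw [e3]
      set σ₄ := σ₃.set 14 (2 + 4 * (i * (b + 1) + b)) with hσ₄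
      have hd4 : Hdr n k M (a + 1) b W base σ₄ := hd3.set (by omega)
      have v10 : σ₄.reg 10 = i := by simp [hσ₄, t10]
      have v11 : σ₄.reg 11 = u := by simp [hσ₄, t11]
      have v12 : σ₄.reg 12 = v := by simp [hσ₄, t12]
      have v13 : σ₄.reg 13 = if actN G i then 1 else 0 := by simp [hσ₄, t13]
      have v14 : σ₄.reg 14 = 2 + 4 * (i * (b + 1) + b) := by simp [hσ₄]
      refine Emits.level (ℓ' := 16) ?_ (by omega)
      refine Emits.seq ((xC_emits hd4.h5 v13 v14 (by omega)).level (by omega))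
        fun σ₅ hfr => ?_
      have hd5 := hfr.hdr (by omega) hd4
      refine forL_emits (by omega) rfl (by omega) (by omega) hd5.h7 (by omega) (by omega) ?_
      intro j hj σ₆ hfr6 h16
      have hd6 := hfr6.hdr (by omega) hd5
      have w : ∀ r, r < 16 → r ≠ 1 → σ₆.reg r = σ₄.reg r := fun r h1 h2 =>
        (hfr6.1 r h1 h2).trans (hfr.1 r h1 h2)
      exact bodyJ_emits G hd6 ((w 10 (by omega) (by omega)).trans v10) hia
        ((w 11 (by omega) (by omega)).trans v11) ((w 12 (by omega) (by omega)).trans v12)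
        ((w 13 (by omega) (by omega)).trans v13) ((w 14 (by omega) (by omega)).trans v14)
        h16 hj (by omega) hnb (by omega) hiW hW3
  · simp only [bodyIT, Expr.size, wE, actC, Cmd.cost]
    omega

end Pool.Agent.Lib.MP_e057e5_lc
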