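import Pool.Agent.Lib.MP_e057e5_lc.Main

namespace Pool.Agent.Lib.MP_e057e5_lc

open Pool.Agent.Lib.Ram

/-! ### lengths -/

theorem baseL_length (M w : ℕ) : (baseL M w).length = 6 * M := by
  simp only [baseL, rep, List.length_append, List.length_replicate]; omega

theorem xL_length (b M : ℕ) (actn : ℕ → Bool) (i : ℕ) : (xL b M actn i).length = 8 * M + 1 := by
  simp only [xL, List.length_append, baseL_length, rep, List.length_replicate]; omega

theorem cL_length (a b M : ℕ) (incn : ℕ → ℕ → Bool) (i j : ℕ) :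
    (cL a b M incn i j).length = 9 * M := by
  simp only [cL, List.length_append, baseL_length]
  split_ifs <;> simp only [rep, List.length_replicate] <;> omega

theorem flatMap_range_length {β : Type} (n m : ℕ) (f : ℕ → List β) (h : ∀ i, (f i).length = m) :
    ((List.range n).flatMap f).length = n * m := by
  induction n with
  | zero => simp
  | succ n ih =>
    rw [List.range_succ, List.flatMap_append, List.length_append, ih]
    simp [h]
    ring

theorem allL_length (a b M : ℕ) (actn : ℕ → Bool) (incn : ℕ → ℕ → Bool) :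
    (allL a b M actn incn).length = M + (a + 1) * (8 * M + 1 + b * (9 * M)) := by
  unfold allL
  rw [List.length_append, flatMap_range_length (m := 8 * M + 1 + b * (9 * M))]
  · simp [rep]
  · intro i
    rw [List.length_append, xL_length, flatMap_range_length (m := 9 * M)]
    intro j
    exact cL_length a b M incn i j

theorem getD_flatMap_const {α β : Type} (m : ℕ) (d : β) (f : α → List β) :
    ∀ (l : List α), (∀ a ∈ l, (f a).length = m) → ∀ (u : ℕ) (hu : u < l.length) (v : ℕ),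
      v < m → (l.flatMap f).getD (u * m + v) d = (f l[u]).getD v d
  | [], _, u, hu, _, _ => absurd hu (Nat.not_lt_zero _)
  | a :: l, h, 0, _, v, hv => by
    have ha := h a (List.mem_cons_self)
    rw [List.flatMap_cons, zero_mul, zero_add, List.getD_append _ _ _ _ (by omega)]
    rfl
  | a :: l, h, u + 1, hu, v, hv => by
    have ha := h a (List.mem_cons_self)
    rw [List.flatMap_cons, List.getD_append_right _ _ _ _ (by rw [ha, Nat.add_mul]; omega), ha,
      show (u + 1) * m + v - m = u * m + v by rw [Nat.add_mul, Nat.one_mul]; omega]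
    rw [getD_flatMap_const m d f l (fun a' ha' => h a' (List.mem_cons_of_mem _ ha')) u
      (by simpa using hu) v hv]
    rfl

theorem flatMap_const_length {α β : Type} (m : ℕ) (f : α → List β) (l : List α)
    (h : ∀ a ∈ l, (f a).length = m) : (l.flatMap f).length = l.length * m := by
  induction l with
  | nil => simp
  | cons a l ih =>
    rw [List.flatMap_cons, List.length_append, h a List.mem_cons_self,
      ih fun a' ha' => h a' (List.mem_cons_of_mem _ ha'), List.length_cons]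
    ring

/-! ### the input -/

theorem cliqueCode_length (n k : ℕ) (G : SimpleGraph (Fin n)) :
    (cliqueCode n k G).length = n * n + 2 := by
  classical
  unfold cliqueCode
  rw [List.length_cons, List.length_cons, flatMap_const_length n]
  · simp
  · intro a _; simp

theorem cliqueCode_adj (n k : ℕ) (G : SimpleGraph (Fin n)) :
    Adjs G (fun i => (cliqueCode n k G).getD i 0) := by
  classical
  intro u v hu hv
  have key : (cliqueCode n k G).getD (2 + (u * n + v)) 0 =
      if G.Adj ⟨u, hu⟩ ⟨v, hv⟩ then 1 else 0 := by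
    unfold cliqueCode
    rw [show 2 + (u * n + v) = u * n + v + 1 + 1 by omega, List.getD_cons_succ,
      List.getD_cons_succ, getD_flatMap_const n 0 _ _ _ u (by simpa using hu) v hv]
    · rw [List.getD_eq_getElem _ _ (by simpa using hv)]
      simp
    · intro a _; simp
  constructor
  · intro h
    show (cliqueCode n k G).getD (2 + (u * n + v)) 0 = 1
    rw [key, if_pos h]
  · intro h
    show (cliqueCode n k G).getD (2 + (u * n + v)) 0 = 0
    rw [key, if_neg h]

theorem cliqueCode_le (n k : ℕ) (G : SimpleGraph (Fin n)) (a : ℕ) (ha : a ∈ cliqueCode n k G) :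
    a ≤ n + k + 1 := by
  classical
  unfold cliqueCode at ha
  rcases List.mem_cons.mp ha with rfl | ha
  · omega
  rcases List.mem_cons.mp ha with rfl | ha
  · omega
  obtain ⟨u, _, ha⟩ := List.mem_flatMap.mp ha
  obtain ⟨v, _, rfl⟩ := List.mem_map.mp ha
  split_ifs <;> omega

/-! ### the header -/

def kE : Expr := .sub (.load (.lit 1)) (.sub (.load (.lit 1)) (.add (.var 2) (.lit 1)))
def tE : Expr := .sub (.div (.mul (.add (.var 3) (.lit 4)) (.add (.var 3) (.lit 3))) (.lit 2))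
  (.add (.var 3) (.lit 5))

def hdrC : Cmd :=
  .seq (.assign 2 (.load (.lit 0)))
  (.seq (.assign 3 kE)
  (.seq (.assign 4 (.add (.var 2) (.lit 4)))
  (.seq (.assign 9 tE)
  (.seq (.assign 5 (.add (.var 3) (.add (.var 9) (.lit 6))))
  (.seq (.assign 6 (.mul (.var 4) (.var 4)))
  (.seq (.assign 7 (.add (.var 4) (.var 9)))
  (.seq (.assign 8 (.add (.var 7) (.lit 1)))
  (.assign 1 (.add (.var 0) (.lit 3))))))))))

def hdrSt (n k t L0 : ℕ) (mem : ℕ → ℕ) (σ : St) : Prop :=
  σ.reg 0 = L0 ∧ σ.reg 1 = L0 + 3 ∧ σ.reg 2 = n ∧ σ.reg 4 = n + 4 ∧ σ.reg 5 = k + 4 + t + 2 ∧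
    σ.reg 6 = (n + 4) * (n + 4) ∧ σ.reg 7 = n + 4 + t ∧ σ.reg 8 = n + 4 + t + 1 ∧ σ.mem = mem

theorem hdrC_term {W n k L0 : ℕ} {σ : St} (h0 : σ.reg 0 = L0) (hm0 : σ.mem 0 = n)
    (hm1 : σ.mem 1 = k) (hW : (n + 5) * (n + 5) + 10 ≤ W) (hL : L0 + 3 ≤ W)
    (hW2 : n + 4 + tN (min k (n + 1)) + 1 ≤ W) (hW3 : min k (n + 1) + 4 + tN (min k (n + 1)) + 2 ≤ W) :
    Term W hdrC σ (hdrSt n (min k (n + 1)) (tN (min k (n + 1))) L0 σ.mem) := by
  obtain ⟨k', hk'⟩ : ∃ k', min k (n + 1) = k' := ⟨_, rfl⟩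
  rw [hk'] at hW2 hW3 ⊢
  have hkn : k' ≤ n + 1 := by omega
  obtain ⟨t, ht⟩ : ∃ t, tN k' = t := ⟨_, rfl⟩
  rw [ht] at hW2 hW3 ⊢
  have hX : n + 5 ≤ (n + 5) * (n + 5) := Nat.le_mul_self _
  have hprod : (k' + 4) * (k' + 3) ≤ W := by
    have := Nat.mul_le_mul (show k' + 4 ≤ n + 5 by omega) (show k' + 3 ≤ n + 5 by omega)
    omega
  have hprod2 : (n + 4) * (n + 4) ≤ W := by
    have := Nat.mul_le_mul (show n + 4 ≤ n + 5 by omega) (show n + 4 ≤ n + 5 by omega)
    omega
  have htv : (k' + 4) * (k' + 3) / 2 - (k' + 5) = t := by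
    rw [← ht, tN, Nat.choose_two_right]
    have : k' + 4 - 1 = k' + 3 := by omega
    rw [this]
    omega
  refine Term.seq (Term.assign (Nat.zero_le _) ?_)
  have e1 : (Expr.load (.lit 0)).eval σ = n := hm0
  rw [e1]
  set σ₁ := σ.set 2 n with hσ₁
  have m1 : σ₁.mem = σ.mem := rfl
  have r12 : σ₁.reg 2 = n := by simp [hσ₁]
  refine Term.seq (Term.assign ?_ ?_)
  · refine ⟨show 1 ≤ W by omega, show 1 ≤ W by omega, trivial, show 1 ≤ W by omega, ?_⟩
    simp only [Expr.eval, r12]; omega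
  have e2 : kE.eval σ₁ = k' := by
    simp only [kE, Expr.eval, r12, m1, hm1]; omega
  rw [e2]
  set σ₂ := σ₁.set 3 k' with hσ₂
  have m2 : σ₂.mem = σ.mem := rfl
  have r22 : σ₂.reg 2 = n := by simp [hσ₂, r12]
  have r23 : σ₂.reg 3 = k' := by simp [hσ₂]
  refine Term.seq (Term.assign ?_ ?_)
  · refine ⟨trivial, show 4 ≤ W by omega, ?_⟩
    simp only [Expr.eval, r22]; omega
  have e3 : (Expr.add (.var 2) (.lit 4)).eval σ₂ = n + 4 := by simp only [Expr.eval, r22]
  rw [e3]
  set σ₃ := σ₂.set 4 (n + 4) with hσ₃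
  have r33 : σ₃.reg 3 = k' := by simp [hσ₃, r23]
  refine Term.seq (Term.assign ?_ ?_)
  · refine ⟨⟨⟨⟨trivial, show 4 ≤ W by omega, ?_⟩, ⟨trivial, show 3 ≤ W by omega, ?_⟩, ?_⟩,
      show 2 ≤ W by omega⟩, trivial, show 5 ≤ W by omega, ?_⟩
    · simp only [Expr.eval, r33]; omega
    · simp only [Expr.eval, r33]; omega
    · simp only [Expr.eval, r33]; omega
    · simp only [Expr.eval, r33]; omega
  have e4 : tE.eval σ₃ = t := by
    simp only [tE, Expr.eval, r33]; exact htv
  rw [e4]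
  set σ₄ := σ₃.set 9 t with hσ₄
  have r43 : σ₄.reg 3 = k' := by simp [hσ₄, r33]
  have r44 : σ₄.reg 4 = n + 4 := by simp [hσ₄, hσ₃]
  have r49 : σ₄.reg 9 = t := by simp [hσ₄]
  refine Term.seq (Term.assign ?_ ?_)
  · refine ⟨trivial, ⟨trivial, show 6 ≤ W by omega, ?_⟩, ?_⟩
    · simp only [Expr.eval, r49]; omega
    · simp only [Expr.eval, r49, r43]; omega
  have e5 : (Expr.add (.var 3) (.add (.var 9) (.lit 6))).eval σ₄ = k' + 4 + t + 2 := by
    simp only [Expr.eval, r43, r49]; omega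
  rw [e5]
  set σ₅ := σ₄.set 5 (k' + 4 + t + 2) with hσ₅
  have r54 : σ₅.reg 4 = n + 4 := by simp [hσ₅, r44]
  have r59 : σ₅.reg 9 = t := by simp [hσ₅, r49]
  refine Term.seq (Term.assign ?_ ?_)
  · refine ⟨trivial, trivial, ?_⟩
    simp only [Expr.eval, r54]; exact hprod2
  have e6 : (Expr.mul (.var 4) (.var 4)).eval σ₅ = (n + 4) * (n + 4) := by
    simp only [Expr.eval, r54]
  rw [e6]
  set σ₆ := σ₅.set 6 ((n + 4) * (n + 4)) with hσ₆
  have r64 : σ₆.reg 4 = n + 4 := by simp [hσ₆, r54]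
  have r69 : σ₆.reg 9 = t := by simp [hσ₆, r59]
  refine Term.seq (Term.assign ?_ ?_)
  · refine ⟨trivial, trivial, ?_⟩
    simp only [Expr.eval, r64, r69]; omega
  have e7 : (Expr.add (.var 4) (.var 9)).eval σ₆ = n + 4 + t := by
    simp only [Expr.eval, r64, r69]
  rw [e7]
  set σ₇ := σ₆.set 7 (n + 4 + t) with hσ₇
  have r77 : σ₇.reg 7 = n + 4 + t := by simp [hσ₇]
  refine Term.seq (Term.assign ?_ ?_)
  · refine ⟨trivial, show 1 ≤ W by omega, ?_⟩
    simp only [Expr.eval, r77]; omega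
  have e8 : (Expr.add (.var 7) (.lit 1)).eval σ₇ = n + 4 + t + 1 := by
    simp only [Expr.eval, r77]
  rw [e8]
  set σ₈ := σ₇.set 8 (n + 4 + t + 1) with hσ₈
  have r80 : σ₈.reg 0 = L0 := by simp [hσ₈, hσ₇, hσ₆, hσ₅, hσ₄, hσ₃, hσ₂, hσ₁, h0]
  refine Term.assign ?_ ?_
  · refine ⟨trivial, show 3 ≤ W by omega, ?_⟩
    simp only [Expr.eval, r80]; exact hL
  have e9 : (Expr.add (.var 0) (.lit 3)).eval σ₈ = L0 + 3 := by
    simp only [Expr.eval, r80]
  rw [e9]
  refine ⟨?_, ?_, ?_, ?_, ?_, ?_, ?_, ?_, rfl⟩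
  · simp [r80]
  · simp
  · simp [hσ₈, hσ₇, hσ₆, hσ₅, hσ₄, hσ₃, r22]
  · simp [hσ₈, hσ₇, r64]
  · simp [hσ₈, hσ₇, hσ₆, hσ₅]
  · simp [hσ₈, hσ₇, hσ₆]
  · simp [hσ₈, r77]
  · simp [hσ₈]

/-! ### the main program -/

def emitC : Cmd := .seq (emitN (.var 5) (.lit 0) (.lit 1)) (forL 10 (.var 6) bodyI)

def emitCT (M A1 b : ℕ) : ℕ := emitT M + (3 + (A1 * (7 + (bodyIT M b + 6)) + 6))

theorem emitC_emits {W base : ℕ} {σ : St} {n k a b M : ℕ} (G : SimpleGraph (Fin n))
    (hd : Hdr n k M (a + 1) b W base σ)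
    (ha : a + 1 = (n + 4) * (n + 4)) (hnb : n + 4 ≤ b)
    (hm : Adjs G σ.mem) (hmb : 2 + n * n + n ≤ W) (hbase : n * n + 2 + 3 = base)
    (hW : 2 + 4 * ((a + 1) * (b + 1)) + 4 * (b + 1) + 3 ≤ W)
    (hW3 : b * (b * b) ≤ W) :
    Emits W base 10 emitC σ (emitCT M (a + 1) b) (allL a b M (actN G) (incN G)) := by
  have hem := em_spec (W := W) (base := base) (σ := σ) (cnt := .var 5) (e₁ := .lit 0)
    (e₂ := .lit 1) trivial (show 5 < 19 by omega) (Nat.zero_le _)
    (show 1 ≤ W by omega) trivial (by omega) rfl rfl hd.h5 (by simp only [Expr.size]; omega)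
  refine Emits.seq (hem.level (by omega)) fun σ₁ hfr => ?_
  have hd1 := hfr.hdr (by omega) hd
  have hm1 : Adjs G σ₁.mem := by
    intro u v hu hv
    have hlt : 2 + (u * n + v) < base := by
      have h1 : (u + 1) * n ≤ n * n := Nat.mul_le_mul_right _ (by omega)
      have h2 : (u + 1) * n = u * n + n := by ring
      omega
    rw [hfr.2 _ hlt]
    exact hm u v hu hv
  have hAW : a + 1 ≤ W := by
    have : (a + 1) * 1 ≤ (a + 1) * (b + 1) := Nat.mul_le_mul_left _ (by omega)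
    omega
  refine forL_emits (by omega) rfl (by omega) (by omega) hd1.h6 hAW (by omega) ?_
  intro i hi σ₂ hfr2 h10
  have hd2 := hfr2.hdr (by omega) hd1
  have hm2 : Adjs G σ₂.mem := by
    intro u v hu hv
    have hlt : 2 + (u * n + v) < base := by
      have h1 : (u + 1) * n ≤ n * n := Nat.mul_le_mul_right _ (by omega)
      have h2 : (u + 1) * n = u * n + n := by ring
      omega
    rw [hfr2.2 _ hlt]
    exact hm1 u v hu hv
  exact bodyI_emits G hd2 h10 (by omega) ha hnb hm2 hmb hbase hW hW3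

def footC : Cmd :=
  .seq (.store (.var 0) (.sub (.var 5) (.lit 1)))
  (.seq (.store (.add (.var 0) (.lit 1)) (.add (.lit 2) (.mul (.lit 4) (.mul (.var 6) (.var 8)))))
  (.store (.add (.var 0) (.lit 2)) (.div (.sub (.var 1) (.add (.var 0) (.lit 3))) (.lit 2))))

def mainC : Cmd := .seq hdrC (.seq emitC footC)

def mainT (M A1 b : ℕ) : ℕ := 200 + emitCT M A1 b

/-- the number of pairs -/
def mainN (n k : ℕ) : ℕ :=
  (k + 4 + tN k + 2) + (nV n + 1) * (8 * (k + 4 + tN k + 2) + 1 + (n + 4 + tN k) *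
    (9 * (k + 4 + tN k + 2)))

theorem mainC_run {W n k : ℕ} (G : SimpleGraph (Fin n)) {k' : ℕ} (hk' : min k (n + 1) = k')
    (hW0 : (n + 5) * (n + 5) + 10 ≤ W)
    (hW1 : n * n + 5 + 2 * mainN n k' ≤ W)
    (hW : 2 + 4 * ((nV n + 1) * (n + 4 + tN k' + 1)) + 4 * (n + 4 + tN k' + 1) + 3 ≤ W)
    (hW3 : (n + 4 + tN k') * ((n + 4 + tN k') * (n + 4 + tN k')) ≤ W) :
    Run W mainC ⟨fun i => if i = 0 then (cliqueCode n k G).length else 0,
        fun i => (cliqueCode n k G).getD i 0⟩ (mainT (k' + 4 + tN k' + 2) (nV n + 1) (n + 4 + tN k'))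
      (fun σ' => σ'.mem (n * n + 2) = k' + 4 + tN k' + 1 ∧
        σ'.mem (n * n + 2 + 1) = 2 + 4 * ((nV n + 1) * (n + 4 + tN k' + 1)) ∧
        σ'.mem (n * n + 2 + 2) = mainN n k' ∧
        ∀ q (h : q < (allL (nV n) (n + 4 + tN k') (k' + 4 + tN k' + 2) (actN G) (incN G)).length),
          σ'.mem (n * n + 2 + 3 + 2 * q) =
              ((allL (nV n) (n + 4 + tN k') (k' + 4 + tN k' + 2) (actN G) (incN G))[q]).1 ∧
            σ'.mem (n * n + 2 + 3 + 2 * q + 1) =
              ((allL (nV n) (n + 4 + tN k') (k' + 4 + tN k' + 2) (actN G) (incN G))[q]).2) := by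
  set x := cliqueCode n k G with hx
  set σ₀ : St := ⟨fun i => if i = 0 then x.length else 0, fun i => x.getD i 0⟩ with hσ₀
  have hlen : x.length = n * n + 2 := cliqueCode_length n k G
  have hadj : Adjs G σ₀.mem := cliqueCode_adj n k G
  have hnn : n * n + 10 * n + 25 = (n + 5) * (n + 5) := by ring
  have hN : (allL (nV n) (n + 4 + tN k') (k' + 4 + tN k' + 2) (actN G) (incN G)).length =
      mainN n k' := allL_length _ _ _ _ _
  have hMN : k' + 4 + tN k' + 2 ≤ mainN n k' := by unfold mainN; omega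
  have hA1 : nV n + 1 = (n + 4) * (n + 4) := nV_succ n
  have hhdr := (hdrC_term (W := W) (n := n) (k := k) (L0 := n * n + 2) (σ := σ₀)
    (by simp [hσ₀, hlen]) (by simp [hσ₀, hx, cliqueCode]) (by simp [hσ₀, hx, cliqueCode]) hW0
    (by omega) (by rw [hk']; omega) (by rw [hk']; omega)).run ⟨trivial, trivial, trivial, trivial,
      trivial, trivial, trivial, trivial, trivial⟩
  rw [hk'] at hhdr
  refine Run.seq (T₂ := emitCT (k' + 4 + tN k' + 2) (nV n + 1) (n + 4 + tN k') + footC.cost)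
    (hhdr.mono le_rfl ?_) ?_
  · rintro σ₁ ⟨r0, r1, r2, r4, r5, r6, r7, r8, hm⟩
    have hd : Hdr n k' (k' + 4 + tN k' + 2) (nV n + 1) (n + 4 + tN k') W (n * n + 2 + 3) σ₁ :=
      ⟨by rw [r0], r2, r4, r5, by rw [r6, hA1], r7, r8⟩
    refine Run.seq ((emitC_emits G hd hA1 (by omega) (by rw [hm]; exact hadj) (by omega) rfl hW hW3
      [] ⟨by rw [r1]; simp, fun q h => absurd h (by simp)⟩ ?_).mono le_rfl ?_) le_rfl
    · rw [hN]
      simp only [List.length_nil]
      omega
    · rintro σ₂ ⟨hfr, hEm⟩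
      have hd2 := hfr.hdr (by omega) hd
      have s0 : σ₂.reg 0 = n * n + 2 := (hfr.1 0 (by omega) (by omega)).trans r0
      rw [List.nil_append] at hEm
      have s1 : σ₂.reg 1 = n * n + 2 + 3 + 2 * mainN n k' := by rw [hEm.1, hN]
      have hpos : 4 * (1 * 1) ≤ 4 * ((nV n + 1) * (n + 4 + tN k' + 1)) :=
        Nat.mul_le_mul_left _ (Nat.mul_le_mul (by omega) (by omega))
      have hpos2 : 1 * ((nV n + 1) * (n + 4 + tN k' + 1)) ≤
        4 * ((nV n + 1) * (n + 4 + tN k' + 1)) := Nat.mul_le_mul_right _ (by omega)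
      refine Term.run (Term.seq (Term.store trivial ⟨trivial, show 1 ≤ W by omega⟩ (Term.seq
        (Term.store ⟨trivial, show 1 ≤ W by omega, ?_⟩ ⟨show 2 ≤ W by omega,
          ⟨show 4 ≤ W by omega, ⟨trivial, trivial, ?_⟩, ?_⟩, ?_⟩
        (Term.store ⟨trivial, show 2 ≤ W by omega, ?_⟩ ⟨⟨trivial, ⟨trivial, show 3 ≤ W by omega,
          ?_⟩⟩, show 2 ≤ W by omega⟩ ⟨?_, ?_, ?_, ?_⟩))))) ⟨trivial, trivial, trivial⟩
      all_goals simp only [Expr.eval, St.put_reg, s0, s1, hd2.h6, hd2.h8, hd2.h5, St.put_mem]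
      · omega
      · omega
      · omega
      · omega
      · omega
      · omega
      · rw [if_neg (by omega), if_neg (by omega), if_pos trivial]; omega
      · rw [if_neg (by omega), if_pos trivial]
      · rw [if_pos trivial]; omega
      · intro q hq
        rw [if_neg (by omega), if_neg (by omega), if_neg (by omega), if_neg (by omega),
          if_neg (by omega), if_neg (by omega)]
        exact hEm.2 q hq
  · simp only [mainT, hdrC, kE, tE, footC, Cmd.cost, Expr.size]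
    omega

end Pool.Agent.Lib.MP_e057e5_lc
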