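import Pool.Agent.Lib.MP_e057e5_lc.Emit

namespace Pool.Agent.Lib.MP_e057e5_lc

open Pool.Agent.Lib.Ram

variable {W base : ℕ} {σ : St}

def pl (r c : ℕ) : Expr := .add (.var r) (.lit c)

/-- uniform cost bound of one emission -/
def emitT (m : ℕ) : ℕ := m * (4 + (emit1.cost + 6)) + 60

theorem em_spec {cnt e₁ e₂ : Expr} {m x y : ℕ} (hv₂ : e₂.vars 19) (hv₃ : cnt.vars 19)
    (ho₁ : e₁.ok W σ) (ho₂ : e₂.ok W σ) (ho₃ : cnt.ok W σ) (hW1 : 1 ≤ W)
    (h1 : e₁.eval σ = x) (h2 : e₂.eval σ = y) (h3 : cnt.eval σ = m)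
    (hs : e₁.size + e₂.size + cnt.size ≤ 40) :
    Emits W base 19 (emitN cnt e₁ e₂) σ (emitT m) (rep m x y) := by
  have := emitN_emits (base := base) (W := W) (σ := σ) hv₂ hv₃ ho₁ ho₂ ho₃ hW1
  rw [h1, h2, h3] at this
  refine this.time ?_
  unfold emitNCost emitT
  omega

def baseC (r : ℕ) : Cmd :=
  .seq (emitN (.var 5) (.lit 0) (pl r 1)) (.seq (emitN (.var 5) (.lit 1) (pl r 1))
  (.seq (emitN (.var 5) (.lit 0) (pl r 2)) (.seq (emitN (.var 5) (.lit 1) (pl r 2))
  (.seq (emitN (.var 5) (.lit 0) (pl r 3)) (emitN (.var 5) (.lit 1) (pl r 3))))))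

theorem baseC_emits {r M w : ℕ} (hr : r < 19) (hr1 : r ≠ 1) (h5 : σ.reg 5 = M)
    (hz : σ.reg r = 2 + 4 * w) (hW : 2 + 4 * w + 3 ≤ W) :
    Emits W base 19 (baseC r) σ (6 * emitT M) (baseL M w) := by
  have key : ∀ (h c : ℕ), h ≤ 1 → c ≤ 3 → ∀ σ', Fr 19 base σ σ' →
      Emits W base 19 (emitN (.var 5) (.lit h) (pl r c)) σ' (emitT M) (rep M h (2 + 4 * w + c)) := by
    intro h c hh hc σ' hfr
    have e5 : σ'.reg 5 = M := (hfr.1 5 (by omega) (by omega)).trans h5
    have er : σ'.reg r = 2 + 4 * w := (hfr.1 r hr hr1).trans hz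
    refine em_spec ⟨hr, trivial⟩ (show 5 < 19 by omega) ?_ ⟨trivial, ?_, ?_⟩ trivial (by omega) rfl
      ?_ e5 ?_
    · show h ≤ W; omega
    · show c ≤ W; omega
    · simp only [Expr.eval, er]; omega
    · simp only [pl, Expr.eval, er]
    · simp only [pl, Expr.size]; omega
  have := (key 0 1 (by omega) (by omega) σ (Fr.refl σ)).seq fun σ₁ h₁ =>
    (key 1 1 (by omega) (by omega) σ₁ h₁).seq fun σ₂ h₂ =>
    (key 0 2 (by omega) (by omega) σ₂ (h₁.trans h₂)).seq fun σ₃ h₃ =>
    (key 1 2 (by omega) (by omega) σ₃ ((h₁.trans h₂).trans h₃)).seq fun σ₄ h₄ =>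
    (key 0 3 (by omega) (by omega) σ₄ (((h₁.trans h₂).trans h₃).trans h₄)).seq fun σ₅ h₅ =>
    (key 1 3 (by omega) (by omega) σ₅ ((((h₁.trans h₂).trans h₃).trans h₄).trans h₅))
  have e : baseL M w = rep M 0 (2 + 4 * w + 1) ++ (rep M 1 (2 + 4 * w + 1) ++
      (rep M 0 (2 + 4 * w + 2) ++ (rep M 1 (2 + 4 * w + 2) ++ (rep M 0 (2 + 4 * w + 3) ++
      rep M 1 (2 + 4 * w + 3))))) := by
    simp only [baseL, List.append_assoc]
  rw [e]
  exact this.time (by omega)

def xC : Cmd :=
  .seq (baseC 14) (.seq (emitN (.var 5) (.var 14) (pl 14 1))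
  (.seq (.ite (.var 13) (emitN (.var 5) (.var 14) (pl 14 1)) (emitN (.var 5) (.var 14) (pl 14 3)))
  (emitN (.lit 1) (.var 14) (pl 14 2))))

theorem xC_emits {M b i : ℕ} {actn : ℕ → Bool} (h5 : σ.reg 5 = M)
    (h13 : σ.reg 13 = if actn i then 1 else 0) (h14 : σ.reg 14 = 2 + 4 * (i * (b + 1) + b))
    (hW : 2 + 4 * (i * (b + 1) + b) + 3 ≤ W) :
    Emits W base 19 xC σ (8 * emitT M + emitT 1 + 4) (xL b M actn i) := by
  set z := 2 + 4 * (i * (b + 1) + b) with hz
  have key : ∀ (c : ℕ), c ≤ 3 → ∀ σ', Fr 19 base σ σ' →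
      Emits W base 19 (emitN (.var 5) (.var 14) (pl 14 c)) σ' (emitT M) (rep M z (z + c)) := by
    intro c hc σ' hfr
    have e5 : σ'.reg 5 = M := (hfr.1 5 (by omega) (by omega)).trans h5
    have er : σ'.reg 14 = z := (hfr.1 14 (by omega) (by omega)).trans h14
    refine em_spec ⟨by show 14 < 19; omega, trivial⟩ (show 5 < 19 by omega) trivial
      ⟨trivial, ?_, ?_⟩ trivial (by omega) er ?_ e5 ?_
    · show c ≤ W; omega
    · simp only [Expr.eval, er]; omega
    · simp only [pl, Expr.eval, er]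
    · simp only [pl, Expr.size]; omega
  have key1 : ∀ σ', Fr 19 base σ σ' →
      Emits W base 19 (emitN (.lit 1) (.var 14) (pl 14 2)) σ' (emitT 1) (rep 1 z (z + 2)) := by
    intro σ' hfr
    have er : σ'.reg 14 = z := (hfr.1 14 (by omega) (by omega)).trans h14
    refine em_spec ⟨by show 14 < 19; omega, trivial⟩ trivial trivial
      ⟨trivial, ?_, ?_⟩ ?_ (by omega) er ?_ rfl ?_
    · show 2 ≤ W; omega
    · simp only [Expr.eval, er]; omega
    · show 1 ≤ W; omega
    · simp only [pl, Expr.eval, er]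
    · simp only [pl, Expr.size]; omega
  have := (baseC_emits (base := base) (W := W) (σ := σ) (by omega) (by omega) h5 h14
    (by omega)).seq fun σ₁ h₁ =>
    (key 1 (by omega) σ₁ h₁).seq fun σ₂ h₂ =>
    (Emits.ite (W := W) (base := base) (e := .var 13) (σ := σ₂)
      (p := emitN (.var 5) (.var 14) (pl 14 1)) (q := emitN (.var 5) (.var 14) (pl 14 3))
      (T := emitT M) (l := rep M z (if actn i then z + 1 else z + 3)) trivial
      (fun h => by
        have e13 : σ₂.reg 13 = if actn i then 1 else 0 :=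
          ((h₁.trans h₂).1 13 (by omega) (by omega)).trans h13
        have h : σ₂.reg 13 ≠ 0 := h
        rw [e13] at h
        have ha : actn i = true := by by_contra hc; simp [hc] at h
        rw [if_pos ha]
        exact key 1 (by omega) σ₂ (h₁.trans h₂))
      (fun h => by
        have e13 : σ₂.reg 13 = if actn i then 1 else 0 :=
          ((h₁.trans h₂).1 13 (by omega) (by omega)).trans h13
        have h : σ₂.reg 13 = 0 := h
        rw [e13] at h
        have ha : ¬ actn i = true := by intro hc; simp [hc] at h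
        rw [if_neg ha]
        exact key 3 (by omega) σ₂ (h₁.trans h₂))).seq fun σ₃ h₃ =>
    key1 σ₃ ((h₁.trans h₂).trans h₃)
  have e : xL b M actn i = baseL M (i * (b + 1) + b) ++ (rep M z (z + 1) ++
      (rep M z (if actn i then z + 1 else z + 3) ++ rep 1 z (z + 2))) := by
    simp only [xL, List.append_assoc, hz]
  rw [e]
  refine this.time ?_
  show 6 * emitT M + (emitT M + (2 + 2 + emitT M + emitT 1)) ≤ _
  omega

def cC : Cmd :=
  .seq (baseC 18)
  (.seq (.ite (.var 10) (emitN (.var 5) (.sub (.var 18) (.mul (.lit 4) (.var 8))) (.var 18))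
    (emitN (.var 5) (.var 18) (pl 18 1)))
  (.seq (.ite (.sub (.var 6) (pl 10 1))
    (emitN (.var 5) (.var 18) (.add (.var 18) (.mul (.lit 4) (.var 8))))
    (emitN (.var 5) (.var 18) (pl 18 2)))
  (.ite (.var 17) (emitN (.var 5) (.var 14) (.var 18)) (emitN (.var 5) (.var 18) (pl 18 3)))))

theorem cC_emits {M a b i j : ℕ} {incn : ℕ → ℕ → Bool} (h5 : σ.reg 5 = M) (h6 : σ.reg 6 = a + 1)
    (h8 : σ.reg 8 = b + 1) (h10 : σ.reg 10 = i) (hia : i ≤ a)
    (h17 : σ.reg 17 = if incn i j then 1 else 0) (h14 : σ.reg 14 = 2 + 4 * (i * (b + 1) + b))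
    (h18 : σ.reg 18 = 2 + 4 * (i * (b + 1) + j)) (hj : j < b)
    (hW : 2 + 4 * (i * (b + 1) + b) + 4 * (b + 1) + 3 ≤ W) (hiW : i + 1 ≤ W) :
    Emits W base 19 cC σ (9 * emitT M + 30) (cL a b M incn i j) := by
  set z := 2 + 4 * (i * (b + 1) + j) with hz
  set x := 2 + 4 * (i * (b + 1) + b) with hx
  have frs : ∀ σ', Fr 19 base σ σ' → σ'.reg 5 = M ∧ σ'.reg 6 = a + 1 ∧ σ'.reg 8 = b + 1 ∧
      σ'.reg 10 = i ∧ σ'.reg 17 = (if incn i j then 1 else 0) ∧ σ'.reg 14 = x ∧
      σ'.reg 18 = z := by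
    intro σ' hfr
    exact ⟨(hfr.1 5 (by omega) (by omega)).trans h5, (hfr.1 6 (by omega) (by omega)).trans h6,
      (hfr.1 8 (by omega) (by omega)).trans h8, (hfr.1 10 (by omega) (by omega)).trans h10,
      (hfr.1 17 (by omega) (by omega)).trans h17, (hfr.1 14 (by omega) (by omega)).trans h14,
      (hfr.1 18 (by omega) (by omega)).trans h18⟩
  have key : ∀ (c : ℕ), c ≤ 3 → ∀ σ', Fr 19 base σ σ' →
      Emits W base 19 (emitN (.var 5) (.var 18) (pl 18 c)) σ' (emitT M) (rep M z (z + c)) := by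
    intro c hc σ' hfr
    obtain ⟨e5, e6, e8, e10, e17, e14, e18⟩ := frs σ' hfr
    refine em_spec ⟨by show 18 < 19; omega, trivial⟩ (show 5 < 19 by omega) trivial
      ⟨trivial, ?_, ?_⟩ trivial (by omega) e18 ?_ e5 ?_
    · show c ≤ W; omega
    · simp only [Expr.eval, e18]; omega
    · simp only [pl, Expr.eval, e18]
    · simp only [pl, Expr.size]; omega
  have := (baseC_emits (base := base) (W := W) (σ := σ) (by omega) (by omega) h5 h18
    (by omega)).seq fun σ₁ h₁ =>
    (Emits.ite (W := W) (base := base) (e := .var 10) (σ := σ₁)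
      (p := emitN (.var 5) (.sub (.var 18) (.mul (.lit 4) (.var 8))) (.var 18))
      (q := emitN (.var 5) (.var 18) (pl 18 1)) (T := emitT M)
      (l := if i = 0 then rep M z (z + 1) else rep M (z - 4 * (b + 1)) z) trivial
      (fun h => by
        obtain ⟨e5, e6, e8, e10, e17, e14, e18⟩ := frs σ₁ h₁
        have h : σ₁.reg 10 ≠ 0 := h
        rw [e10] at h
        rw [if_neg h]
        refine em_spec (show 18 < 19 by omega) (show 5 < 19 by omega)
          ⟨trivial, ?_, trivial, ?_⟩ trivial trivial (by omega) ?_ e18 e5 ?_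
        · show 4 ≤ W; omega
        · simp only [Expr.eval, e8]; omega
        · simp only [Expr.eval, e8, e18]
        · simp only [Expr.size]; omega)
      (fun h => by
        obtain ⟨e5, e6, e8, e10, e17, e14, e18⟩ := frs σ₁ h₁
        have h : σ₁.reg 10 = 0 := h
        rw [e10] at h
        rw [if_pos h]
        exact key 1 (by omega) σ₁ h₁)).seq fun σ₂ h₂ =>
    (Emits.ite (W := W) (base := base) (e := .sub (.var 6) (pl 10 1)) (σ := σ₂)
      (p := emitN (.var 5) (.var 18) (.add (.var 18) (.mul (.lit 4) (.var 8))))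
      (q := emitN (.var 5) (.var 18) (pl 18 2)) (T := emitT M)
      (l := if i = a then rep M z (z + 2) else rep M z (z + 4 * (b + 1)))
      (by
        obtain ⟨e5, e6, e8, e10, e17, e14, e18⟩ := frs σ₂ (h₁.trans h₂)
        refine ⟨trivial, trivial, ?_, ?_⟩
        · show 1 ≤ W; omega
        · simp only [Expr.eval, e10]; exact hiW)
      (fun h => by
        obtain ⟨e5, e6, e8, e10, e17, e14, e18⟩ := frs σ₂ (h₁.trans h₂)
        have h : σ₂.reg 6 - (σ₂.reg 10 + 1) ≠ 0 := h
        rw [e10, e6] at h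
        rw [if_neg (by omega)]
        refine em_spec ⟨show 18 < 19 by omega, trivial, show 8 < 19 by omega⟩
          (show 5 < 19 by omega) trivial ⟨trivial, ⟨?_, trivial, ?_⟩, ?_⟩ trivial (by omega)
          e18 ?_ e5 ?_
        · show 4 ≤ W; omega
        · simp only [Expr.eval, e8]; omega
        · simp only [Expr.eval, e8, e18]; omega
        · simp only [Expr.eval, e8, e18]
        · simp only [Expr.size]; omega)
      (fun h => by
        obtain ⟨e5, e6, e8, e10, e17, e14, e18⟩ := frs σ₂ (h₁.trans h₂)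
        have h : σ₂.reg 6 - (σ₂.reg 10 + 1) = 0 := h
        rw [e10, e6] at h
        rw [if_pos (by omega)]
        exact key 2 (by omega) σ₂ (h₁.trans h₂))).seq fun σ₃ h₃ =>
    (Emits.ite (W := W) (base := base) (e := .var 17) (σ := σ₃)
      (p := emitN (.var 5) (.var 14) (.var 18))
      (q := emitN (.var 5) (.var 18) (pl 18 3)) (T := emitT M)
      (l := if incn i j then rep M x z else rep M z (z + 3)) trivial
      (fun h => by
        obtain ⟨e5, e6, e8, e10, e17, e14, e18⟩ := frs σ₃ ((h₁.trans h₂).trans h₃)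
        have h : σ₃.reg 17 ≠ 0 := h
        rw [e17] at h
        have ha : incn i j = true := by by_contra hc; simp [hc] at h
        rw [if_pos ha]
        exact em_spec (show 18 < 19 by omega) (show 5 < 19 by omega) trivial trivial trivial
          (by omega) e14 e18 e5 (by simp only [Expr.size]; omega))
      (fun h => by
        obtain ⟨e5, e6, e8, e10, e17, e14, e18⟩ := frs σ₃ ((h₁.trans h₂).trans h₃)
        have h : σ₃.reg 17 = 0 := h
        rw [e17] at h
        have ha : ¬ incn i j = true := by intro hc; simp [hc] at h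
        rw [if_neg ha]
        exact key 3 (by omega) σ₃ ((h₁.trans h₂).trans h₃)))
  have e : cL a b M incn i j = baseL M (i * (b + 1) + j) ++
      ((if i = 0 then rep M z (z + 1) else rep M (z - 4 * (b + 1)) z) ++
      ((if i = a then rep M z (z + 2) else rep M z (z + 4 * (b + 1))) ++
      (if incn i j then rep M x z else rep M z (z + 3)))) := by
    simp only [cL, List.append_assoc, hz, hx]
  rw [e]
  refine this.time ?_
  show 6 * emitT M + (2 + 2 + emitT M + (2 + (2 + 1 + 1) + 1 + 2 + emitT M +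
    (2 + 2 + emitT M))) ≤ _
  omega

end Pool.Agent.Lib.MP_e057e5_lc
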