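import Pool.Agent.Lib.MP_e057e5_lc.Defs

set_option linter.unusedSectionVars false

namespace Pool.Agent.Lib.MP_e057e5_lc

section general
variable {V E : Type} [Fintype V] [DecidableEq V] [Fintype E] [DecidableEq E] (ends : E → V × V)

def vts {E : Type} (ends : E → V × V) (F : Finset E) : Finset V :=
  F.image (fun e => (ends e).1) ∪ F.image (fun e => (ends e).2)

def Ind {E : Type} (ends : E → V × V) (F : Finset E) : Prop :=
  ∀ F' ⊆ F, F'.Nonempty → F'.card + 3 ≤ 2 * (vts ends F').card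

def RW (F : Finset E) : Prop :=
  ∃ I : Finset E, Disjoint I F ∧ Ind ends I ∧ I.card + 3 = 2 * Fintype.card V

theorem mem_vts {E : Type} {ends : E → V × V} {F : Finset E} {v : V} :
    v ∈ vts ends F ↔ ∃ e ∈ F, v = (ends e).1 ∨ v = (ends e).2 := by
  unfold vts
  simp only [Finset.mem_union, Finset.mem_image]
  constructor
  · rintro (⟨e, he, rfl⟩ | ⟨e, he, rfl⟩)
    · exact ⟨e, he, Or.inl rfl⟩
    · exact ⟨e, he, Or.inr rfl⟩
  · rintro ⟨e, he, rfl | rfl⟩
    · exact Or.inl ⟨e, he, rfl⟩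
    · exact Or.inr ⟨e, he, rfl⟩

/-- transport to a concrete multigraph -/
theorem rigidWithout_iff (G : MGraph) (eV : V ≃ Fin G.n) (eE : E ≃ Fin G.m)
    (h : ∀ e, G.ends (eE e) = (eV (ends e).1, eV (ends e).2)) (F : Finset E) :
    G.RigidWithout (F.map eE.toEmbedding) ↔ RW ends F := by
  have hv : ∀ F : Finset E, G.verts (F.map eE.toEmbedding) = (vts ends F).map eV.toEmbedding := by
    intro F
    ext v
    simp only [MGraph.verts, Finset.mem_union, Finset.mem_image, Finset.mem_map, mem_vts,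
      Equiv.coe_toEmbedding]
    constructor
    · rintro (⟨e', ⟨e, he, rfl⟩, rfl⟩ | ⟨e', ⟨e, he, rfl⟩, rfl⟩)
      · exact ⟨(ends e).1, ⟨e, he, Or.inl rfl⟩, by rw [h]⟩
      · exact ⟨(ends e).2, ⟨e, he, Or.inr rfl⟩, by rw [h]⟩
    · rintro ⟨u, ⟨e, he, hu⟩, rfl⟩
      rcases hu with rfl | rfl
      · exact Or.inl ⟨eE e, ⟨e, he, rfl⟩, by rw [h]⟩
      · exact Or.inr ⟨eE e, ⟨e, he, rfl⟩, by rw [h]⟩
  have hi : ∀ F : Finset E, G.Indep (F.map eE.toEmbedding) ↔ Ind ends F := by
    intro F
    constructor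
    · intro H F' hF' hne
      have := H (F'.map eE.toEmbedding) (Finset.map_subset_map.mpr hF') (hne.map)
      rwa [hv, Finset.card_map, Finset.card_map] at this
    · intro H F' hF' hne
      obtain ⟨F'', rfl⟩ : ∃ F'', F' = Finset.map eE.toEmbedding F'' := by
        refine ⟨F'.map eE.symm.toEmbedding, ?_⟩
        ext e; simp
      rw [Finset.map_subset_map] at hF'
      have := H F'' hF' (by simpa using hne)
      rwa [hv, Finset.card_map, Finset.card_map]
  have hcard : Fintype.card V = G.n := by rw [Fintype.card_congr eV, Fintype.card_fin]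
  constructor
  · rintro ⟨I, hd, hI, hc⟩
    obtain ⟨I', rfl⟩ : ∃ I', I = Finset.map eE.toEmbedding I' := by
      refine ⟨I.map eE.symm.toEmbedding, ?_⟩
      ext e; simp
    rw [Finset.disjoint_map] at hd
    exact ⟨I', hd, (hi I').mp hI, by rw [hcard, ← hc, Finset.card_map]⟩
  · rintro ⟨I, hd, hI, hc⟩
    exact ⟨I.map eE.toEmbedding, by rwa [Finset.disjoint_map], (hi I).mpr hI,
      by rw [Finset.card_map, hc, hcard]⟩

theorem cut_le_iff (G : MGraph) (eV : V ≃ Fin G.n) (eE : E ≃ Fin G.m)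
    (h : ∀ e, G.ends (eE e) = (eV (ends e).1, eV (ends e).2)) (c : ℕ)
    (hne : ∃ F : Finset E, ¬ RW ends F) :
    G.cut ≤ c ↔ ∃ F : Finset E, F.card ≤ c ∧ ¬ RW ends F := by
  have hset : {c | ∃ F : Finset (Fin G.m), F.card = c ∧ ¬ G.RigidWithout F} =
      {c | ∃ F : Finset E, F.card = c ∧ ¬ RW ends F} := by
    ext c
    constructor
    · rintro ⟨F, hc, hF⟩
      obtain ⟨F', rfl⟩ : ∃ F', F = Finset.map eE.toEmbedding F' := by
        refine ⟨F.map eE.symm.toEmbedding, ?_⟩
        ext e; simp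
      rw [rigidWithout_iff ends G eV eE h] at hF
      exact ⟨F', by rw [← hc, Finset.card_map], hF⟩
    · rintro ⟨F, hc, hF⟩
      refine ⟨F.map eE.toEmbedding, by rw [Finset.card_map, hc], ?_⟩
      rwa [rigidWithout_iff ends G eV eE h]
  unfold MGraph.cut
  rw [hset]
  constructor
  · intro hle
    have hmem := Nat.sInf_mem (s := {c | ∃ F : Finset E, F.card = c ∧ ¬ RW ends F})
      (by obtain ⟨F, hF⟩ := hne; exact ⟨F.card, F, rfl, hF⟩)
    obtain ⟨F, hc, hF⟩ := hmem
    exact ⟨F, by rw [hc]; exact hle, hF⟩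
  · rintro ⟨F, hc, hF⟩
    have hmem : F.card ∈ {c | ∃ F : Finset E, F.card = c ∧ ¬ RW ends F} := ⟨F, rfl, hF⟩
    exact (Nat.sInf_le hmem).trans hc

/-- rigidity from a set of pairs -/
theorem rw_of_pairs (F : Finset E) (T : Finset (V × V)) (hT : Ind (id : V × V → V × V) T)
    (hc : T.card + 3 = 2 * Fintype.card V) (hs : ∀ p ∈ T, ∃ e, e ∉ F ∧ ends e = p) :
    RW ends F := by
  classical
  have hTne : T.Nonempty := by
    by_contra h
    rw [Finset.not_nonempty_iff_eq_empty] at h
    rw [h, Finset.card_empty] at hc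
    omega
  obtain ⟨p₀, hp₀⟩ := hTne
  haveI : Nonempty E := ⟨(hs p₀ hp₀).choose⟩
  choose! g hg using hs
  have hinj : Set.InjOn g T := by
    intro p hp q hq hpq
    rw [← (hg p hp).2, ← (hg q hq).2, hpq]
  refine ⟨T.image g, ?_, ?_, ?_⟩
  · rw [Finset.disjoint_left]
    intro e he
    rw [Finset.mem_image] at he
    obtain ⟨p, hp, rfl⟩ := he
    exact (hg p hp).1
  · intro F' hF' hne
    have h1 : F' = (F'.image ends).image g := by
      ext e
      simp only [Finset.mem_image]
      constructor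
      · intro he
        obtain ⟨p, hp, rfl⟩ := Finset.mem_image.mp (hF' he)
        exact ⟨p, ⟨g p, he, (hg p hp).2⟩, rfl⟩
      · rintro ⟨p, ⟨e', he', rfl⟩, rfl⟩
        obtain ⟨q, hq, rfl⟩ := Finset.mem_image.mp (hF' he')
        rwa [(hg q hq).2]
    have h2 : F'.image ends ⊆ T := by
      intro p hp
      obtain ⟨e, he, rfl⟩ := Finset.mem_image.mp hp
      obtain ⟨q, hq, rfl⟩ := Finset.mem_image.mp (hF' he)
      rwa [(hg q hq).2]
    have h3 := hT _ h2 (hne.image _)
    have h4 : (F'.image ends).card = F'.card := by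
      conv_rhs => rw [h1]
      rw [Finset.card_image_of_injOn (hinj.mono (by exact_mod_cast h2))]
    have h5 : vts (id : V × V → V × V) (F'.image ends) = vts ends F' := by
      ext v
      simp only [mem_vts, Finset.mem_image, id]
      constructor
      · rintro ⟨p, ⟨e, he, rfl⟩, hv⟩; exact ⟨e, he, hv⟩
      · rintro ⟨e, he, hv⟩; exact ⟨_, ⟨e, he, rfl⟩, hv⟩
    rw [h4, h5] at h3
    exact h3
  · rw [Finset.card_image_of_injOn hinj, hc]

/-- parallel edges are never both in an independent set -/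
theorem ends_injOn {I : Finset E} (hI : Ind ends I) : Set.InjOn ends I := by
  intro e he f hf h
  by_contra hne
  have hsub : ({e, f} : Finset E) ⊆ I := by
    intro x hx
    rw [Finset.mem_insert, Finset.mem_singleton] at hx
    rcases hx with rfl | rfl
    · exact he
    · exact hf
  have h1 := hI {e, f} hsub ⟨e, by simp⟩
  rw [Finset.card_pair hne] at h1
  have h2 : vts ends {e, f} ⊆ {(ends e).1, (ends e).2} := by
    intro v hv
    obtain ⟨x, hx, hv⟩ := mem_vts.mp hv
    rw [Finset.mem_insert, Finset.mem_singleton] at hx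
    have : ends x = ends e := by rcases hx with rfl | rfl; exacts [rfl, h.symm]
    rw [this] at hv
    simpa using hv
  have h3 := (Finset.card_le_card h2).trans Finset.card_le_two
  omega

end general

end Pool.Agent.Lib.MP_e057e5_lc
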